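import Mathlib

/-!
# Problem-level definitions for MP_859019_mp

Sandwiched conditional Renyi entropies `H_alpha^down(A|B)`, the classical-quantum states of the
problem, the CNOT output `tau`, and the erasure-type bound `F_alpha`.
-/

set_option autoImplicit false

open scoped Kronecker ComplexOrder

namespace Pool.Agent.Lib_helper98.Renyi

open Matrix

/-- `x ^ s` on the support: `0` is sent to `0` whatever `s` is. -/
noncomputable def supPow (s x : ℝ) : ℝ := if x = 0 then 0 else x ^ s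

/-- The `s`-th power of a positive semidefinite matrix, taken on its support
(functional calculus of `supPow s`). -/
noncomputable def mpow {n : Type*} [Fintype n] [DecidableEq n] (A : Matrix n n ℂ) (s : ℝ) :
    Matrix n n ℂ :=
  cfc (supPow s) A

/-- A density operator: positive semidefinite of trace one. -/
def IsDensity {n : Type*} [Fintype n] [DecidableEq n] (σ : Matrix n n ℂ) : Prop :=
  σ.PosSemidef ∧ σ.trace = 1

/-- Partial trace over the first system: the marginal `ρ_B` of `ρ_AB`. -/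
noncomputable def margB {a b : Type*} [Fintype a] (ρ : Matrix (a × b) (a × b) ℂ) :
    Matrix b b ℂ :=
  Matrix.of fun i j => ∑ x : a, ρ (x, i) (x, j)

/-- `Tr [(ρ_B^γ ρ_AB ρ_B^γ)^α]` with `γ = (1-α)/(2α)` and `ρ_B^γ` acting on the system `B`. -/
noncomputable def sandwichedTrace {a b : Type*} [Fintype a] [DecidableEq a] [Fintype b]
    [DecidableEq b] (α : ℝ) (ρ : Matrix (a × b) (a × b) ℂ) : ℝ :=
  (trace (mpow (((1 : Matrix a a ℂ) ⊗ₖ mpow (margB ρ) ((1 - α) / (2 * α))) * ρ *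
    ((1 : Matrix a a ℂ) ⊗ₖ mpow (margB ρ) ((1 - α) / (2 * α)))) α)).re

/-- The von Neumann entropy `-Tr ρ log ρ` (natural logarithm, `0 log 0 = 0`). -/
noncomputable def vnEntropy {n : Type*} [Fintype n] [DecidableEq n] (ρ : Matrix n n ℂ) : ℝ :=
  -(trace (cfc (fun x : ℝ => x * Real.log x) ρ)).re

/-- The sandwiched conditional Renyi entropy `H_α^↓(A|B)_ρ`; for `α = 1` the conditional
von Neumann entropy. -/
noncomputable def condH {a b : Type*} [Fintype a] [DecidableEq a] [Fintype b]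
    [DecidableEq b] (α : ℝ) (ρ : Matrix (a × b) (a × b) ℂ) : ℝ :=
  if α = 1 then vnEntropy ρ - vnEntropy (margB ρ)
  else 1 / (1 - α) * Real.log (sandwichedTrace α ρ)

/-- The state `½ |0⟩⟨0| ⊗ σ₀ + ½ |1⟩⟨1| ⊗ σ₁`. -/
noncomputable def cqState {b : Type*} (σ : Fin 2 → Matrix b b ℂ) :
    Matrix (Fin 2 × b) (Fin 2 × b) ℂ :=
  ∑ x : Fin 2, (1 / 2 : ℂ) • (Matrix.single x x (1 : ℂ) ⊗ₖ σ x)

/-- The state `τ = ∑ ¼ |x₁⊕x₂⟩⟨x₁⊕x₂| ⊗ |x₂⟩⟨x₂| ⊗ σ_{x₁} ⊗ σ_{x₂}` on the registers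
`X₁+X₂, X₂, B₁, B₂` (addition in `Fin 2` is addition modulo two). -/
noncomputable def tau {b₁ b₂ : Type*} (σ₁ : Fin 2 → Matrix b₁ b₁ ℂ)
    (σ₂ : Fin 2 → Matrix b₂ b₂ ℂ) :
    Matrix (Fin 2 × (Fin 2 × (b₁ × b₂))) (Fin 2 × (Fin 2 × (b₁ × b₂))) ℂ :=
  ∑ x₁ : Fin 2, ∑ x₂ : Fin 2, (1 / 4 : ℂ) •
    (Matrix.single (x₁ + x₂) (x₁ + x₂) (1 : ℂ) ⊗ₖ
      (Matrix.single x₂ x₂ (1 : ℂ) ⊗ₖ (σ₁ x₁ ⊗ₖ σ₂ x₂)))

/-- Partial trace over the middle one of three systems. -/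
noncomputable def traceMid {a c b : Type*} [Fintype c]
    (ρ : Matrix (a × (c × b)) (a × (c × b)) ℂ) : Matrix (a × b) (a × b) ℂ :=
  Matrix.of fun i j => ∑ x : c, ρ (i.1, (x, i.2)) (j.1, (x, j.2))

/-- `K_α = exp((1-α) H)`. -/
noncomputable def Kof (α H : ℝ) : ℝ := Real.exp ((1 - α) * H)

/-- The erasure-type expression `F_α` as a function of the two entropies. -/
noncomputable def Fbound (α H₁ H₂ : ℝ) : ℝ :=
  if α = 1 then Real.log 2 - (Real.log 2 - H₁) * (Real.log 2 - H₂) / Real.log 2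
  else 1 / (1 - α) * Real.log (((2 : ℝ) ^ (1 - α) - Kof α H₁) * ((2 : ℝ) ^ (1 - α) - Kof α H₂) /
    (1 - (2 : ℝ) ^ (1 - α)) + (2 : ℝ) ^ (1 - α))

/-- `H_α^↓(X₁+X₂ | B₁B₂)_τ`. -/
noncomputable def Hsum {b₁ b₂ : Type*} [Fintype b₁] [DecidableEq b₁] [Fintype b₂]
    [DecidableEq b₂] (α : ℝ) (σ₁ : Fin 2 → Matrix b₁ b₁ ℂ) (σ₂ : Fin 2 → Matrix b₂ b₂ ℂ) : ℝ :=
  condH α (traceMid (tau σ₁ σ₂))

/-- `F_α` of the two states. -/
noncomputable def Fval {b₁ b₂ : Type*} [Fintype b₁] [DecidableEq b₁] [Fintype b₂]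
    [DecidableEq b₂] (α : ℝ) (σ₁ : Fin 2 → Matrix b₁ b₁ ℂ) (σ₂ : Fin 2 → Matrix b₂ b₂ ℂ) : ℝ :=
  Fbound α (condH α (cqState σ₁)) (condH α (cqState σ₂))

end Pool.Agent.Lib_helper98.Renyi
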