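import Mathlib
import Pool.Agent.Lib_helper98.RenyiDefs

/-!
# Functional calculus of matrices: polynomial trick, unitary conjugation, blocks, Kronecker products
-/

set_option autoImplicit false

open scoped Kronecker ComplexOrder

namespace Pool.Agent.Lib_helper98.Renyi

open Matrix Polynomial

section general

variable {n : Type*} [Fintype n] [DecidableEq n]

theorem exists_poly_eq (s : Finset ℝ) (f : ℝ → ℝ) : ∃ p : ℝ[X], ∀ x ∈ s, p.eval x = f x := by
  classical
  refine ⟨Lagrange.interpolate s id f, fun x hx => ?_⟩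
  simpa using Lagrange.eval_interpolate_at_node (s := s) (v := id) f (fun a _ b _ h => h) hx

theorem spectrum_finite (A : Matrix n n ℂ) : (spectrum ℝ A).Finite := by
  exact Matrix.finite_real_spectrum

theorem cfc_eq_aeval {A : Matrix n n ℂ} (hA : A.IsHermitian) (f : ℝ → ℝ) (p : ℝ[X])
    (h : ∀ x ∈ spectrum ℝ A, p.eval x = f x) : cfc f A = aeval A p := by
  rw [← cfc_polynomial p A hA]
  exact cfc_congr fun x hx => (h x hx).symm

/-- Every function agrees with a polynomial on the spectra of finitely many matrices and on a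
finite set. -/
theorem exists_poly_spectra {ι : Type*} (s : Finset ι) (A : ι → Matrix n n ℂ) (t : Finset ℝ)
    (f : ℝ → ℝ) : ∃ p : ℝ[X], (∀ i ∈ s, ∀ x ∈ spectrum ℝ (A i), p.eval x = f x) ∧
      ∀ x ∈ t, p.eval x = f x := by
  classical
  obtain ⟨p, hp⟩ := exists_poly_eq
    ((s.biUnion fun i => (spectrum_finite (A i)).toFinset) ∪ t) f
  refine ⟨p, fun i hi x hx => hp x ?_, fun x hx => hp x ?_⟩
  · refine Finset.mem_union_left _ (Finset.mem_biUnion.2 ⟨i, hi, ?_⟩)
    simpa using hx
  · exact Finset.mem_union_right _ hx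

theorem aeval_diagonal_ofReal (c : n → ℝ) (p : ℝ[X]) :
    aeval (diagonal (fun i => (c i : ℂ)) : Matrix n n ℂ) p =
      diagonal (fun i => ((p.eval (c i) : ℝ) : ℂ)) := by
  have h1 : (diagonal (fun i => (c i : ℂ)) : Matrix n n ℂ) =
      Matrix.diagonalAlgHom (n := n) (α := ℂ) ℝ (fun i => (c i : ℂ)) := rfl
  rw [h1, Polynomial.aeval_algHom_apply]
  change diagonal _ = _
  congr 1
  funext i
  have h2 := Polynomial.aeval_algHom_apply (Pi.evalAlgHom ℝ (fun _ : n => ℂ) i)
    (fun i => (c i : ℂ)) p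
  simp only [Pi.evalAlgHom_apply] at h2
  rw [← h2]
  have h3 := Polynomial.aeval_algebraMap_apply ℂ (c i) p
  simpa using h3

/-- Conjugation by a unitary as an algebra homomorphism. -/
noncomputable def conjHom (W : Matrix n n ℂ) (hW : Wᴴ * W = 1) :
    Matrix n n ℂ →ₐ[ℝ] Matrix n n ℂ where
  toFun M := W * M * Wᴴ
  map_one' := by
    have : W * Wᴴ = 1 := by
      rw [mul_eq_one_comm]; exact hW
    simp [this]
  map_mul' M N := by
    have : W * (M * N) * Wᴴ = W * M * (Wᴴ * W) * N * Wᴴ := by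
      rw [hW]; simp [Matrix.mul_assoc]
    rw [this]
    simp [Matrix.mul_assoc]
  map_zero' := by simp
  map_add' M N := by simp [Matrix.mul_add, Matrix.add_mul]
  commutes' r := by
    have h : W * Wᴴ = 1 := by
      rw [mul_eq_one_comm]; exact hW
    rw [Algebra.algebraMap_eq_smul_one, Matrix.mul_smul, Matrix.smul_mul, Matrix.mul_one, h]

theorem conjHom_apply (W : Matrix n n ℂ) (hW : Wᴴ * W = 1) (M : Matrix n n ℂ) :
    conjHom W hW M = W * M * Wᴴ := rfl

theorem conj_diagonal_isHermitian (W : Matrix n n ℂ) (c : n → ℝ) :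
    (W * diagonal (fun i => (c i : ℂ)) * Wᴴ).IsHermitian := by
  have : (diagonal (fun i => (c i : ℂ)) : Matrix n n ℂ).IsHermitian := by
    rw [Matrix.IsHermitian, diagonal_conjTranspose]
    congr 1
    funext i
    simp
  exact isHermitian_mul_mul_conjTranspose W this

/-- Functional calculus of a unitarily diagonalised matrix. -/
theorem cfc_conj_diagonal (f : ℝ → ℝ) (W : Matrix n n ℂ) (hW : Wᴴ * W = 1) (c : n → ℝ) :
    cfc f (W * diagonal (fun i => (c i : ℂ)) * Wᴴ) =
      W * diagonal (fun i => (f (c i) : ℂ)) * Wᴴ := by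
  classical
  obtain ⟨p, hp1, hp2⟩ := exists_poly_spectra (Finset.univ : Finset Unit)
    (fun _ => W * diagonal (fun i => (c i : ℂ)) * Wᴴ) (Finset.univ.image c) f
  rw [cfc_eq_aeval (conj_diagonal_isHermitian W c) f p (hp1 () (Finset.mem_univ _)),
    ← conjHom_apply W hW, Polynomial.aeval_algHom_apply, conjHom_apply, aeval_diagonal_ofReal]
  congr 3
  funext i
  rw [hp2 (c i) (Finset.mem_image_of_mem _ (Finset.mem_univ i))]

/-- Spectral decomposition in the form used here. -/
theorem exists_spectral {A : Matrix n n ℂ} (hA : A.IsHermitian) :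
    ∃ (U : Matrix n n ℂ) (c : n → ℝ), Uᴴ * U = 1 ∧ U * Uᴴ = 1 ∧
      A = U * diagonal (fun i => (c i : ℂ)) * Uᴴ := by
  refine ⟨hA.eigenvectorUnitary, hA.eigenvalues, ?_, ?_, ?_⟩
  · have := (Matrix.mem_unitaryGroup_iff' (A := (hA.eigenvectorUnitary : Matrix n n ℂ))).1
      hA.eigenvectorUnitary.2
    simpa [star_eq_conjTranspose] using this
  · have := (Matrix.mem_unitaryGroup_iff (A := (hA.eigenvectorUnitary : Matrix n n ℂ))).1
      hA.eigenvectorUnitary.2
    simpa [star_eq_conjTranspose] using this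
  · have := hA.spectral_theorem
    rw [Unitary.conjStarAlgAut_apply] at this
    exact this

theorem exists_spectral_nonneg {A : Matrix n n ℂ} (hA : A.PosSemidef) :
    ∃ (U : Matrix n n ℂ) (c : n → ℝ), Uᴴ * U = 1 ∧ U * Uᴴ = 1 ∧ (∀ i, 0 ≤ c i) ∧
      A = U * diagonal (fun i => (c i : ℂ)) * Uᴴ := by
  refine ⟨hA.1.eigenvectorUnitary, hA.1.eigenvalues, ?_, ?_, hA.eigenvalues_nonneg, ?_⟩
  · have := (Matrix.mem_unitaryGroup_iff' (A := (hA.1.eigenvectorUnitary : Matrix n n ℂ))).1
      hA.1.eigenvectorUnitary.2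
    simpa [star_eq_conjTranspose] using this
  · have := (Matrix.mem_unitaryGroup_iff (A := (hA.1.eigenvectorUnitary : Matrix n n ℂ))).1
      hA.1.eigenvectorUnitary.2
    simpa [star_eq_conjTranspose] using this
  · have := hA.1.spectral_theorem
    rw [Unitary.conjStarAlgAut_apply] at this
    exact this

end general

end Pool.Agent.Lib_helper98.Renyi
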