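import Mathlib
import Pool.Agent.Lib_helper98.RenyiCfc

/-!
# Powers of positive semidefinite matrices on the support
-/

set_option autoImplicit false

open scoped Kronecker ComplexOrder

namespace Pool.Agent.Lib_helper98.Renyi

open Matrix Polynomial

theorem supPow_zero_right (s : ℝ) : supPow s 0 = 0 := by simp [supPow]

theorem supPow_of_ne {s x : ℝ} (h : x ≠ 0) : supPow s x = x ^ s := by simp [supPow, h]

theorem supPow_nonneg {s x : ℝ} (h : 0 ≤ x) : 0 ≤ supPow s x := by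
  unfold supPow; split_ifs
  · exact le_rfl
  · exact Real.rpow_nonneg h s

theorem supPow_of_pos_exp {s x : ℝ} (hs : s ≠ 0) : supPow s x = x ^ s := by
  unfold supPow; split_ifs with h
  · rw [h, Real.zero_rpow hs]
  · rfl

theorem supPow_mul {s x y : ℝ} (hx : 0 ≤ x) (hy : 0 ≤ y) :
    supPow s (x * y) = supPow s x * supPow s y := by
  unfold supPow
  by_cases h1 : x = 0
  · simp [h1]
  by_cases h2 : y = 0
  · simp [h2]
  rw [if_neg (mul_ne_zero h1 h2), if_neg h1, if_neg h2, Real.mul_rpow hx hy]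

theorem supPow_add {s t x : ℝ} (hx : 0 ≤ x) : supPow (s + t) x = supPow s x * supPow t x := by
  unfold supPow
  by_cases h1 : x = 0
  · simp [h1]
  · rw [if_neg h1, if_neg h1, if_neg h1, Real.rpow_add (lt_of_le_of_ne hx (Ne.symm h1))]

theorem supPow_supPow {s t x : ℝ} (hx : 0 ≤ x) : supPow t (supPow s x) = supPow (s * t) x := by
  unfold supPow
  by_cases h1 : x = 0
  · simp [h1]
  · have hx' : 0 < x := lt_of_le_of_ne hx (Ne.symm h1)
    rw [if_neg h1, if_neg h1, if_neg (Real.rpow_pos_of_pos hx' s).ne', Real.rpow_mul hx]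

theorem supPow_one (x : ℝ) : supPow 1 x = x := by
  unfold supPow; split_ifs with h
  · exact h.symm
  · exact Real.rpow_one x

theorem supPow_natCast {k : ℕ} (hk : k ≠ 0) (x : ℝ) : supPow (k : ℝ) x = x ^ k := by
  rw [supPow_of_pos_exp (by exact_mod_cast hk), Real.rpow_natCast]

section

variable {n : Type*} [Fintype n] [DecidableEq n]

theorem mpow_conj_diagonal (s : ℝ) (W : Matrix n n ℂ) (hW : Wᴴ * W = 1) (c : n → ℝ) :
    mpow (W * diagonal (fun i => (c i : ℂ)) * Wᴴ) s =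
      W * diagonal (fun i => (supPow s (c i) : ℂ)) * Wᴴ :=
  cfc_conj_diagonal _ W hW c

theorem mpow_add {A : Matrix n n ℂ} (hA : A.PosSemidef) (s t : ℝ) :
    mpow A (s + t) = mpow A s * mpow A t := by
  obtain ⟨U, c, hU, -, hc, rfl⟩ := exists_spectral_nonneg hA
  rw [mpow_conj_diagonal _ U hU, mpow_conj_diagonal _ U hU, mpow_conj_diagonal _ U hU]
  have : U * diagonal (fun i => (supPow s (c i) : ℂ)) * Uᴴ *
      (U * diagonal (fun i => (supPow t (c i) : ℂ)) * Uᴴ) =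
      U * (diagonal (fun i => (supPow s (c i) : ℂ)) * (Uᴴ * U) *
        diagonal (fun i => (supPow t (c i) : ℂ))) * Uᴴ := by
    simp only [Matrix.mul_assoc]
  rw [this, hU, Matrix.mul_one, diagonal_mul_diagonal]
  congr 3
  funext i
  rw [supPow_add (hc i)]
  push_cast
  rfl

theorem mpow_one {A : Matrix n n ℂ} (hA : A.PosSemidef) : mpow A 1 = A := by
  obtain ⟨U, c, hU, -, hc, rfl⟩ := exists_spectral_nonneg hA
  rw [mpow_conj_diagonal _ U hU]
  simp only [supPow_one]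

theorem mpow_mpow {A : Matrix n n ℂ} (hA : A.PosSemidef) (s t : ℝ) :
    mpow (mpow A s) t = mpow A (s * t) := by
  obtain ⟨U, c, hU, -, hc, rfl⟩ := exists_spectral_nonneg hA
  rw [mpow_conj_diagonal _ U hU, mpow_conj_diagonal _ U hU, mpow_conj_diagonal _ U hU]
  congr 3
  funext i
  rw [supPow_supPow (hc i)]

theorem mpow_natCast {A : Matrix n n ℂ} (hA : A.PosSemidef) {k : ℕ} (hk : k ≠ 0) :
    mpow A (k : ℝ) = A ^ k := by
  obtain ⟨U, c, hU, -, hc, rfl⟩ := exists_spectral_nonneg hA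
  rw [mpow_conj_diagonal _ U hU, ← conjHom_apply U hU, ← conjHom_apply U hU, ← map_pow,
    diagonal_pow]
  congr 2
  funext i
  rw [supPow_natCast hk]
  simp

theorem posSemidef_conj_diagonal (W : Matrix n n ℂ) {c : n → ℝ} (hc : ∀ i, 0 ≤ c i) :
    (W * diagonal (fun i => (c i : ℂ)) * Wᴴ).PosSemidef := by
  refine PosSemidef.mul_mul_conjTranspose_same (PosSemidef.diagonal fun i => ?_) W
  have h : (0 : ℂ) ≤ (c i : ℂ) := by exact_mod_cast hc i
  simpa using h

theorem mpow_posSemidef {A : Matrix n n ℂ} (hA : A.PosSemidef) (s : ℝ) :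
    (mpow A s).PosSemidef := by
  obtain ⟨U, c, hU, -, hc, rfl⟩ := exists_spectral_nonneg hA
  rw [mpow_conj_diagonal _ U hU]
  exact posSemidef_conj_diagonal U fun i => supPow_nonneg (hc i)

theorem mpow_smul {A : Matrix n n ℂ} (hA : A.PosSemidef) {r : ℝ} (hr : 0 < r) (s : ℝ) :
    mpow ((r : ℂ) • A) s = ((r ^ s : ℝ) : ℂ) • mpow A s := by
  obtain ⟨U, c, hU, -, hc, rfl⟩ := exists_spectral_nonneg hA
  have h1 : (r : ℂ) • (U * diagonal (fun i => (c i : ℂ)) * Uᴴ) =
      U * diagonal (fun i => ((r * c i : ℝ) : ℂ)) * Uᴴ := by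
    rw [← Matrix.smul_mul, ← Matrix.mul_smul, ← diagonal_smul]
    congr 3
    funext i
    simp
  rw [h1, mpow_conj_diagonal _ U hU, mpow_conj_diagonal _ U hU, ← Matrix.smul_mul,
    ← Matrix.mul_smul, ← diagonal_smul]
  congr 3
  funext i
  rw [supPow_mul hr.le (hc i), supPow_of_ne hr.ne']
  simp

/-- A real trace power. -/
noncomputable def trPow (α : ℝ) (M : Matrix n n ℂ) : ℝ := (trace (mpow M α)).re

theorem trPow_nonneg {A : Matrix n n ℂ} (hA : A.PosSemidef) (s : ℝ) : 0 ≤ trPow s A := by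
  have := (mpow_posSemidef hA s).trace_nonneg
  exact (Complex.le_def.1 this).1

theorem trace_conj (W D : Matrix n n ℂ) (hW : Wᴴ * W = 1) :
    trace (W * D * Wᴴ) = trace D := by
  rw [Matrix.mul_assoc, trace_mul_comm, Matrix.mul_assoc, hW, Matrix.mul_one]

theorem trPow_conj_diagonal (s : ℝ) (W : Matrix n n ℂ) (hW : Wᴴ * W = 1) (c : n → ℝ) :
    trPow s (W * diagonal (fun i => (c i : ℂ)) * Wᴴ) = ∑ i, supPow s (c i) := by
  rw [trPow, mpow_conj_diagonal _ W hW, trace_conj _ _ hW, trace_diagonal]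
  simp

theorem trPow_pos {A : Matrix n n ℂ} (hA : A.PosSemidef) (h0 : A ≠ 0) (s : ℝ) :
    0 < trPow s A := by
  obtain ⟨U, c, hU, -, hc, rfl⟩ := exists_spectral_nonneg hA
  rw [trPow_conj_diagonal _ U hU]
  have hne : ∃ i, c i ≠ 0 := by
    by_contra h
    push Not at h
    apply h0
    have : (fun i => (c i : ℂ)) = fun _ => 0 := by
      funext i; rw [h i]; simp
    rw [this]
    simp
  obtain ⟨i, hi⟩ := hne
  refine Finset.sum_pos' (fun j _ => supPow_nonneg (hc j)) ⟨i, Finset.mem_univ i, ?_⟩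
  rw [supPow_of_ne hi]
  exact Real.rpow_pos_of_pos (lt_of_le_of_ne (hc i) (Ne.symm hi)) s

theorem trPow_zero (s : ℝ) : trPow s (0 : Matrix n n ℂ) = 0 := by
  have h := trPow_conj_diagonal s (1 : Matrix n n ℂ) (by simp) (fun _ => 0)
  simpa [supPow_zero_right] using h

theorem trPow_smul {A : Matrix n n ℂ} (hA : A.PosSemidef) {r : ℝ} (hr : 0 < r) (s : ℝ) :
    trPow s ((r : ℂ) • A) = r ^ s * trPow s A := by
  rw [trPow, mpow_smul hA hr, trace_smul, trPow]
  simp

end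

section kron

variable {n m : Type*} [Fintype n] [DecidableEq n] [Fintype m] [DecidableEq m]

theorem kron_conj (U : Matrix n n ℂ) (V : Matrix m m ℂ) (c : n → ℝ) (d : m → ℝ) :
    (U * diagonal (fun i => (c i : ℂ)) * Uᴴ) ⊗ₖ (V * diagonal (fun i => (d i : ℂ)) * Vᴴ) =
      (U ⊗ₖ V) * diagonal (fun p : n × m => ((c p.1 * d p.2 : ℝ) : ℂ)) * (U ⊗ₖ V)ᴴ := by
  rw [mul_kronecker_mul, mul_kronecker_mul, conjTranspose_kronecker, diagonal_kronecker_diagonal]
  congr 3
  funext p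
  push_cast
  rfl

theorem kron_unitary {U : Matrix n n ℂ} {V : Matrix m m ℂ} (hU : Uᴴ * U = 1)
    (hV : Vᴴ * V = 1) : (U ⊗ₖ V)ᴴ * (U ⊗ₖ V) = 1 := by
  rw [conjTranspose_kronecker, ← mul_kronecker_mul, hU, hV, one_kronecker_one]

theorem mpow_kronecker {A : Matrix n n ℂ} {B : Matrix m m ℂ} (hA : A.PosSemidef)
    (hB : B.PosSemidef) (s : ℝ) : mpow (A ⊗ₖ B) s = mpow A s ⊗ₖ mpow B s := by
  obtain ⟨U, c, hU, -, hc, rfl⟩ := exists_spectral_nonneg hA
  obtain ⟨V, d, hV, -, hd, rfl⟩ := exists_spectral_nonneg hB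
  rw [mpow_conj_diagonal _ U hU, mpow_conj_diagonal _ V hV, kron_conj, kron_conj,
    mpow_conj_diagonal _ _ (kron_unitary hU hV)]
  congr 3
  funext p
  rw [supPow_mul (hc p.1) (hd p.2)]

end kron

end Pool.Agent.Lib_helper98.Renyi
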