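import Mathlib
import Pool.Agent.Lib_helper98.RenyiPow

/-!
# Reduction of MP_859019_mp to the pair `(A, D)`
-/

set_option autoImplicit false
set_option linter.unusedSectionVars false
set_option linter.unusedSimpArgs false

open scoped Kronecker ComplexOrder

namespace Pool.Agent.Lib_helper98.Renyi

open Matrix Polynomial

section block

variable {b : Type*} [Fintype b] [DecidableEq b]

/-- Block diagonal matrix with two blocks. -/
def blk (M : Fin 2 → Matrix b b ℂ) : Matrix (Fin 2 × b) (Fin 2 × b) ℂ :=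
  Matrix.of fun i j => if i.1 = j.1 then M i.1 i.2 j.2 else 0

theorem blk_mul (M N : Fin 2 → Matrix b b ℂ) : blk (M * N) = blk M * blk N := by
  ext ⟨i, k⟩ ⟨j, l⟩
  simp only [blk, Matrix.of_apply, Matrix.mul_apply, Fintype.sum_prod_type, Pi.mul_apply]
  by_cases h : i = j
  · subst h
    rw [Finset.sum_eq_single i]
    · simp [Matrix.mul_apply]
    · intro x _ hx
      simp [Ne.symm hx]
    · simp
  · rw [if_neg h]
    symm
    refine Finset.sum_eq_zero fun x _ => Finset.sum_eq_zero fun y _ => ?_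
    by_cases h1 : i = x
    · subst h1
      simp [h]
    · simp [h1]

theorem blk_one : blk (1 : Fin 2 → Matrix b b ℂ) = 1 := by
  ext ⟨i, k⟩ ⟨j, l⟩
  simp only [blk, Matrix.of_apply, Pi.one_apply, Matrix.one_apply, Prod.mk.injEq]
  by_cases h : i = j <;> simp [h]

/-- The block diagonal embedding as an algebra homomorphism. -/
def blkHom : (Fin 2 → Matrix b b ℂ) →ₐ[ℝ] Matrix (Fin 2 × b) (Fin 2 × b) ℂ where
  toFun := blk
  map_one' := blk_one
  map_mul' := blk_mul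
  map_zero' := by
    ext i j
    simp [blk]
  map_add' M N := by
    ext i j
    simp only [blk, Matrix.of_apply, Pi.add_apply, Matrix.add_apply]
    split_ifs <;> simp
  commutes' r := by
    ext ⟨i, k⟩ ⟨j, l⟩
    simp only [blk, Matrix.of_apply, Algebra.algebraMap_eq_smul_one, Pi.smul_apply, Pi.one_apply,
      Matrix.smul_apply, Matrix.one_apply, Prod.mk.injEq]
    by_cases h : i = j <;> simp [h]

theorem blkHom_apply (M : Fin 2 → Matrix b b ℂ) : blkHom M = blk M := rfl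

theorem blk_isHermitian {M : Fin 2 → Matrix b b ℂ} (h : ∀ x, (M x).IsHermitian) :
    (blk M).IsHermitian := by
  ext ⟨i, k⟩ ⟨j, l⟩
  simp only [Matrix.conjTranspose_apply, blk, Matrix.of_apply]
  by_cases h1 : i = j
  · subst h1
    simp only [if_true]
    exact (h i).apply k l
  · simp [h1, Ne.symm h1]

theorem cfc_blk (f : ℝ → ℝ) {M : Fin 2 → Matrix b b ℂ} (h : ∀ x, (M x).IsHermitian) :
    cfc f (blk M) = blk fun x => cfc f (M x) := by
  classical
  obtain ⟨p, hp, hp'⟩ := exists_poly_spectra (Finset.univ : Finset (Fin 2)) M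
    ((spectrum_finite (blk M)).toFinset) f
  rw [cfc_eq_aeval (blk_isHermitian h) f p fun x hx => hp' x (by simpa using hx), ← blkHom_apply,
    Polynomial.aeval_algHom_apply, blkHom_apply]
  congr 1
  funext x
  rw [cfc_eq_aeval (h x) f p (hp x (Finset.mem_univ x))]
  have h2 := Polynomial.aeval_algHom_apply
    (Pi.evalAlgHom ℝ (fun _ : Fin 2 => Matrix b b ℂ) x) M p
  simpa using h2.symm

theorem trace_blk (M : Fin 2 → Matrix b b ℂ) : trace (blk M) = ∑ x, trace (M x) := by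
  simp [trace, blk, Fintype.sum_prod_type]

theorem one_kron_eq_blk (P : Matrix b b ℂ) :
    (1 : Matrix (Fin 2) (Fin 2) ℂ) ⊗ₖ P = blk fun _ => P := by
  ext ⟨i, k⟩ ⟨j, l⟩
  simp [blk, Matrix.one_apply]

theorem cqState_eq_blk (σ : Fin 2 → Matrix b b ℂ) :
    cqState σ = blk fun x => (1 / 2 : ℂ) • σ x := by
  ext ⟨i, k⟩ ⟨j, l⟩
  simp only [cqState, blk, Matrix.of_apply, Matrix.sum_apply, Matrix.smul_apply,
    kronecker_apply, Matrix.single_apply, Fin.sum_univ_two]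
  fin_cases i <;> fin_cases j <;> simp

end block

section states

variable {b : Type*} [Fintype b] [DecidableEq b]

/-- The average `ρ_B = (σ₀ + σ₁)/2`. -/
noncomputable def rhoOf (σ : Fin 2 → Matrix b b ℂ) : Matrix b b ℂ := (1 / 2 : ℂ) • (σ 0 + σ 1)

/-- The half difference `Δ = (σ₀ - σ₁)/2`. -/
noncomputable def delOf (σ : Fin 2 → Matrix b b ℂ) : Matrix b b ℂ := (1 / 2 : ℂ) • (σ 0 - σ 1)

/-- `A = ρ^(1/α)`. -/
noncomputable def Aop (α : ℝ) (σ : Fin 2 → Matrix b b ℂ) : Matrix b b ℂ :=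
  mpow (rhoOf σ) (1 / α)

/-- `D = ρ^γ Δ ρ^γ`. -/
noncomputable def Dop (α : ℝ) (σ : Fin 2 → Matrix b b ℂ) : Matrix b b ℂ :=
  mpow (rhoOf σ) ((1 - α) / (2 * α)) * delOf σ * mpow (rhoOf σ) ((1 - α) / (2 * α))

theorem margB_cqState (σ : Fin 2 → Matrix b b ℂ) : margB (cqState σ) = rhoOf σ := by
  ext k l
  rw [cqState_eq_blk]
  simp [margB, blk, rhoOf]
  ring

theorem rho_add_del (σ : Fin 2 → Matrix b b ℂ) : rhoOf σ + delOf σ = σ 0 := by
  ext k l
  simp [rhoOf, delOf]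
  ring

theorem rho_sub_del (σ : Fin 2 → Matrix b b ℂ) : rhoOf σ - delOf σ = σ 1 := by
  ext k l
  simp [rhoOf, delOf]
  ring

theorem posSemidef_half_smul {M : Matrix b b ℂ} (hM : M.PosSemidef) :
    ((1 / 2 : ℂ) • M).PosSemidef := by
  have h : (0 : ℂ) ≤ 1 / 2 := by
    have : ((1 / 2 : ℝ) : ℂ) = 1 / 2 := by norm_num
    rw [← this]
    exact_mod_cast (by norm_num : (0 : ℝ) ≤ 1 / 2)
  exact hM.smul h

theorem rhoOf_posSemidef {σ : Fin 2 → Matrix b b ℂ} (h : ∀ x, IsDensity (σ x)) :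
    (rhoOf σ).PosSemidef :=
  posSemidef_half_smul ((h 0).1.add (h 1).1)

theorem rhoOf_trace {σ : Fin 2 → Matrix b b ℂ} (h : ∀ x, IsDensity (σ x)) :
    (rhoOf σ).trace = 1 := by
  rw [rhoOf, trace_smul, trace_add, (h 0).2, (h 1).2]
  norm_num

theorem mpow_isHermitian {A : Matrix b b ℂ} (hA : A.PosSemidef) (s : ℝ) :
    (mpow A s)ᴴ = mpow A s := (mpow_posSemidef hA s).1

theorem sandwich_posSemidef {A M : Matrix b b ℂ} (hA : A.PosSemidef) (hM : M.PosSemidef)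
    (s : ℝ) : (mpow A s * M * mpow A s).PosSemidef := by
  have := hM.mul_mul_conjTranspose_same (mpow A s)
  rwa [mpow_isHermitian hA] at this

theorem sandwich_rho {σ : Fin 2 → Matrix b b ℂ} (h : ∀ x, IsDensity (σ x)) {α : ℝ}
    (hα : 0 < α) :
    mpow (rhoOf σ) ((1 - α) / (2 * α)) * rhoOf σ * mpow (rhoOf σ) ((1 - α) / (2 * α)) =
      Aop α σ := by
  have hρ := rhoOf_posSemidef h
  have h1 : mpow (rhoOf σ) ((1 - α) / (2 * α)) * rhoOf σ *
      mpow (rhoOf σ) ((1 - α) / (2 * α)) =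
      mpow (rhoOf σ) ((1 - α) / (2 * α)) * mpow (rhoOf σ) 1 *
      mpow (rhoOf σ) ((1 - α) / (2 * α)) := by rw [mpow_one hρ]
  rw [h1, ← mpow_add hρ, ← mpow_add hρ, Aop]
  congr 1
  field_simp
  ring

theorem A_add_D {σ : Fin 2 → Matrix b b ℂ} (h : ∀ x, IsDensity (σ x)) {α : ℝ} (hα : 0 < α) :
    Aop α σ + Dop α σ =
      mpow (rhoOf σ) ((1 - α) / (2 * α)) * σ 0 * mpow (rhoOf σ) ((1 - α) / (2 * α)) := by
  rw [← sandwich_rho h hα, Dop, ← Matrix.add_mul, ← Matrix.mul_add, rho_add_del]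

theorem A_sub_D {σ : Fin 2 → Matrix b b ℂ} (h : ∀ x, IsDensity (σ x)) {α : ℝ} (hα : 0 < α) :
    Aop α σ - Dop α σ =
      mpow (rhoOf σ) ((1 - α) / (2 * α)) * σ 1 * mpow (rhoOf σ) ((1 - α) / (2 * α)) := by
  rw [← sandwich_rho h hα, Dop, ← Matrix.sub_mul, ← Matrix.mul_sub, rho_sub_del]

theorem A_add_D_posSemidef {σ : Fin 2 → Matrix b b ℂ} (h : ∀ x, IsDensity (σ x)) {α : ℝ}
    (hα : 0 < α) : (Aop α σ + Dop α σ).PosSemidef := by
  rw [A_add_D h hα]
  exact sandwich_posSemidef (rhoOf_posSemidef h) (h 0).1 _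

theorem A_sub_D_posSemidef {σ : Fin 2 → Matrix b b ℂ} (h : ∀ x, IsDensity (σ x)) {α : ℝ}
    (hα : 0 < α) : (Aop α σ - Dop α σ).PosSemidef := by
  rw [A_sub_D h hα]
  exact sandwich_posSemidef (rhoOf_posSemidef h) (h 1).1 _

theorem Aop_posSemidef {σ : Fin 2 → Matrix b b ℂ} (h : ∀ x, IsDensity (σ x)) (α : ℝ) :
    (Aop α σ).PosSemidef := mpow_posSemidef (rhoOf_posSemidef h) _

theorem Dop_isHermitian {σ : Fin 2 → Matrix b b ℂ} (h : ∀ x, IsDensity (σ x)) (α : ℝ) :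
    (Dop α σ).IsHermitian := by
  have hd : (delOf σ).IsHermitian := by
    have h0 := (h 0).1.1
    have h1 := (h 1).1.1
    rw [Matrix.IsHermitian, delOf, conjTranspose_smul, conjTranspose_sub, h0.eq, h1.eq]
    congr 1
    simp
  have := isHermitian_mul_mul_conjTranspose (mpow (rhoOf σ) ((1 - α) / (2 * α))) hd
  rwa [mpow_isHermitian (rhoOf_posSemidef h)] at this

theorem trPow_Aop {σ : Fin 2 → Matrix b b ℂ} (h : ∀ x, IsDensity (σ x)) {α : ℝ}
    (hα : 0 < α) : trPow α (Aop α σ) = 1 := by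
  rw [trPow, Aop, mpow_mpow (rhoOf_posSemidef h), one_div_mul_cancel hα.ne',
    mpow_one (rhoOf_posSemidef h), rhoOf_trace h]
  simp

/-- The sandwiched trace of a classical-quantum state in terms of `(A, D)`. -/
theorem sandwichedTrace_cqState {σ : Fin 2 → Matrix b b ℂ} (h : ∀ x, IsDensity (σ x)) {α : ℝ}
    (hα : 0 < α) :
    sandwichedTrace α (cqState σ) =
      (1 / 2) ^ α * (trPow α (Aop α σ + Dop α σ) + trPow α (Aop α σ - Dop α σ)) := by
  have hP := A_add_D_posSemidef h hα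
  have hM := A_sub_D_posSemidef h hα
  have hx : ∀ x, (mpow (rhoOf σ) ((1 - α) / (2 * α)) * ((1 / 2 : ℂ) • σ x) *
      mpow (rhoOf σ) ((1 - α) / (2 * α))).IsHermitian := fun x =>
    (sandwich_posSemidef (rhoOf_posSemidef h) (posSemidef_half_smul (h x).1) _).1
  have e0 : mpow (rhoOf σ) ((1 - α) / (2 * α)) * ((1 / 2 : ℂ) • σ 0) *
      mpow (rhoOf σ) ((1 - α) / (2 * α)) = ((1 / 2 : ℝ) : ℂ) • (Aop α σ + Dop α σ) := by
    rw [A_add_D h hα, Matrix.mul_smul, Matrix.smul_mul]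
    norm_num
  have e1 : mpow (rhoOf σ) ((1 - α) / (2 * α)) * ((1 / 2 : ℂ) • σ 1) *
      mpow (rhoOf σ) ((1 - α) / (2 * α)) = ((1 / 2 : ℝ) : ℂ) • (Aop α σ - Dop α σ) := by
    rw [A_sub_D h hα, Matrix.mul_smul, Matrix.smul_mul]
    norm_num
  have hb : ((1 : Matrix (Fin 2) (Fin 2) ℂ) ⊗ₖ mpow (margB (cqState σ)) ((1 - α) / (2 * α))) *
      cqState σ * ((1 : Matrix (Fin 2) (Fin 2) ℂ) ⊗ₖ
        mpow (margB (cqState σ)) ((1 - α) / (2 * α))) =
      blk fun x => mpow (rhoOf σ) ((1 - α) / (2 * α)) * ((1 / 2 : ℂ) • σ x) *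
        mpow (rhoOf σ) ((1 - α) / (2 * α)) := by
    rw [margB_cqState, one_kron_eq_blk, cqState_eq_blk, ← blk_mul, ← blk_mul]
    rfl
  have hc : mpow (blk fun x => mpow (rhoOf σ) ((1 - α) / (2 * α)) * ((1 / 2 : ℂ) • σ x) *
        mpow (rhoOf σ) ((1 - α) / (2 * α))) α =
      blk fun x => mpow (mpow (rhoOf σ) ((1 - α) / (2 * α)) * ((1 / 2 : ℂ) • σ x) *
        mpow (rhoOf σ) ((1 - α) / (2 * α))) α := cfc_blk _ hx
  rw [sandwichedTrace, hb, hc, trace_blk, Fin.sum_univ_two, e0, e1, Complex.add_re]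
  have f0 := trPow_smul hP (r := 1 / 2) (by norm_num) α
  have f1 := trPow_smul hM (r := 1 / 2) (by norm_num) α
  rw [trPow] at f0 f1
  rw [f0, f1]
  ring

end states

end Pool.Agent.Lib_helper98.Renyi
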