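import Mathlib
import Pool.Agent.Lib_helper98.RenyiRed

/-!
# The state `τ` and the final reduction
-/

set_option autoImplicit false
set_option linter.unusedSectionVars false
set_option linter.unusedSimpArgs false

open scoped Kronecker ComplexOrder

namespace Pool.Agent.Lib_helper98.Renyi

open Matrix Polynomial

section tau

variable {b₁ b₂ : Type*} [Fintype b₁] [DecidableEq b₁] [Fintype b₂] [DecidableEq b₂]

/-- The conditional states of `B₁B₂` given `X₁+X₂ = z`. -/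
noncomputable def sumState (σ₁ : Fin 2 → Matrix b₁ b₁ ℂ) (σ₂ : Fin 2 → Matrix b₂ b₂ ℂ) :
    Fin 2 → Matrix (b₁ × b₂) (b₁ × b₂) ℂ :=
  fun z => (1 / 2 : ℂ) • (σ₁ z ⊗ₖ σ₂ 0 + σ₁ (z + 1) ⊗ₖ σ₂ 1)

theorem traceMid_tau (σ₁ : Fin 2 → Matrix b₁ b₁ ℂ) (σ₂ : Fin 2 → Matrix b₂ b₂ ℂ) :
    traceMid (tau σ₁ σ₂) = cqState (sumState σ₁ σ₂) := by
  ext ⟨i, k⟩ ⟨j, l⟩
  rw [cqState_eq_blk]
  simp only [traceMid, tau, blk, sumState, Matrix.of_apply, Matrix.sum_apply, Matrix.smul_apply,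
    kronecker_apply, Matrix.single_apply, Fin.sum_univ_two, Matrix.add_apply, smul_eq_mul]
  fin_cases i <;> fin_cases j <;> simp <;> ring

theorem isDensity_half_add {n : Type*} [Fintype n] [DecidableEq n] {M N : Matrix n n ℂ}
    (hM : IsDensity M) (hN : IsDensity N) : IsDensity ((1 / 2 : ℂ) • (M + N)) := by
  refine ⟨posSemidef_half_smul (hM.1.add hN.1), ?_⟩
  rw [trace_smul, trace_add, hM.2, hN.2]
  norm_num

theorem isDensity_kronecker {M : Matrix b₁ b₁ ℂ} {N : Matrix b₂ b₂ ℂ}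
    (hM : IsDensity M) (hN : IsDensity N) : IsDensity (M ⊗ₖ N) := by
  refine ⟨hM.1.kronecker hN.1, ?_⟩
  rw [trace_kronecker, hM.2, hN.2, mul_one]

theorem isDensity_sumState {σ₁ : Fin 2 → Matrix b₁ b₁ ℂ} {σ₂ : Fin 2 → Matrix b₂ b₂ ℂ}
    (h₁ : ∀ x, IsDensity (σ₁ x)) (h₂ : ∀ x, IsDensity (σ₂ x)) (z : Fin 2) :
    IsDensity (sumState σ₁ σ₂ z) :=
  isDensity_half_add (isDensity_kronecker (h₁ _) (h₂ _)) (isDensity_kronecker (h₁ _) (h₂ _))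

theorem rhoOf_sumState (σ₁ : Fin 2 → Matrix b₁ b₁ ℂ) (σ₂ : Fin 2 → Matrix b₂ b₂ ℂ) :
    rhoOf (sumState σ₁ σ₂) = rhoOf σ₁ ⊗ₖ rhoOf σ₂ := by
  ext ⟨i, k⟩ ⟨j, l⟩
  simp only [rhoOf, sumState, Matrix.smul_apply, Matrix.add_apply, kronecker_apply, smul_eq_mul]
  simp
  ring

theorem delOf_sumState (σ₁ : Fin 2 → Matrix b₁ b₁ ℂ) (σ₂ : Fin 2 → Matrix b₂ b₂ ℂ) :
    delOf (sumState σ₁ σ₂) = delOf σ₁ ⊗ₖ delOf σ₂ := by
  ext ⟨i, k⟩ ⟨j, l⟩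
  simp only [delOf, sumState, Matrix.smul_apply, Matrix.add_apply, Matrix.sub_apply,
    kronecker_apply, smul_eq_mul]
  simp
  ring

theorem Aop_sumState {σ₁ : Fin 2 → Matrix b₁ b₁ ℂ} {σ₂ : Fin 2 → Matrix b₂ b₂ ℂ}
    (h₁ : ∀ x, IsDensity (σ₁ x)) (h₂ : ∀ x, IsDensity (σ₂ x)) (α : ℝ) :
    Aop α (sumState σ₁ σ₂) = Aop α σ₁ ⊗ₖ Aop α σ₂ := by
  rw [Aop, rhoOf_sumState, mpow_kronecker (rhoOf_posSemidef h₁) (rhoOf_posSemidef h₂)]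
  rfl

theorem Dop_sumState {σ₁ : Fin 2 → Matrix b₁ b₁ ℂ} {σ₂ : Fin 2 → Matrix b₂ b₂ ℂ}
    (h₁ : ∀ x, IsDensity (σ₁ x)) (h₂ : ∀ x, IsDensity (σ₂ x)) (α : ℝ) :
    Dop α (sumState σ₁ σ₂) = Dop α σ₁ ⊗ₖ Dop α σ₂ := by
  rw [Dop, rhoOf_sumState, delOf_sumState,
    mpow_kronecker (rhoOf_posSemidef h₁) (rhoOf_posSemidef h₂), ← mul_kronecker_mul,
    ← mul_kronecker_mul]
  rfl

end tau

section G

variable {n : Type*} [Fintype n] [DecidableEq n]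

/-- `G_α(A,D) = (Tr (A+D)^α + Tr (A-D)^α)/2 - Tr A^α`. -/
noncomputable def Gfun (α : ℝ) (A D : Matrix n n ℂ) : ℝ :=
  (trPow α (A + D) + trPow α (A - D)) / 2 - trPow α A

/-- `Tr M log M`. -/
noncomputable def trEta (M : Matrix n n ℂ) : ℝ :=
  (trace (cfc (fun x : ℝ => x * Real.log x) M)).re

/-- The `α = 1` version of `Gfun`. -/
noncomputable def GfunOne (A D : Matrix n n ℂ) : ℝ :=
  (trEta (A + D) + trEta (A - D)) / 2 - trEta A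

theorem trEta_half {A : Matrix n n ℂ} (hA : A.PosSemidef) :
    trEta ((1 / 2 : ℂ) • A) = trEta A / 2 - Real.log 2 / 2 * (trace A).re := by
  obtain ⟨U, c, hU, -, hc, rfl⟩ := exists_spectral_nonneg hA
  have h1 : (1 / 2 : ℂ) • (U * diagonal (fun i => (c i : ℂ)) * Uᴴ) =
      U * diagonal (fun i => ((1 / 2 * c i : ℝ) : ℂ)) * Uᴴ := by
    rw [← Matrix.smul_mul, ← Matrix.mul_smul, ← diagonal_smul]
    congr 3
    funext i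
    simp
  rw [h1, trEta, trEta, cfc_conj_diagonal _ U hU, cfc_conj_diagonal _ U hU, trace_conj _ _ hU,
    trace_conj _ _ hU, trace_conj _ _ hU, trace_diagonal, trace_diagonal, trace_diagonal]
  have e1 : ∀ g : n → ℝ, (∑ i, ((g i : ℝ) : ℂ)).re = ∑ i, g i := fun g => by
    rw [← Complex.ofReal_sum, Complex.ofReal_re]
  rw [e1, e1, e1, Finset.sum_div, Finset.mul_sum, ← Finset.sum_sub_distrib]
  refine Finset.sum_congr rfl fun i _ => ?_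
  by_cases h0 : c i = 0
  · simp [h0]
  · rw [Real.log_mul (by norm_num) h0, one_div, Real.log_inv]
    ring

end G

section final

variable {b : Type*} [Fintype b] [DecidableEq b]

theorem half_rpow {α : ℝ} : ((1 : ℝ) / 2) ^ α = 2 ^ (1 - α) / 2 := by
  rw [Real.rpow_sub (by norm_num), Real.rpow_one, one_div, Real.inv_rpow (by norm_num)]
  ring

theorem sandwichedTrace_eq {σ : Fin 2 → Matrix b b ℂ} (h : ∀ x, IsDensity (σ x)) {α : ℝ}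
    (hα : 0 < α) :
    sandwichedTrace α (cqState σ) = 2 ^ (1 - α) * (1 + Gfun α (Aop α σ) (Dop α σ)) := by
  rw [sandwichedTrace_cqState h hα, Gfun, trPow_Aop h hα, half_rpow]
  ring

theorem sandwichedTrace_pos {σ : Fin 2 → Matrix b b ℂ} (h : ∀ x, IsDensity (σ x)) {α : ℝ}
    (hα : 0 < α) : 0 < sandwichedTrace α (cqState σ) := by
  rw [sandwichedTrace_cqState h hα]
  have hP := A_add_D_posSemidef h hα
  have hM := A_sub_D_posSemidef h hα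
  have hA : Aop α σ ≠ 0 := by
    intro h0
    have := trPow_Aop h hα
    rw [h0, trPow_zero] at this
    exact zero_ne_one this
  have hne : Aop α σ + Dop α σ ≠ 0 ∨ Aop α σ - Dop α σ ≠ 0 := by
    by_contra hcon
    push Not at hcon
    apply hA
    have h2 : (2 : ℂ) • Aop α σ = (Aop α σ + Dop α σ) + (Aop α σ - Dop α σ) := by
      rw [two_smul]; abel
    rw [hcon.1, hcon.2, add_zero] at h2
    exact (smul_eq_zero.1 h2).resolve_left two_ne_zero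
  refine mul_pos (Real.rpow_pos_of_pos (by norm_num) _) ?_
  rcases hne with h1 | h1
  · exact add_pos_of_pos_of_nonneg (trPow_pos hP h1 α) (trPow_nonneg hM α)
  · exact add_pos_of_nonneg_of_pos (trPow_nonneg hP α) (trPow_pos hM h1 α)

theorem one_add_Gfun_pos {σ : Fin 2 → Matrix b b ℂ} (h : ∀ x, IsDensity (σ x)) {α : ℝ}
    (hα : 0 < α) : 0 < 1 + Gfun α (Aop α σ) (Dop α σ) := by
  have := sandwichedTrace_pos h hα
  rw [sandwichedTrace_eq h hα] at this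
  exact (mul_pos_iff_of_pos_left (Real.rpow_pos_of_pos (by norm_num) _)).1 this

theorem Kof_condH {σ : Fin 2 → Matrix b b ℂ} (h : ∀ x, IsDensity (σ x)) {α : ℝ}
    (hα : 0 < α) (h1 : α ≠ 1) :
    Kof α (condH α (cqState σ)) = 2 ^ (1 - α) * (1 + Gfun α (Aop α σ) (Dop α σ)) := by
  rw [Kof, condH, if_neg h1, ← sandwichedTrace_eq h hα]
  have h2 : 1 - α ≠ 0 := sub_ne_zero.2 (Ne.symm h1)
  rw [← mul_assoc, mul_one_div_cancel h2, one_mul, Real.exp_log (sandwichedTrace_pos h hα)]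

variable {b₁ b₂ : Type*} [Fintype b₁] [DecidableEq b₁] [Fintype b₂] [DecidableEq b₂]

theorem Hsum_eq {σ₁ : Fin 2 → Matrix b₁ b₁ ℂ} {σ₂ : Fin 2 → Matrix b₂ b₂ ℂ}
    (h₁ : ∀ x, IsDensity (σ₁ x)) (h₂ : ∀ x, IsDensity (σ₂ x)) {α : ℝ} (hα : 0 < α)
    (hne : α ≠ 1) :
    Hsum α σ₁ σ₂ = 1 / (1 - α) * Real.log (2 ^ (1 - α) *
      (1 + Gfun α (Aop α σ₁ ⊗ₖ Aop α σ₂) (Dop α σ₁ ⊗ₖ Dop α σ₂))) := by
  rw [Hsum, traceMid_tau, condH, if_neg hne, sandwichedTrace_eq (isDensity_sumState h₁ h₂) hα,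
    Aop_sumState h₁ h₂, Dop_sumState h₁ h₂]

theorem one_add_G12_pos {σ₁ : Fin 2 → Matrix b₁ b₁ ℂ} {σ₂ : Fin 2 → Matrix b₂ b₂ ℂ}
    (h₁ : ∀ x, IsDensity (σ₁ x)) (h₂ : ∀ x, IsDensity (σ₂ x)) {α : ℝ} (hα : 0 < α) :
    0 < 1 + Gfun α (Aop α σ₁ ⊗ₖ Aop α σ₂) (Dop α σ₁ ⊗ₖ Dop α σ₂) := by
  have := one_add_Gfun_pos (isDensity_sumState h₁ h₂) hα
  rwa [Aop_sumState h₁ h₂, Dop_sumState h₁ h₂] at this

theorem Fval_eq {σ₁ : Fin 2 → Matrix b₁ b₁ ℂ} {σ₂ : Fin 2 → Matrix b₂ b₂ ℂ}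
    (h₁ : ∀ x, IsDensity (σ₁ x)) (h₂ : ∀ x, IsDensity (σ₂ x)) {α : ℝ} (hα : 0 < α)
    (hne : α ≠ 1) :
    Fval α σ₁ σ₂ = 1 / (1 - α) * Real.log (2 ^ (1 - α) *
      (1 + Gfun α (Aop α σ₁) (Dop α σ₁) * Gfun α (Aop α σ₂) (Dop α σ₂) /
        (2 ^ (α - 1) - 1))) := by
  rw [Fval, Fbound, if_neg hne, Kof_condH h₁ hα hne, Kof_condH h₂ hα hne]
  have hd : (2 : ℝ) ^ (α - 1) = ((2 : ℝ) ^ (1 - α))⁻¹ := by
    rw [← Real.rpow_neg (by norm_num)]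
    congr 1
    ring
  have hdpos : 0 < (2 : ℝ) ^ (1 - α) := Real.rpow_pos_of_pos (by norm_num) _
  have hd1 : (2 : ℝ) ^ (1 - α) ≠ 1 := by
    intro h
    have : Real.log ((2 : ℝ) ^ (1 - α)) = 0 := by rw [h, Real.log_one]
    rw [Real.log_rpow (by norm_num)] at this
    rcases mul_eq_zero.1 this with h3 | h3
    · exact hne (by linarith)
    · exact (Real.log_pos (by norm_num : (1 : ℝ) < 2)).ne' h3
  rw [hd]
  congr 2
  generalize (2 : ℝ) ^ (1 - α) = δ at *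
  have h1 : 1 - δ ≠ 0 := sub_ne_zero.2 (Ne.symm hd1)
  have h2 : δ⁻¹ - 1 = (1 - δ) / δ := by
    field_simp
  rw [h2]
  field_simp
  ring

/-- The key implication, range where `H ≤ F`, `α < 1`. -/
theorem Hsum_le_Fval_of_lt_one {σ₁ : Fin 2 → Matrix b₁ b₁ ℂ} {σ₂ : Fin 2 → Matrix b₂ b₂ ℂ}
    (h₁ : ∀ x, IsDensity (σ₁ x)) (h₂ : ∀ x, IsDensity (σ₂ x)) {α : ℝ} (hα : 0 < α)
    (hlt : α < 1)
    (key : Gfun α (Aop α σ₁) (Dop α σ₁) * Gfun α (Aop α σ₂) (Dop α σ₂) ≤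
      (2 ^ (α - 1) - 1) * Gfun α (Aop α σ₁ ⊗ₖ Aop α σ₂) (Dop α σ₁ ⊗ₖ Dop α σ₂)) :
    Hsum α σ₁ σ₂ ≤ Fval α σ₁ σ₂ := by
  rw [Hsum_eq h₁ h₂ hα hlt.ne, Fval_eq h₁ h₂ hα hlt.ne]
  have hp := one_add_G12_pos h₁ h₂ hα
  have hL : (2 : ℝ) ^ (α - 1) - 1 < 0 := by
    have : (2 : ℝ) ^ (α - 1) < 1 :=
      Real.rpow_lt_one_of_one_lt_of_neg (by norm_num) (by linarith)
    linarith
  have h3 : Gfun α (Aop α σ₁ ⊗ₖ Aop α σ₂) (Dop α σ₁ ⊗ₖ Dop α σ₂) ≤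
      Gfun α (Aop α σ₁) (Dop α σ₁) * Gfun α (Aop α σ₂) (Dop α σ₂) / (2 ^ (α - 1) - 1) := by
    rw [le_div_iff_of_neg hL]
    linarith [key]
  have hd : 0 < (2 : ℝ) ^ (1 - α) := Real.rpow_pos_of_pos (by norm_num) _
  refine mul_le_mul_of_nonneg_left ?_ (one_div_nonneg.2 (by linarith))
  refine Real.log_le_log (mul_pos hd hp) ?_
  exact mul_le_mul_of_nonneg_left (by linarith) hd.le

/-- The key implication, range where `H ≤ F`, `α > 1`. -/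
theorem Hsum_le_Fval_of_one_lt {σ₁ : Fin 2 → Matrix b₁ b₁ ℂ} {σ₂ : Fin 2 → Matrix b₂ b₂ ℂ}
    (h₁ : ∀ x, IsDensity (σ₁ x)) (h₂ : ∀ x, IsDensity (σ₂ x)) {α : ℝ} (hα : 1 < α)
    (hG₁ : 0 ≤ Gfun α (Aop α σ₁) (Dop α σ₁)) (hG₂ : 0 ≤ Gfun α (Aop α σ₂) (Dop α σ₂))
    (key : Gfun α (Aop α σ₁) (Dop α σ₁) * Gfun α (Aop α σ₂) (Dop α σ₂) ≤
      (2 ^ (α - 1) - 1) * Gfun α (Aop α σ₁ ⊗ₖ Aop α σ₂) (Dop α σ₁ ⊗ₖ Dop α σ₂)) :
    Hsum α σ₁ σ₂ ≤ Fval α σ₁ σ₂ := by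
  have hα0 : 0 < α := by linarith
  rw [Hsum_eq h₁ h₂ hα0 hα.ne', Fval_eq h₁ h₂ hα0 hα.ne']
  have hp := one_add_G12_pos h₁ h₂ hα0
  have hL : 0 < (2 : ℝ) ^ (α - 1) - 1 := by
    have : 1 < (2 : ℝ) ^ (α - 1) := Real.one_lt_rpow (by norm_num) (by linarith)
    linarith
  have h3 : Gfun α (Aop α σ₁) (Dop α σ₁) * Gfun α (Aop α σ₂) (Dop α σ₂) / (2 ^ (α - 1) - 1) ≤
      Gfun α (Aop α σ₁ ⊗ₖ Aop α σ₂) (Dop α σ₁ ⊗ₖ Dop α σ₂) := by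
    rw [div_le_iff₀ hL]
    linarith [key]
  have h4 : 0 ≤ Gfun α (Aop α σ₁) (Dop α σ₁) * Gfun α (Aop α σ₂) (Dop α σ₂) /
      (2 ^ (α - 1) - 1) := div_nonneg (mul_nonneg hG₁ hG₂) hL.le
  have hd : 0 < (2 : ℝ) ^ (1 - α) := Real.rpow_pos_of_pos (by norm_num) _
  refine mul_le_mul_of_nonpos_left ?_ (one_div_nonpos.2 (by linarith))
  refine Real.log_le_log (mul_pos hd (by linarith)) ?_
  exact mul_le_mul_of_nonneg_left (by linarith) hd.le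

/-- The key implication, range where `F ≤ H` (`α > 1`). -/
theorem Fval_le_Hsum_of_one_lt {σ₁ : Fin 2 → Matrix b₁ b₁ ℂ} {σ₂ : Fin 2 → Matrix b₂ b₂ ℂ}
    (h₁ : ∀ x, IsDensity (σ₁ x)) (h₂ : ∀ x, IsDensity (σ₂ x)) {α : ℝ} (hα : 1 < α)
    (key : (2 ^ (α - 1) - 1) * Gfun α (Aop α σ₁ ⊗ₖ Aop α σ₂) (Dop α σ₁ ⊗ₖ Dop α σ₂) ≤
      Gfun α (Aop α σ₁) (Dop α σ₁) * Gfun α (Aop α σ₂) (Dop α σ₂)) :
    Fval α σ₁ σ₂ ≤ Hsum α σ₁ σ₂ := by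
  have hα0 : 0 < α := by linarith
  rw [Hsum_eq h₁ h₂ hα0 hα.ne', Fval_eq h₁ h₂ hα0 hα.ne']
  have hp := one_add_G12_pos h₁ h₂ hα0
  have hL : 0 < (2 : ℝ) ^ (α - 1) - 1 := by
    have : 1 < (2 : ℝ) ^ (α - 1) := Real.one_lt_rpow (by norm_num) (by linarith)
    linarith
  have h3 : Gfun α (Aop α σ₁ ⊗ₖ Aop α σ₂) (Dop α σ₁ ⊗ₖ Dop α σ₂) ≤
      Gfun α (Aop α σ₁) (Dop α σ₁) * Gfun α (Aop α σ₂) (Dop α σ₂) / (2 ^ (α - 1) - 1) := by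
    rw [le_div_iff₀ hL]
    linarith [key]
  have hd : 0 < (2 : ℝ) ^ (1 - α) := Real.rpow_pos_of_pos (by norm_num) _
  refine mul_le_mul_of_nonpos_left ?_ (one_div_nonpos.2 (by linarith))
  refine Real.log_le_log (mul_pos hd hp) ?_
  exact mul_le_mul_of_nonneg_left (by linarith) hd.le

/-- The conditional von Neumann entropy of a classical-quantum state. -/
theorem condH_one {σ : Fin 2 → Matrix b b ℂ} (h : ∀ x, IsDensity (σ x)) :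
    condH 1 (cqState σ) = Real.log 2 - GfunOne (rhoOf σ) (delOf σ) := by
  have hx : ∀ x, ((1 / 2 : ℂ) • σ x).IsHermitian := fun x => (posSemidef_half_smul (h x).1).1
  rw [condH, if_pos rfl, vnEntropy, vnEntropy, margB_cqState, cqState_eq_blk, cfc_blk _ hx,
    trace_blk, Fin.sum_univ_two, Complex.add_re]
  have f0 := trEta_half (h 0).1
  have f1 := trEta_half (h 1).1
  rw [(h 0).2] at f0
  rw [(h 1).2] at f1
  rw [trEta] at f0 f1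
  rw [f0, f1, GfunOne, rho_add_del, rho_sub_del, trEta, trEta, trEta]
  simp
  ring

theorem Hsum_le_Fval_one {σ₁ : Fin 2 → Matrix b₁ b₁ ℂ} {σ₂ : Fin 2 → Matrix b₂ b₂ ℂ}
    (h₁ : ∀ x, IsDensity (σ₁ x)) (h₂ : ∀ x, IsDensity (σ₂ x))
    (key : GfunOne (rhoOf σ₁) (delOf σ₁) * GfunOne (rhoOf σ₂) (delOf σ₂) ≤
      Real.log 2 * GfunOne (rhoOf σ₁ ⊗ₖ rhoOf σ₂) (delOf σ₁ ⊗ₖ delOf σ₂)) :
    Hsum 1 σ₁ σ₂ ≤ Fval 1 σ₁ σ₂ := by
  rw [Hsum, traceMid_tau, condH_one (isDensity_sumState h₁ h₂), rhoOf_sumState, delOf_sumState,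
    Fval, Fbound, if_pos rfl, condH_one h₁, condH_one h₂]
  have hl : 0 < Real.log 2 := Real.log_pos (by norm_num)
  have : GfunOne (rhoOf σ₁) (delOf σ₁) * GfunOne (rhoOf σ₂) (delOf σ₂) / Real.log 2 ≤
      GfunOne (rhoOf σ₁ ⊗ₖ rhoOf σ₂) (delOf σ₁ ⊗ₖ delOf σ₂) := by
    rw [div_le_iff₀ hl]
    linarith
  have e : (Real.log 2 - (Real.log 2 - GfunOne (rhoOf σ₁) (delOf σ₁))) *
      (Real.log 2 - (Real.log 2 - GfunOne (rhoOf σ₂) (delOf σ₂))) / Real.log 2 =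
      GfunOne (rhoOf σ₁) (delOf σ₁) * GfunOne (rhoOf σ₂) (delOf σ₂) / Real.log 2 := by ring
  rw [e]
  linarith

end final

end Pool.Agent.Lib_helper98.Renyi
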