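import Mathlib
import Pool.Agent.Lib_helper98.RenyiTau

/-!
# Trace convexity
-/

set_option autoImplicit false
set_option linter.unusedSectionVars false
set_option linter.unusedSimpArgs false

open scoped Kronecker ComplexOrder

namespace Pool.Agent.Lib_helper98.Renyi

open Matrix Polynomial

section

variable {n : Type*} [Fintype n] [DecidableEq n]

/-- The trace of a function of a matrix. -/
noncomputable def trF (f : ℝ → ℝ) (M : Matrix n n ℂ) : ℝ := (trace (cfc f M)).re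

theorem trF_conj_diagonal (f : ℝ → ℝ) (W : Matrix n n ℂ) (hW : Wᴴ * W = 1) (c : n → ℝ) :
    trF f (W * diagonal (fun i => (c i : ℂ)) * Wᴴ) = ∑ i, f (c i) := by
  rw [trF, cfc_conj_diagonal _ W hW, trace_conj _ _ hW, trace_diagonal]
  simp

theorem conj_diag_entry (X : Matrix n n ℂ) (p : n → ℝ) (i : n) :
    (X * diagonal (fun i => (p i : ℂ)) * Xᴴ) i i = ((∑ j, Complex.normSq (X i j) * p j : ℝ) : ℂ) := by
  rw [Matrix.mul_apply]
  push_cast
  refine Finset.sum_congr rfl fun j _ => ?_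
  rw [mul_diagonal, conjTranspose_apply, Complex.normSq_eq_conj_mul_self]
  simp only [Complex.star_def]
  ring

theorem normSq_row_sum {X : Matrix n n ℂ} (hX : X * Xᴴ = 1) (i : n) :
    ∑ j, Complex.normSq (X i j) = 1 := by
  have h := conj_diag_entry X (fun _ => 1) i
  simp only [Complex.ofReal_one, diagonal_one, Matrix.mul_one, hX, Matrix.one_apply_eq,
    mul_one] at h
  exact_mod_cast h.symm

theorem normSq_col_sum {X : Matrix n n ℂ} (hX : Xᴴ * X = 1) (j : n) :
    ∑ i, Complex.normSq (X i j) = 1 := by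
  have h := normSq_row_sum (X := Xᴴ) (by rwa [conjTranspose_conjTranspose]) j
  simpa [conjTranspose_apply] using h

theorem jensen_trace {f : ℝ → ℝ} (hf : ConvexOn ℝ (Set.Ici 0) f) {U M : Matrix n n ℂ}
    (hM : M.PosSemidef) (hU : Uᴴ * U = 1) (hU' : U * Uᴴ = 1) :
    ∃ m : n → ℝ, (∀ i, 0 ≤ m i) ∧ (∀ i, (Uᴴ * M * U) i i = (m i : ℂ)) ∧
      ∑ i, f (m i) ≤ trF f M := by
  obtain ⟨V, p, hV, hV', hp, rfl⟩ := exists_spectral_nonneg hM
  set X : Matrix n n ℂ := Uᴴ * V with hX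
  have hXX : X * Xᴴ = 1 := by
    rw [hX, conjTranspose_mul, conjTranspose_conjTranspose, Matrix.mul_assoc,
      ← Matrix.mul_assoc V, hV', Matrix.one_mul, hU]
  have hXX' : Xᴴ * X = 1 := by
    rw [hX, conjTranspose_mul, conjTranspose_conjTranspose, Matrix.mul_assoc,
      ← Matrix.mul_assoc U, hU', Matrix.one_mul, hV]
  refine ⟨fun i => ∑ j, Complex.normSq (X i j) * p j, fun i => ?_, fun i => ?_, ?_⟩
  · exact Finset.sum_nonneg fun j _ => mul_nonneg (Complex.normSq_nonneg _) (hp j)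
  · rw [← conj_diag_entry X p i, hX, conjTranspose_mul, conjTranspose_conjTranspose]
    simp only [Matrix.mul_assoc]
  · rw [trF_conj_diagonal _ V hV]
    have h1 : ∀ i, f (∑ j, Complex.normSq (X i j) * p j) ≤
        ∑ j, Complex.normSq (X i j) * f (p j) := fun i => by
      have := hf.map_sum_le (t := Finset.univ) (w := fun j => Complex.normSq (X i j)) (p := p)
        (fun j _ => Complex.normSq_nonneg _) (normSq_row_sum hXX i) (fun j _ => hp j)
      simpa [smul_eq_mul] using this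
    refine (Finset.sum_le_sum fun i _ => h1 i).trans (le_of_eq ?_)
    rw [Finset.sum_comm]
    refine Finset.sum_congr rfl fun j _ => ?_
    rw [← Finset.sum_mul, normSq_col_sum hXX' j, one_mul]

/-- Midpoint convexity of `M ↦ Tr f(M)`. -/
theorem trF_midpoint {f : ℝ → ℝ} (hf : ConvexOn ℝ (Set.Ici 0) f) {A D : Matrix n n ℂ}
    (hA : A.PosSemidef) (hP : (A + D).PosSemidef) (hQ : (A - D).PosSemidef) :
    trF f A ≤ (trF f (A + D) + trF f (A - D)) / 2 := by
  obtain ⟨U, c, hU, hU', hc, hAc⟩ := exists_spectral_nonneg hA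
  obtain ⟨p, hp, hp', hp''⟩ := jensen_trace hf hP hU hU'
  obtain ⟨q, hq, hq', hq''⟩ := jensen_trace hf hQ hU hU'
  have hcd : ∀ i, c i = (p i + q i) / 2 := fun i => by
    have h1 : (Uᴴ * A * U) i i = (c i : ℂ) := by
      have : Uᴴ * A * U = diagonal (fun i => (c i : ℂ)) := by
        rw [hAc]
        have : Uᴴ * (U * diagonal (fun i => (c i : ℂ)) * Uᴴ) * U =
            (Uᴴ * U) * diagonal (fun i => (c i : ℂ)) * (Uᴴ * U) := by
          simp only [Matrix.mul_assoc]
        rw [this, hU, Matrix.one_mul, Matrix.mul_one]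
      rw [this, diagonal_apply_eq]
    have h2 : (Uᴴ * (A + D) * U) i i + (Uᴴ * (A - D) * U) i i = 2 * (Uᴴ * A * U) i i := by
      rw [← Matrix.add_apply]
      have : Uᴴ * (A + D) * U + Uᴴ * (A - D) * U = (2 : ℂ) • (Uᴴ * A * U) := by
        rw [← Matrix.add_mul, ← Matrix.mul_add, two_smul]
        have : A + D + (A - D) = A + A := by abel
        rw [this, Matrix.mul_add, Matrix.add_mul]
      rw [this, Matrix.smul_apply, smul_eq_mul]
    rw [h1, hp' i, hq' i] at h2
    have h3 : p i + q i = 2 * c i := by exact_mod_cast h2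
    linarith
  have h1 : trF f A = ∑ i, f (c i) := by
    rw [hAc, trF_conj_diagonal _ U hU]
  have h2 : ∀ i, f (c i) ≤ (f (p i) + f (q i)) / 2 := fun i => by
    have := hf.2 (hp i) (hq i) (by norm_num : (0 : ℝ) ≤ 1 / 2) (by norm_num : (0 : ℝ) ≤ 1 / 2)
      (by norm_num)
    rw [hcd i]
    have e : (p i + q i) / 2 = (1 / 2 : ℝ) • p i + (1 / 2 : ℝ) • q i := by
      simp [smul_eq_mul]; ring
    rw [e]
    refine this.trans (le_of_eq ?_)
    simp [smul_eq_mul]; ring
  rw [h1]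
  calc ∑ i, f (c i) ≤ ∑ i, (f (p i) + f (q i)) / 2 := Finset.sum_le_sum fun i _ => h2 i
    _ = (∑ i, f (p i) + ∑ i, f (q i)) / 2 := by
      rw [← Finset.sum_add_distrib, Finset.sum_div]
    _ ≤ _ := by linarith

theorem supPow_convexOn {α : ℝ} (hα : 1 ≤ α) : ConvexOn ℝ (Set.Ici 0) (supPow α) := by
  have : supPow α = fun x => x ^ α := by
    funext x
    exact supPow_of_pos_exp (by linarith)
  rw [this]
  exact convexOn_rpow hα

theorem Gfun_nonneg {α : ℝ} (hα : 1 ≤ α) {A D : Matrix n n ℂ}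
    (hA : A.PosSemidef) (hP : (A + D).PosSemidef) (hQ : (A - D).PosSemidef) :
    0 ≤ Gfun α A D := by
  have := trF_midpoint (supPow_convexOn hα) hA hP hQ
  rw [Gfun]
  change trPow α A ≤ (trPow α (A + D) + trPow α (A - D)) / 2 at this
  linarith

theorem GfunOne_nonneg {A D : Matrix n n ℂ}
    (hA : A.PosSemidef) (hP : (A + D).PosSemidef) (hQ : (A - D).PosSemidef) :
    0 ≤ GfunOne A D := by
  have h := trF_midpoint (f := fun x => x * Real.log x) Real.convexOn_mul_log hA hP hQ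
  rw [GfunOne]
  change trEta A ≤ (trEta (A + D) + trEta (A - D)) / 2 at h
  linarith

end

section final

variable {b₁ b₂ : Type*} [Fintype b₁] [DecidableEq b₁] [Fintype b₂] [DecidableEq b₂]

/-- **Reduction.** For `0 < α ≠ 1` the inequality `H ≤ F` follows from the inequality for the
pairs `(A, D)`. -/
theorem Hsum_le_Fval {σ₁ : Fin 2 → Matrix b₁ b₁ ℂ} {σ₂ : Fin 2 → Matrix b₂ b₂ ℂ}
    (h₁ : ∀ x, IsDensity (σ₁ x)) (h₂ : ∀ x, IsDensity (σ₂ x)) {α : ℝ} (hα : 0 < α)
    (hne : α ≠ 1)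
    (key : Gfun α (Aop α σ₁) (Dop α σ₁) * Gfun α (Aop α σ₂) (Dop α σ₂) ≤
      (2 ^ (α - 1) - 1) * Gfun α (Aop α σ₁ ⊗ₖ Aop α σ₂) (Dop α σ₁ ⊗ₖ Dop α σ₂)) :
    Hsum α σ₁ σ₂ ≤ Fval α σ₁ σ₂ := by
  rcases lt_or_gt_of_ne hne with hlt | hgt
  · exact Hsum_le_Fval_of_lt_one h₁ h₂ hα hlt key
  · exact Hsum_le_Fval_of_one_lt h₁ h₂ hgt
      (Gfun_nonneg hgt.le (Aop_posSemidef h₁ α) (A_add_D_posSemidef h₁ hα)
        (A_sub_D_posSemidef h₁ hα))
      (Gfun_nonneg hgt.le (Aop_posSemidef h₂ α) (A_add_D_posSemidef h₂ hα)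
        (A_sub_D_posSemidef h₂ hα)) key

end final

end Pool.Agent.Lib_helper98.Renyi
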