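import Mathlib
import Pool.Agent.Lib_helper98.RenyiConvex

/-!
# Cyclic words (generated)
-/

set_option autoImplicit false
set_option linter.unusedSectionVars false
set_option linter.unusedSimpArgs false

open scoped Kronecker ComplexOrder

namespace Pool.Agent.Lib_helper98.Renyi

open Matrix

variable {n : Type*} [Fintype n] [DecidableEq n]

/-- Real part of the trace. -/
noncomputable def rt (M : Matrix n n ℂ) : ℝ := (trace M).re

theorem rt_add (M N : Matrix n n ℂ) : rt (M + N) = rt M + rt N := by simp [rt]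
theorem rt_sub (M N : Matrix n n ℂ) : rt (M - N) = rt M - rt N := by simp [rt]
theorem rt_neg (M : Matrix n n ℂ) : rt (-M) = -rt M := by simp [rt]
theorem rt_comm (M N : Matrix n n ℂ) : rt (M * N) = rt (N * M) := by
  rw [rt, trace_mul_comm, rt]


theorem cw_ADA (A D : Matrix n n ℂ) : rt (A*D*A) = rt (A*A*D) := by
  rw [rt_comm (A*D) A]
  simp only [← Matrix.mul_assoc]

theorem cw_DAA (A D : Matrix n n ℂ) : rt (D*A*A) = rt (A*A*D) := by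
  rw [rt_comm (D*A) A]
  simp only [← Matrix.mul_assoc]
  rw [rt_comm (A*D) A]
  simp only [← Matrix.mul_assoc]

theorem cw_DAD (A D : Matrix n n ℂ) : rt (D*A*D) = rt (A*D*D) := by
  rw [rt_comm (D*A) D]
  simp only [← Matrix.mul_assoc]
  rw [rt_comm (D*D) A]
  simp only [← Matrix.mul_assoc]

theorem cw_DDA (A D : Matrix n n ℂ) : rt (D*D*A) = rt (A*D*D) := by
  rw [rt_comm (D*D) A]
  simp only [← Matrix.mul_assoc]

theorem cw_AADA (A D : Matrix n n ℂ) : rt (A*A*D*A) = rt (A*A*A*D) := by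
  rw [rt_comm (A*A*D) A]
  simp only [← Matrix.mul_assoc]

theorem cw_ADAA (A D : Matrix n n ℂ) : rt (A*D*A*A) = rt (A*A*A*D) := by
  rw [rt_comm (A*D*A) A]
  simp only [← Matrix.mul_assoc]
  rw [rt_comm (A*A*D) A]
  simp only [← Matrix.mul_assoc]

theorem cw_ADDA (A D : Matrix n n ℂ) : rt (A*D*D*A) = rt (A*A*D*D) := by
  rw [rt_comm (A*D*D) A]
  simp only [← Matrix.mul_assoc]

theorem cw_DAAA (A D : Matrix n n ℂ) : rt (D*A*A*A) = rt (A*A*A*D) := by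
  rw [rt_comm (D*A*A) A]
  simp only [← Matrix.mul_assoc]
  rw [rt_comm (A*D*A) A]
  simp only [← Matrix.mul_assoc]
  rw [rt_comm (A*A*D) A]
  simp only [← Matrix.mul_assoc]

theorem cw_DAAD (A D : Matrix n n ℂ) : rt (D*A*A*D) = rt (A*A*D*D) := by
  rw [rt_comm (D*A*A) D]
  simp only [← Matrix.mul_assoc]
  rw [rt_comm (D*D*A) A]
  simp only [← Matrix.mul_assoc]
  rw [rt_comm (A*D*D) A]
  simp only [← Matrix.mul_assoc]

theorem cw_DADA (A D : Matrix n n ℂ) : rt (D*A*D*A) = rt (A*D*A*D) := by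
  rw [rt_comm (D*A*D) A]
  simp only [← Matrix.mul_assoc]

theorem cw_DADD (A D : Matrix n n ℂ) : rt (D*A*D*D) = rt (A*D*D*D) := by
  rw [rt_comm (D*A*D) D]
  simp only [← Matrix.mul_assoc]
  rw [rt_comm (D*D*A) D]
  simp only [← Matrix.mul_assoc]
  rw [rt_comm (D*D*D) A]
  simp only [← Matrix.mul_assoc]

theorem cw_DDAA (A D : Matrix n n ℂ) : rt (D*D*A*A) = rt (A*A*D*D) := by
  rw [rt_comm (D*D*A) A]
  simp only [← Matrix.mul_assoc]
  rw [rt_comm (A*D*D) A]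
  simp only [← Matrix.mul_assoc]

theorem cw_DDAD (A D : Matrix n n ℂ) : rt (D*D*A*D) = rt (A*D*D*D) := by
  rw [rt_comm (D*D*A) D]
  simp only [← Matrix.mul_assoc]
  rw [rt_comm (D*D*D) A]
  simp only [← Matrix.mul_assoc]

theorem cw_DDDA (A D : Matrix n n ℂ) : rt (D*D*D*A) = rt (A*D*D*D) := by
  rw [rt_comm (D*D*D) A]
  simp only [← Matrix.mul_assoc]

theorem cw_AAADA (A D : Matrix n n ℂ) : rt (A*A*A*D*A) = rt (A*A*A*A*D) := by
  rw [rt_comm (A*A*A*D) A]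
  simp only [← Matrix.mul_assoc]

theorem cw_AADAA (A D : Matrix n n ℂ) : rt (A*A*D*A*A) = rt (A*A*A*A*D) := by
  rw [rt_comm (A*A*D*A) A]
  simp only [← Matrix.mul_assoc]
  rw [rt_comm (A*A*A*D) A]
  simp only [← Matrix.mul_assoc]

theorem cw_AADDA (A D : Matrix n n ℂ) : rt (A*A*D*D*A) = rt (A*A*A*D*D) := by
  rw [rt_comm (A*A*D*D) A]
  simp only [← Matrix.mul_assoc]

theorem cw_ADAAA (A D : Matrix n n ℂ) : rt (A*D*A*A*A) = rt (A*A*A*A*D) := by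
  rw [rt_comm (A*D*A*A) A]
  simp only [← Matrix.mul_assoc]
  rw [rt_comm (A*A*D*A) A]
  simp only [← Matrix.mul_assoc]
  rw [rt_comm (A*A*A*D) A]
  simp only [← Matrix.mul_assoc]

theorem cw_ADAAD (A D : Matrix n n ℂ) : rt (A*D*A*A*D) = rt (A*A*D*A*D) := by
  rw [rt_comm (A*D*A*A) D]
  simp only [← Matrix.mul_assoc]
  rw [rt_comm (D*A*D*A) A]
  simp only [← Matrix.mul_assoc]
  rw [rt_comm (A*D*A*D) A]
  simp only [← Matrix.mul_assoc]

theorem cw_ADADA (A D : Matrix n n ℂ) : rt (A*D*A*D*A) = rt (A*A*D*A*D) := by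
  rw [rt_comm (A*D*A*D) A]
  simp only [← Matrix.mul_assoc]

theorem cw_ADDAA (A D : Matrix n n ℂ) : rt (A*D*D*A*A) = rt (A*A*A*D*D) := by
  rw [rt_comm (A*D*D*A) A]
  simp only [← Matrix.mul_assoc]
  rw [rt_comm (A*A*D*D) A]
  simp only [← Matrix.mul_assoc]

theorem cw_ADDAD (A D : Matrix n n ℂ) : rt (A*D*D*A*D) = rt (A*D*A*D*D) := by
  rw [rt_comm (A*D*D*A) D]
  simp only [← Matrix.mul_assoc]
  rw [rt_comm (D*A*D*D) A]
  simp only [← Matrix.mul_assoc]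

theorem cw_ADDDA (A D : Matrix n n ℂ) : rt (A*D*D*D*A) = rt (A*A*D*D*D) := by
  rw [rt_comm (A*D*D*D) A]
  simp only [← Matrix.mul_assoc]

theorem cw_DAAAA (A D : Matrix n n ℂ) : rt (D*A*A*A*A) = rt (A*A*A*A*D) := by
  rw [rt_comm (D*A*A*A) A]
  simp only [← Matrix.mul_assoc]
  rw [rt_comm (A*D*A*A) A]
  simp only [← Matrix.mul_assoc]
  rw [rt_comm (A*A*D*A) A]
  simp only [← Matrix.mul_assoc]
  rw [rt_comm (A*A*A*D) A]
  simp only [← Matrix.mul_assoc]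

theorem cw_DAAAD (A D : Matrix n n ℂ) : rt (D*A*A*A*D) = rt (A*A*A*D*D) := by
  rw [rt_comm (D*A*A*A) D]
  simp only [← Matrix.mul_assoc]
  rw [rt_comm (D*D*A*A) A]
  simp only [← Matrix.mul_assoc]
  rw [rt_comm (A*D*D*A) A]
  simp only [← Matrix.mul_assoc]
  rw [rt_comm (A*A*D*D) A]
  simp only [← Matrix.mul_assoc]

theorem cw_DAADA (A D : Matrix n n ℂ) : rt (D*A*A*D*A) = rt (A*A*D*A*D) := by
  rw [rt_comm (D*A*A*D) A]
  simp only [← Matrix.mul_assoc]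
  rw [rt_comm (A*D*A*A) D]
  simp only [← Matrix.mul_assoc]
  rw [rt_comm (D*A*D*A) A]
  simp only [← Matrix.mul_assoc]
  rw [rt_comm (A*D*A*D) A]
  simp only [← Matrix.mul_assoc]

theorem cw_DAADD (A D : Matrix n n ℂ) : rt (D*A*A*D*D) = rt (A*A*D*D*D) := by
  rw [rt_comm (D*A*A*D) D]
  simp only [← Matrix.mul_assoc]
  rw [rt_comm (D*D*A*A) D]
  simp only [← Matrix.mul_assoc]
  rw [rt_comm (D*D*D*A) A]
  simp only [← Matrix.mul_assoc]
  rw [rt_comm (A*D*D*D) A]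
  simp only [← Matrix.mul_assoc]

theorem cw_DADAA (A D : Matrix n n ℂ) : rt (D*A*D*A*A) = rt (A*A*D*A*D) := by
  rw [rt_comm (D*A*D*A) A]
  simp only [← Matrix.mul_assoc]
  rw [rt_comm (A*D*A*D) A]
  simp only [← Matrix.mul_assoc]

theorem cw_DADAD (A D : Matrix n n ℂ) : rt (D*A*D*A*D) = rt (A*D*A*D*D) := by
  rw [rt_comm (D*A*D*A) D]
  simp only [← Matrix.mul_assoc]
  rw [rt_comm (D*D*A*D) A]
  simp only [← Matrix.mul_assoc]
  rw [rt_comm (A*D*D*A) D]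
  simp only [← Matrix.mul_assoc]
  rw [rt_comm (D*A*D*D) A]
  simp only [← Matrix.mul_assoc]

theorem cw_DADDA (A D : Matrix n n ℂ) : rt (D*A*D*D*A) = rt (A*D*A*D*D) := by
  rw [rt_comm (D*A*D*D) A]
  simp only [← Matrix.mul_assoc]

theorem cw_DADDD (A D : Matrix n n ℂ) : rt (D*A*D*D*D) = rt (A*D*D*D*D) := by
  rw [rt_comm (D*A*D*D) D]
  simp only [← Matrix.mul_assoc]
  rw [rt_comm (D*D*A*D) D]
  simp only [← Matrix.mul_assoc]
  rw [rt_comm (D*D*D*A) D]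
  simp only [← Matrix.mul_assoc]
  rw [rt_comm (D*D*D*D) A]
  simp only [← Matrix.mul_assoc]

theorem cw_DDAAA (A D : Matrix n n ℂ) : rt (D*D*A*A*A) = rt (A*A*A*D*D) := by
  rw [rt_comm (D*D*A*A) A]
  simp only [← Matrix.mul_assoc]
  rw [rt_comm (A*D*D*A) A]
  simp only [← Matrix.mul_assoc]
  rw [rt_comm (A*A*D*D) A]
  simp only [← Matrix.mul_assoc]

theorem cw_DDAAD (A D : Matrix n n ℂ) : rt (D*D*A*A*D) = rt (A*A*D*D*D) := by
  rw [rt_comm (D*D*A*A) D]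
  simp only [← Matrix.mul_assoc]
  rw [rt_comm (D*D*D*A) A]
  simp only [← Matrix.mul_assoc]
  rw [rt_comm (A*D*D*D) A]
  simp only [← Matrix.mul_assoc]

theorem cw_DDADA (A D : Matrix n n ℂ) : rt (D*D*A*D*A) = rt (A*D*A*D*D) := by
  rw [rt_comm (D*D*A*D) A]
  simp only [← Matrix.mul_assoc]
  rw [rt_comm (A*D*D*A) D]
  simp only [← Matrix.mul_assoc]
  rw [rt_comm (D*A*D*D) A]
  simp only [← Matrix.mul_assoc]

theorem cw_DDADD (A D : Matrix n n ℂ) : rt (D*D*A*D*D) = rt (A*D*D*D*D) := by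
  rw [rt_comm (D*D*A*D) D]
  simp only [← Matrix.mul_assoc]
  rw [rt_comm (D*D*D*A) D]
  simp only [← Matrix.mul_assoc]
  rw [rt_comm (D*D*D*D) A]
  simp only [← Matrix.mul_assoc]

theorem cw_DDDAA (A D : Matrix n n ℂ) : rt (D*D*D*A*A) = rt (A*A*D*D*D) := by
  rw [rt_comm (D*D*D*A) A]
  simp only [← Matrix.mul_assoc]
  rw [rt_comm (A*D*D*D) A]
  simp only [← Matrix.mul_assoc]

theorem cw_DDDAD (A D : Matrix n n ℂ) : rt (D*D*D*A*D) = rt (A*D*D*D*D) := by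
  rw [rt_comm (D*D*D*A) D]
  simp only [← Matrix.mul_assoc]
  rw [rt_comm (D*D*D*D) A]
  simp only [← Matrix.mul_assoc]

theorem cw_DDDDA (A D : Matrix n n ℂ) : rt (D*D*D*D*A) = rt (A*D*D*D*D) := by
  rw [rt_comm (D*D*D*D) A]
  simp only [← Matrix.mul_assoc]

theorem cw_AAAADA (A D : Matrix n n ℂ) : rt (A*A*A*A*D*A) = rt (A*A*A*A*A*D) := by
  rw [rt_comm (A*A*A*A*D) A]
  simp only [← Matrix.mul_assoc]

theorem cw_AAADAA (A D : Matrix n n ℂ) : rt (A*A*A*D*A*A) = rt (A*A*A*A*A*D) := by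
  rw [rt_comm (A*A*A*D*A) A]
  simp only [← Matrix.mul_assoc]
  rw [rt_comm (A*A*A*A*D) A]
  simp only [← Matrix.mul_assoc]

theorem cw_AAADDA (A D : Matrix n n ℂ) : rt (A*A*A*D*D*A) = rt (A*A*A*A*D*D) := by
  rw [rt_comm (A*A*A*D*D) A]
  simp only [← Matrix.mul_assoc]

theorem cw_AADAAA (A D : Matrix n n ℂ) : rt (A*A*D*A*A*A) = rt (A*A*A*A*A*D) := by
  rw [rt_comm (A*A*D*A*A) A]
  simp only [← Matrix.mul_assoc]
  rw [rt_comm (A*A*A*D*A) A]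
  simp only [← Matrix.mul_assoc]
  rw [rt_comm (A*A*A*A*D) A]
  simp only [← Matrix.mul_assoc]

theorem cw_AADADA (A D : Matrix n n ℂ) : rt (A*A*D*A*D*A) = rt (A*A*A*D*A*D) := by
  rw [rt_comm (A*A*D*A*D) A]
  simp only [← Matrix.mul_assoc]

theorem cw_AADDAA (A D : Matrix n n ℂ) : rt (A*A*D*D*A*A) = rt (A*A*A*A*D*D) := by
  rw [rt_comm (A*A*D*D*A) A]
  simp only [← Matrix.mul_assoc]
  rw [rt_comm (A*A*A*D*D) A]
  simp only [← Matrix.mul_assoc]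

theorem cw_AADDDA (A D : Matrix n n ℂ) : rt (A*A*D*D*D*A) = rt (A*A*A*D*D*D) := by
  rw [rt_comm (A*A*D*D*D) A]
  simp only [← Matrix.mul_assoc]

theorem cw_ADAAAA (A D : Matrix n n ℂ) : rt (A*D*A*A*A*A) = rt (A*A*A*A*A*D) := by
  rw [rt_comm (A*D*A*A*A) A]
  simp only [← Matrix.mul_assoc]
  rw [rt_comm (A*A*D*A*A) A]
  simp only [← Matrix.mul_assoc]
  rw [rt_comm (A*A*A*D*A) A]
  simp only [← Matrix.mul_assoc]
  rw [rt_comm (A*A*A*A*D) A]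
  simp only [← Matrix.mul_assoc]

theorem cw_ADAAAD (A D : Matrix n n ℂ) : rt (A*D*A*A*A*D) = rt (A*A*A*D*A*D) := by
  rw [rt_comm (A*D*A*A*A) D]
  simp only [← Matrix.mul_assoc]
  rw [rt_comm (D*A*D*A*A) A]
  simp only [← Matrix.mul_assoc]
  rw [rt_comm (A*D*A*D*A) A]
  simp only [← Matrix.mul_assoc]
  rw [rt_comm (A*A*D*A*D) A]
  simp only [← Matrix.mul_assoc]

theorem cw_ADAADA (A D : Matrix n n ℂ) : rt (A*D*A*A*D*A) = rt (A*A*D*A*A*D) := by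
  rw [rt_comm (A*D*A*A*D) A]
  simp only [← Matrix.mul_assoc]

theorem cw_ADAADD (A D : Matrix n n ℂ) : rt (A*D*A*A*D*D) = rt (A*A*D*D*A*D) := by
  rw [rt_comm (A*D*A*A*D) D]
  simp only [← Matrix.mul_assoc]
  rw [rt_comm (D*A*D*A*A) D]
  simp only [← Matrix.mul_assoc]
  rw [rt_comm (D*D*A*D*A) A]
  simp only [← Matrix.mul_assoc]
  rw [rt_comm (A*D*D*A*D) A]
  simp only [← Matrix.mul_assoc]

theorem cw_ADADAA (A D : Matrix n n ℂ) : rt (A*D*A*D*A*A) = rt (A*A*A*D*A*D) := by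
  rw [rt_comm (A*D*A*D*A) A]
  simp only [← Matrix.mul_assoc]
  rw [rt_comm (A*A*D*A*D) A]
  simp only [← Matrix.mul_assoc]

theorem cw_ADADDA (A D : Matrix n n ℂ) : rt (A*D*A*D*D*A) = rt (A*A*D*A*D*D) := by
  rw [rt_comm (A*D*A*D*D) A]
  simp only [← Matrix.mul_assoc]

theorem cw_ADDAAA (A D : Matrix n n ℂ) : rt (A*D*D*A*A*A) = rt (A*A*A*A*D*D) := by
  rw [rt_comm (A*D*D*A*A) A]
  simp only [← Matrix.mul_assoc]
  rw [rt_comm (A*A*D*D*A) A]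
  simp only [← Matrix.mul_assoc]
  rw [rt_comm (A*A*A*D*D) A]
  simp only [← Matrix.mul_assoc]

theorem cw_ADDAAD (A D : Matrix n n ℂ) : rt (A*D*D*A*A*D) = rt (A*A*D*A*D*D) := by
  rw [rt_comm (A*D*D*A*A) D]
  simp only [← Matrix.mul_assoc]
  rw [rt_comm (D*A*D*D*A) A]
  simp only [← Matrix.mul_assoc]
  rw [rt_comm (A*D*A*D*D) A]
  simp only [← Matrix.mul_assoc]

theorem cw_ADDADA (A D : Matrix n n ℂ) : rt (A*D*D*A*D*A) = rt (A*A*D*D*A*D) := by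
  rw [rt_comm (A*D*D*A*D) A]
  simp only [← Matrix.mul_assoc]

theorem cw_ADDDAA (A D : Matrix n n ℂ) : rt (A*D*D*D*A*A) = rt (A*A*A*D*D*D) := by
  rw [rt_comm (A*D*D*D*A) A]
  simp only [← Matrix.mul_assoc]
  rw [rt_comm (A*A*D*D*D) A]
  simp only [← Matrix.mul_assoc]

theorem cw_ADDDAD (A D : Matrix n n ℂ) : rt (A*D*D*D*A*D) = rt (A*D*A*D*D*D) := by
  rw [rt_comm (A*D*D*D*A) D]
  simp only [← Matrix.mul_assoc]
  rw [rt_comm (D*A*D*D*D) A]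
  simp only [← Matrix.mul_assoc]

theorem cw_ADDDDA (A D : Matrix n n ℂ) : rt (A*D*D*D*D*A) = rt (A*A*D*D*D*D) := by
  rw [rt_comm (A*D*D*D*D) A]
  simp only [← Matrix.mul_assoc]

theorem cw_DAAAAA (A D : Matrix n n ℂ) : rt (D*A*A*A*A*A) = rt (A*A*A*A*A*D) := by
  rw [rt_comm (D*A*A*A*A) A]
  simp only [← Matrix.mul_assoc]
  rw [rt_comm (A*D*A*A*A) A]
  simp only [← Matrix.mul_assoc]
  rw [rt_comm (A*A*D*A*A) A]
  simp only [← Matrix.mul_assoc]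
  rw [rt_comm (A*A*A*D*A) A]
  simp only [← Matrix.mul_assoc]
  rw [rt_comm (A*A*A*A*D) A]
  simp only [← Matrix.mul_assoc]

theorem cw_DAAAAD (A D : Matrix n n ℂ) : rt (D*A*A*A*A*D) = rt (A*A*A*A*D*D) := by
  rw [rt_comm (D*A*A*A*A) D]
  simp only [← Matrix.mul_assoc]
  rw [rt_comm (D*D*A*A*A) A]
  simp only [← Matrix.mul_assoc]
  rw [rt_comm (A*D*D*A*A) A]
  simp only [← Matrix.mul_assoc]
  rw [rt_comm (A*A*D*D*A) A]
  simp only [← Matrix.mul_assoc]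
  rw [rt_comm (A*A*A*D*D) A]
  simp only [← Matrix.mul_assoc]

theorem cw_DAAADA (A D : Matrix n n ℂ) : rt (D*A*A*A*D*A) = rt (A*A*A*D*A*D) := by
  rw [rt_comm (D*A*A*A*D) A]
  simp only [← Matrix.mul_assoc]
  rw [rt_comm (A*D*A*A*A) D]
  simp only [← Matrix.mul_assoc]
  rw [rt_comm (D*A*D*A*A) A]
  simp only [← Matrix.mul_assoc]
  rw [rt_comm (A*D*A*D*A) A]
  simp only [← Matrix.mul_assoc]
  rw [rt_comm (A*A*D*A*D) A]
  simp only [← Matrix.mul_assoc]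

theorem cw_DAAADD (A D : Matrix n n ℂ) : rt (D*A*A*A*D*D) = rt (A*A*A*D*D*D) := by
  rw [rt_comm (D*A*A*A*D) D]
  simp only [← Matrix.mul_assoc]
  rw [rt_comm (D*D*A*A*A) D]
  simp only [← Matrix.mul_assoc]
  rw [rt_comm (D*D*D*A*A) A]
  simp only [← Matrix.mul_assoc]
  rw [rt_comm (A*D*D*D*A) A]
  simp only [← Matrix.mul_assoc]
  rw [rt_comm (A*A*D*D*D) A]
  simp only [← Matrix.mul_assoc]

theorem cw_DAADAA (A D : Matrix n n ℂ) : rt (D*A*A*D*A*A) = rt (A*A*D*A*A*D) := by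
  rw [rt_comm (D*A*A*D*A) A]
  simp only [← Matrix.mul_assoc]
  rw [rt_comm (A*D*A*A*D) A]
  simp only [← Matrix.mul_assoc]

theorem cw_DAADAD (A D : Matrix n n ℂ) : rt (D*A*A*D*A*D) = rt (A*A*D*A*D*D) := by
  rw [rt_comm (D*A*A*D*A) D]
  simp only [← Matrix.mul_assoc]
  rw [rt_comm (D*D*A*A*D) A]
  simp only [← Matrix.mul_assoc]
  rw [rt_comm (A*D*D*A*A) D]
  simp only [← Matrix.mul_assoc]
  rw [rt_comm (D*A*D*D*A) A]
  simp only [← Matrix.mul_assoc]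
  rw [rt_comm (A*D*A*D*D) A]
  simp only [← Matrix.mul_assoc]

theorem cw_DAADDA (A D : Matrix n n ℂ) : rt (D*A*A*D*D*A) = rt (A*A*D*D*A*D) := by
  rw [rt_comm (D*A*A*D*D) A]
  simp only [← Matrix.mul_assoc]
  rw [rt_comm (A*D*A*A*D) D]
  simp only [← Matrix.mul_assoc]
  rw [rt_comm (D*A*D*A*A) D]
  simp only [← Matrix.mul_assoc]
  rw [rt_comm (D*D*A*D*A) A]
  simp only [← Matrix.mul_assoc]
  rw [rt_comm (A*D*D*A*D) A]
  simp only [← Matrix.mul_assoc]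

theorem cw_DAADDD (A D : Matrix n n ℂ) : rt (D*A*A*D*D*D) = rt (A*A*D*D*D*D) := by
  rw [rt_comm (D*A*A*D*D) D]
  simp only [← Matrix.mul_assoc]
  rw [rt_comm (D*D*A*A*D) D]
  simp only [← Matrix.mul_assoc]
  rw [rt_comm (D*D*D*A*A) D]
  simp only [← Matrix.mul_assoc]
  rw [rt_comm (D*D*D*D*A) A]
  simp only [← Matrix.mul_assoc]
  rw [rt_comm (A*D*D*D*D) A]
  simp only [← Matrix.mul_assoc]

theorem cw_DADAAA (A D : Matrix n n ℂ) : rt (D*A*D*A*A*A) = rt (A*A*A*D*A*D) := by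
  rw [rt_comm (D*A*D*A*A) A]
  simp only [← Matrix.mul_assoc]
  rw [rt_comm (A*D*A*D*A) A]
  simp only [← Matrix.mul_assoc]
  rw [rt_comm (A*A*D*A*D) A]
  simp only [← Matrix.mul_assoc]

theorem cw_DADAAD (A D : Matrix n n ℂ) : rt (D*A*D*A*A*D) = rt (A*A*D*D*A*D) := by
  rw [rt_comm (D*A*D*A*A) D]
  simp only [← Matrix.mul_assoc]
  rw [rt_comm (D*D*A*D*A) A]
  simp only [← Matrix.mul_assoc]
  rw [rt_comm (A*D*D*A*D) A]
  simp only [← Matrix.mul_assoc]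

theorem cw_DADADA (A D : Matrix n n ℂ) : rt (D*A*D*A*D*A) = rt (A*D*A*D*A*D) := by
  rw [rt_comm (D*A*D*A*D) A]
  simp only [← Matrix.mul_assoc]

theorem cw_DADADD (A D : Matrix n n ℂ) : rt (D*A*D*A*D*D) = rt (A*D*A*D*D*D) := by
  rw [rt_comm (D*A*D*A*D) D]
  simp only [← Matrix.mul_assoc]
  rw [rt_comm (D*D*A*D*A) D]
  simp only [← Matrix.mul_assoc]
  rw [rt_comm (D*D*D*A*D) A]
  simp only [← Matrix.mul_assoc]
  rw [rt_comm (A*D*D*D*A) D]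
  simp only [← Matrix.mul_assoc]
  rw [rt_comm (D*A*D*D*D) A]
  simp only [← Matrix.mul_assoc]

theorem cw_DADDAA (A D : Matrix n n ℂ) : rt (D*A*D*D*A*A) = rt (A*A*D*A*D*D) := by
  rw [rt_comm (D*A*D*D*A) A]
  simp only [← Matrix.mul_assoc]
  rw [rt_comm (A*D*A*D*D) A]
  simp only [← Matrix.mul_assoc]

theorem cw_DADDAD (A D : Matrix n n ℂ) : rt (D*A*D*D*A*D) = rt (A*D*D*A*D*D) := by
  rw [rt_comm (D*A*D*D*A) D]
  simp only [← Matrix.mul_assoc]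
  rw [rt_comm (D*D*A*D*D) A]
  simp only [← Matrix.mul_assoc]

theorem cw_DADDDA (A D : Matrix n n ℂ) : rt (D*A*D*D*D*A) = rt (A*D*A*D*D*D) := by
  rw [rt_comm (D*A*D*D*D) A]
  simp only [← Matrix.mul_assoc]

theorem cw_DADDDD (A D : Matrix n n ℂ) : rt (D*A*D*D*D*D) = rt (A*D*D*D*D*D) := by
  rw [rt_comm (D*A*D*D*D) D]
  simp only [← Matrix.mul_assoc]
  rw [rt_comm (D*D*A*D*D) D]
  simp only [← Matrix.mul_assoc]
  rw [rt_comm (D*D*D*A*D) D]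
  simp only [← Matrix.mul_assoc]
  rw [rt_comm (D*D*D*D*A) D]
  simp only [← Matrix.mul_assoc]
  rw [rt_comm (D*D*D*D*D) A]
  simp only [← Matrix.mul_assoc]

theorem cw_DDAAAA (A D : Matrix n n ℂ) : rt (D*D*A*A*A*A) = rt (A*A*A*A*D*D) := by
  rw [rt_comm (D*D*A*A*A) A]
  simp only [← Matrix.mul_assoc]
  rw [rt_comm (A*D*D*A*A) A]
  simp only [← Matrix.mul_assoc]
  rw [rt_comm (A*A*D*D*A) A]
  simp only [← Matrix.mul_assoc]
  rw [rt_comm (A*A*A*D*D) A]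
  simp only [← Matrix.mul_assoc]

theorem cw_DDAAAD (A D : Matrix n n ℂ) : rt (D*D*A*A*A*D) = rt (A*A*A*D*D*D) := by
  rw [rt_comm (D*D*A*A*A) D]
  simp only [← Matrix.mul_assoc]
  rw [rt_comm (D*D*D*A*A) A]
  simp only [← Matrix.mul_assoc]
  rw [rt_comm (A*D*D*D*A) A]
  simp only [← Matrix.mul_assoc]
  rw [rt_comm (A*A*D*D*D) A]
  simp only [← Matrix.mul_assoc]

theorem cw_DDAADA (A D : Matrix n n ℂ) : rt (D*D*A*A*D*A) = rt (A*A*D*A*D*D) := by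
  rw [rt_comm (D*D*A*A*D) A]
  simp only [← Matrix.mul_assoc]
  rw [rt_comm (A*D*D*A*A) D]
  simp only [← Matrix.mul_assoc]
  rw [rt_comm (D*A*D*D*A) A]
  simp only [← Matrix.mul_assoc]
  rw [rt_comm (A*D*A*D*D) A]
  simp only [← Matrix.mul_assoc]

theorem cw_DDAADD (A D : Matrix n n ℂ) : rt (D*D*A*A*D*D) = rt (A*A*D*D*D*D) := by
  rw [rt_comm (D*D*A*A*D) D]
  simp only [← Matrix.mul_assoc]
  rw [rt_comm (D*D*D*A*A) D]
  simp only [← Matrix.mul_assoc]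
  rw [rt_comm (D*D*D*D*A) A]
  simp only [← Matrix.mul_assoc]
  rw [rt_comm (A*D*D*D*D) A]
  simp only [← Matrix.mul_assoc]

theorem cw_DDADAA (A D : Matrix n n ℂ) : rt (D*D*A*D*A*A) = rt (A*A*D*D*A*D) := by
  rw [rt_comm (D*D*A*D*A) A]
  simp only [← Matrix.mul_assoc]
  rw [rt_comm (A*D*D*A*D) A]
  simp only [← Matrix.mul_assoc]

theorem cw_DDADAD (A D : Matrix n n ℂ) : rt (D*D*A*D*A*D) = rt (A*D*A*D*D*D) := by
  rw [rt_comm (D*D*A*D*A) D]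
  simp only [← Matrix.mul_assoc]
  rw [rt_comm (D*D*D*A*D) A]
  simp only [← Matrix.mul_assoc]
  rw [rt_comm (A*D*D*D*A) D]
  simp only [← Matrix.mul_assoc]
  rw [rt_comm (D*A*D*D*D) A]
  simp only [← Matrix.mul_assoc]

theorem cw_DDADDA (A D : Matrix n n ℂ) : rt (D*D*A*D*D*A) = rt (A*D*D*A*D*D) := by
  rw [rt_comm (D*D*A*D*D) A]
  simp only [← Matrix.mul_assoc]

theorem cw_DDADDD (A D : Matrix n n ℂ) : rt (D*D*A*D*D*D) = rt (A*D*D*D*D*D) := by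
  rw [rt_comm (D*D*A*D*D) D]
  simp only [← Matrix.mul_assoc]
  rw [rt_comm (D*D*D*A*D) D]
  simp only [← Matrix.mul_assoc]
  rw [rt_comm (D*D*D*D*A) D]
  simp only [← Matrix.mul_assoc]
  rw [rt_comm (D*D*D*D*D) A]
  simp only [← Matrix.mul_assoc]

theorem cw_DDDAAA (A D : Matrix n n ℂ) : rt (D*D*D*A*A*A) = rt (A*A*A*D*D*D) := by
  rw [rt_comm (D*D*D*A*A) A]
  simp only [← Matrix.mul_assoc]
  rw [rt_comm (A*D*D*D*A) A]
  simp only [← Matrix.mul_assoc]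
  rw [rt_comm (A*A*D*D*D) A]
  simp only [← Matrix.mul_assoc]

theorem cw_DDDAAD (A D : Matrix n n ℂ) : rt (D*D*D*A*A*D) = rt (A*A*D*D*D*D) := by
  rw [rt_comm (D*D*D*A*A) D]
  simp only [← Matrix.mul_assoc]
  rw [rt_comm (D*D*D*D*A) A]
  simp only [← Matrix.mul_assoc]
  rw [rt_comm (A*D*D*D*D) A]
  simp only [← Matrix.mul_assoc]

theorem cw_DDDADA (A D : Matrix n n ℂ) : rt (D*D*D*A*D*A) = rt (A*D*A*D*D*D) := by
  rw [rt_comm (D*D*D*A*D) A]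
  simp only [← Matrix.mul_assoc]
  rw [rt_comm (A*D*D*D*A) D]
  simp only [← Matrix.mul_assoc]
  rw [rt_comm (D*A*D*D*D) A]
  simp only [← Matrix.mul_assoc]

theorem cw_DDDADD (A D : Matrix n n ℂ) : rt (D*D*D*A*D*D) = rt (A*D*D*D*D*D) := by
  rw [rt_comm (D*D*D*A*D) D]
  simp only [← Matrix.mul_assoc]
  rw [rt_comm (D*D*D*D*A) D]
  simp only [← Matrix.mul_assoc]
  rw [rt_comm (D*D*D*D*D) A]
  simp only [← Matrix.mul_assoc]

theorem cw_DDDDAA (A D : Matrix n n ℂ) : rt (D*D*D*D*A*A) = rt (A*A*D*D*D*D) := by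
  rw [rt_comm (D*D*D*D*A) A]
  simp only [← Matrix.mul_assoc]
  rw [rt_comm (A*D*D*D*D) A]
  simp only [← Matrix.mul_assoc]

theorem cw_DDDDAD (A D : Matrix n n ℂ) : rt (D*D*D*D*A*D) = rt (A*D*D*D*D*D) := by
  rw [rt_comm (D*D*D*D*A) D]
  simp only [← Matrix.mul_assoc]
  rw [rt_comm (D*D*D*D*D) A]
  simp only [← Matrix.mul_assoc]

theorem cw_DDDDDA (A D : Matrix n n ℂ) : rt (D*D*D*D*D*A) = rt (A*D*D*D*D*D) := by
  rw [rt_comm (D*D*D*D*D) A]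
  simp only [← Matrix.mul_assoc]

end Pool.Agent.Lib_helper98.Renyi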