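import Mathlib
import Pool.Agent.Lib_helper98.RenyiWords

/-!
# Integer `α`: the inequality for all pairs `(A, D)`
-/

set_option autoImplicit false
set_option linter.unusedSectionVars false
set_option linter.unusedSimpArgs false

open scoped Kronecker ComplexOrder

namespace Pool.Agent.Lib_helper98.Renyi

open Matrix

section

variable {n : Type*} [Fintype n] [DecidableEq n]

theorem rt_nonneg {M : Matrix n n ℂ} (hM : M.PosSemidef) : 0 ≤ rt M :=
  (Complex.le_def.1 hM.trace_nonneg).1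

theorem rt_mul_nonneg {X Y : Matrix n n ℂ} (hX : X.PosSemidef) (hY : Y.PosSemidef) :
    0 ≤ rt (X * Y) := by
  have h1 : X = mpow X (1 / 2) * mpow X (1 / 2) := by
    rw [← mpow_add hX]
    norm_num
    exact (mpow_one hX).symm
  have h2 : rt (X * Y) = rt (mpow X (1 / 2) * Y * mpow X (1 / 2)) := by
    conv_lhs => rw [h1]
    rw [Matrix.mul_assoc, rt_comm]
  rw [h2]
  exact rt_nonneg (sandwich_posSemidef hX hY _)

theorem rt_mul_conj_nonneg (M : Matrix n n ℂ) : 0 ≤ rt (M * Mᴴ) :=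
  rt_nonneg (posSemidef_self_mul_conjTranspose M)

theorem psd_conj {Y : Matrix n n ℂ} (hY : Y.PosSemidef) (Z : Matrix n n ℂ) :
    (Z * Y * Zᴴ).PosSemidef := hY.mul_mul_conjTranspose_same Z


theorem trPow_nat {k : ℕ} (hk : k ≠ 0) {M : Matrix n n ℂ} (hM : M.PosSemidef) :
    trPow (k : ℝ) M = rt (M ^ k) := by
  rw [trPow, mpow_natCast hM hk, rt]

/-- expansions simp set -/
theorem Gfun_three {A D : Matrix n n ℂ} (hA : A.PosSemidef) (hP : (A + D).PosSemidef)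
    (hQ : (A - D).PosSemidef) : Gfun 3 A D = 3 * rt (A * D * D) := by
  have h3 : (3 : ℝ) = ((3 : ℕ) : ℝ) := by norm_num
  rw [Gfun, h3, trPow_nat (by norm_num) hA, trPow_nat (by norm_num) hP,
    trPow_nat (by norm_num) hQ]
  simp only [pow_succ, pow_zero, Matrix.one_mul, Matrix.mul_add, Matrix.add_mul, Matrix.mul_sub,
    Matrix.sub_mul, ← Matrix.mul_assoc, rt_add, rt_sub]
  simp only [cw_ADA, cw_DAA, cw_DAD, cw_DDA]
  push_cast
  ring

theorem Gfun_four {A D : Matrix n n ℂ} (hA : A.PosSemidef) (hP : (A + D).PosSemidef)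
    (hQ : (A - D).PosSemidef) : Gfun 4 A D =
      4 * rt (A * A * D * D) + 2 * rt (A * D * A * D) + rt (D * D * D * D) := by
  have h3 : (4 : ℝ) = ((4 : ℕ) : ℝ) := by norm_num
  rw [Gfun, h3, trPow_nat (by norm_num) hA, trPow_nat (by norm_num) hP,
    trPow_nat (by norm_num) hQ]
  simp only [pow_succ, pow_zero, Matrix.one_mul, Matrix.mul_add, Matrix.add_mul, Matrix.mul_sub,
    Matrix.sub_mul, ← Matrix.mul_assoc, rt_add, rt_sub]
  simp only [cw_AADA, cw_ADAA, cw_ADDA, cw_DAAA, cw_DAAD, cw_DADA, cw_DADD, cw_DDAA, cw_DDAD, cw_DDDA]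
  push_cast
  ring

theorem Gfun_five {A D : Matrix n n ℂ} (hA : A.PosSemidef) (hP : (A + D).PosSemidef)
    (hQ : (A - D).PosSemidef) : Gfun 5 A D =
      5 * rt (A * A * A * D * D) + 5 * rt (A * A * D * A * D) + 5 * rt (A * D * D * D * D) := by
  have h3 : (5 : ℝ) = ((5 : ℕ) : ℝ) := by norm_num
  rw [Gfun, h3, trPow_nat (by norm_num) hA, trPow_nat (by norm_num) hP,
    trPow_nat (by norm_num) hQ]
  simp only [pow_succ, pow_zero, Matrix.one_mul, Matrix.mul_add, Matrix.add_mul, Matrix.mul_sub,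
    Matrix.sub_mul, ← Matrix.mul_assoc, rt_add, rt_sub]
  simp only [cw_AAADA, cw_AADAA, cw_AADDA, cw_ADAAA, cw_ADAAD, cw_ADADA, cw_ADDAA, cw_ADDAD, cw_ADDDA, cw_DAAAA, cw_DAAAD, cw_DAADA, cw_DAADD, cw_DADAA, cw_DADAD, cw_DADDA, cw_DADDD, cw_DDAAA, cw_DDAAD, cw_DDADA, cw_DDADD, cw_DDDAA, cw_DDDAD, cw_DDDDA]
  push_cast
  ring

set_option maxHeartbeats 4000000 in
theorem Gfun_six {A D : Matrix n n ℂ} (hA : A.PosSemidef) (hP : (A + D).PosSemidef)
    (hQ : (A - D).PosSemidef) : Gfun 6 A D =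
      6 * rt (A * A * A * A * D * D) + 6 * rt (A * A * A * D * A * D) +
      3 * rt (A * A * D * A * A * D) + 6 * rt (A * A * D * D * D * D) +
      6 * rt (A * D * A * D * D * D) + 3 * rt (A * D * D * A * D * D) +
      rt (D * D * D * D * D * D) := by
  have h3 : (6 : ℝ) = ((6 : ℕ) : ℝ) := by norm_num
  rw [Gfun, h3, trPow_nat (by norm_num) hA, trPow_nat (by norm_num) hP,
    trPow_nat (by norm_num) hQ]
  simp only [pow_succ, pow_zero, Matrix.one_mul, Matrix.mul_add, Matrix.add_mul, Matrix.mul_sub,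
    Matrix.sub_mul, ← Matrix.mul_assoc, rt_add, rt_sub]
  simp only [cw_AAAADA, cw_AAADAA, cw_AAADDA, cw_AADAAA, cw_AADADA, cw_AADDAA, cw_AADDDA, cw_ADAAAA, cw_ADAAAD, cw_ADAADA, cw_ADAADD, cw_ADADAA, cw_ADADDA, cw_ADDAAA, cw_ADDAAD, cw_ADDADA, cw_ADDDAA, cw_ADDDAD, cw_ADDDDA, cw_DAAAAA, cw_DAAAAD, cw_DAAADA, cw_DAAADD, cw_DAADAA, cw_DAADAD, cw_DAADDA, cw_DAADDD, cw_DADAAA, cw_DADAAD, cw_DADADA, cw_DADADD, cw_DADDAA, cw_DADDAD, cw_DADDDA, cw_DADDDD, cw_DDAAAA, cw_DDAAAD, cw_DDAADA, cw_DDAADD, cw_DDADAA, cw_DDADAD, cw_DDADDA, cw_DDADDD, cw_DDDAAA, cw_DDDAAD, cw_DDDADA, cw_DDDADD, cw_DDDDAA, cw_DDDDAD, cw_DDDDDA]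
  push_cast
  ring

end

end Pool.Agent.Lib_helper98.Renyi
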