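import Mathlib
import Pool.Agent.Lib_helper98.RenyiInt

/-!
# Integer `α`: trace inequalities (generated)
-/

set_option autoImplicit false
set_option linter.unusedSectionVars false
set_option linter.unusedSimpArgs false
set_option linter.unusedVariables false
set_option maxHeartbeats 4000000

open scoped Kronecker ComplexOrder

namespace Pool.Agent.Lib_helper98.Renyi

open Matrix

section

variable {n : Type*} [Fintype n] [DecidableEq n] {A D : Matrix n n ℂ}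

theorem im_ADD (hA : Aᴴ = A) (hD : Dᴴ = D) : (trace (A * D * D)).im = 0 := by
  have h1 : star (trace (A * D * D)) = trace (D * D * A) := by
    rw [← trace_conjTranspose]
    simp only [conjTranspose_mul, hA, hD, ← Matrix.mul_assoc]
  have h2 : trace (D * D * A) = trace (A * D * D) := by
    rw [Matrix.trace_mul_comm (D * D) A]
    simp only [← Matrix.mul_assoc]
  rw [h2] at h1
  exact Complex.conj_eq_iff_im.1 h1

theorem im_AADD (hA : Aᴴ = A) (hD : Dᴴ = D) : (trace (A * A * D * D)).im = 0 := by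
  have h1 : star (trace (A * A * D * D)) = trace (D * D * A * A) := by
    rw [← trace_conjTranspose]
    simp only [conjTranspose_mul, hA, hD, ← Matrix.mul_assoc]
  have h2 : trace (D * D * A * A) = trace (A * A * D * D) := by
    rw [Matrix.trace_mul_comm (D * D * A) A]
    simp only [← Matrix.mul_assoc]
    rw [Matrix.trace_mul_comm (A * D * D) A]
    simp only [← Matrix.mul_assoc]
  rw [h2] at h1
  exact Complex.conj_eq_iff_im.1 h1

theorem im_ADAD (hA : Aᴴ = A) (hD : Dᴴ = D) : (trace (A * D * A * D)).im = 0 := by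
  have h1 : star (trace (A * D * A * D)) = trace (D * A * D * A) := by
    rw [← trace_conjTranspose]
    simp only [conjTranspose_mul, hA, hD, ← Matrix.mul_assoc]
  have h2 : trace (D * A * D * A) = trace (A * D * A * D) := by
    rw [Matrix.trace_mul_comm (D * A * D) A]
    simp only [← Matrix.mul_assoc]
  rw [h2] at h1
  exact Complex.conj_eq_iff_im.1 h1

theorem im_DDDD (hA : Aᴴ = A) (hD : Dᴴ = D) : (trace (D * D * D * D)).im = 0 := by
  have h1 : star (trace (D * D * D * D)) = trace (D * D * D * D) := by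
    rw [← trace_conjTranspose]
    simp only [conjTranspose_mul, hA, hD, ← Matrix.mul_assoc]
  have h2 : trace (D * D * D * D) = trace (D * D * D * D) := by
    rfl
  rw [h2] at h1
  exact Complex.conj_eq_iff_im.1 h1

theorem im_AAADD (hA : Aᴴ = A) (hD : Dᴴ = D) : (trace (A * A * A * D * D)).im = 0 := by
  have h1 : star (trace (A * A * A * D * D)) = trace (D * D * A * A * A) := by
    rw [← trace_conjTranspose]
    simp only [conjTranspose_mul, hA, hD, ← Matrix.mul_assoc]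
  have h2 : trace (D * D * A * A * A) = trace (A * A * A * D * D) := by
    rw [Matrix.trace_mul_comm (D * D * A * A) A]
    simp only [← Matrix.mul_assoc]
    rw [Matrix.trace_mul_comm (A * D * D * A) A]
    simp only [← Matrix.mul_assoc]
    rw [Matrix.trace_mul_comm (A * A * D * D) A]
    simp only [← Matrix.mul_assoc]
  rw [h2] at h1
  exact Complex.conj_eq_iff_im.1 h1

theorem im_AADAD (hA : Aᴴ = A) (hD : Dᴴ = D) : (trace (A * A * D * A * D)).im = 0 := by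
  have h1 : star (trace (A * A * D * A * D)) = trace (D * A * D * A * A) := by
    rw [← trace_conjTranspose]
    simp only [conjTranspose_mul, hA, hD, ← Matrix.mul_assoc]
  have h2 : trace (D * A * D * A * A) = trace (A * A * D * A * D) := by
    rw [Matrix.trace_mul_comm (D * A * D * A) A]
    simp only [← Matrix.mul_assoc]
    rw [Matrix.trace_mul_comm (A * D * A * D) A]
    simp only [← Matrix.mul_assoc]
  rw [h2] at h1
  exact Complex.conj_eq_iff_im.1 h1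

theorem im_ADDDD (hA : Aᴴ = A) (hD : Dᴴ = D) : (trace (A * D * D * D * D)).im = 0 := by
  have h1 : star (trace (A * D * D * D * D)) = trace (D * D * D * D * A) := by
    rw [← trace_conjTranspose]
    simp only [conjTranspose_mul, hA, hD, ← Matrix.mul_assoc]
  have h2 : trace (D * D * D * D * A) = trace (A * D * D * D * D) := by
    rw [Matrix.trace_mul_comm (D * D * D * D) A]
    simp only [← Matrix.mul_assoc]
  rw [h2] at h1
  exact Complex.conj_eq_iff_im.1 h1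

theorem im_AAAADD (hA : Aᴴ = A) (hD : Dᴴ = D) : (trace (A * A * A * A * D * D)).im = 0 := by
  have h1 : star (trace (A * A * A * A * D * D)) = trace (D * D * A * A * A * A) := by
    rw [← trace_conjTranspose]
    simp only [conjTranspose_mul, hA, hD, ← Matrix.mul_assoc]
  have h2 : trace (D * D * A * A * A * A) = trace (A * A * A * A * D * D) := by
    rw [Matrix.trace_mul_comm (D * D * A * A * A) A]
    simp only [← Matrix.mul_assoc]
    rw [Matrix.trace_mul_comm (A * D * D * A * A) A]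
    simp only [← Matrix.mul_assoc]
    rw [Matrix.trace_mul_comm (A * A * D * D * A) A]
    simp only [← Matrix.mul_assoc]
    rw [Matrix.trace_mul_comm (A * A * A * D * D) A]
    simp only [← Matrix.mul_assoc]
  rw [h2] at h1
  exact Complex.conj_eq_iff_im.1 h1

theorem im_AAADAD (hA : Aᴴ = A) (hD : Dᴴ = D) : (trace (A * A * A * D * A * D)).im = 0 := by
  have h1 : star (trace (A * A * A * D * A * D)) = trace (D * A * D * A * A * A) := by
    rw [← trace_conjTranspose]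
    simp only [conjTranspose_mul, hA, hD, ← Matrix.mul_assoc]
  have h2 : trace (D * A * D * A * A * A) = trace (A * A * A * D * A * D) := by
    rw [Matrix.trace_mul_comm (D * A * D * A * A) A]
    simp only [← Matrix.mul_assoc]
    rw [Matrix.trace_mul_comm (A * D * A * D * A) A]
    simp only [← Matrix.mul_assoc]
    rw [Matrix.trace_mul_comm (A * A * D * A * D) A]
    simp only [← Matrix.mul_assoc]
  rw [h2] at h1
  exact Complex.conj_eq_iff_im.1 h1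

theorem im_AADAAD (hA : Aᴴ = A) (hD : Dᴴ = D) : (trace (A * A * D * A * A * D)).im = 0 := by
  have h1 : star (trace (A * A * D * A * A * D)) = trace (D * A * A * D * A * A) := by
    rw [← trace_conjTranspose]
    simp only [conjTranspose_mul, hA, hD, ← Matrix.mul_assoc]
  have h2 : trace (D * A * A * D * A * A) = trace (A * A * D * A * A * D) := by
    rw [Matrix.trace_mul_comm (D * A * A * D * A) A]
    simp only [← Matrix.mul_assoc]
    rw [Matrix.trace_mul_comm (A * D * A * A * D) A]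
    simp only [← Matrix.mul_assoc]
  rw [h2] at h1
  exact Complex.conj_eq_iff_im.1 h1

theorem im_AADDDD (hA : Aᴴ = A) (hD : Dᴴ = D) : (trace (A * A * D * D * D * D)).im = 0 := by
  have h1 : star (trace (A * A * D * D * D * D)) = trace (D * D * D * D * A * A) := by
    rw [← trace_conjTranspose]
    simp only [conjTranspose_mul, hA, hD, ← Matrix.mul_assoc]
  have h2 : trace (D * D * D * D * A * A) = trace (A * A * D * D * D * D) := by
    rw [Matrix.trace_mul_comm (D * D * D * D * A) A]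
    simp only [← Matrix.mul_assoc]
    rw [Matrix.trace_mul_comm (A * D * D * D * D) A]
    simp only [← Matrix.mul_assoc]
  rw [h2] at h1
  exact Complex.conj_eq_iff_im.1 h1

theorem im_ADADDD (hA : Aᴴ = A) (hD : Dᴴ = D) : (trace (A * D * A * D * D * D)).im = 0 := by
  have h1 : star (trace (A * D * A * D * D * D)) = trace (D * D * D * A * D * A) := by
    rw [← trace_conjTranspose]
    simp only [conjTranspose_mul, hA, hD, ← Matrix.mul_assoc]
  have h2 : trace (D * D * D * A * D * A) = trace (A * D * A * D * D * D) := by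
    rw [Matrix.trace_mul_comm (D * D * D * A * D) A]
    simp only [← Matrix.mul_assoc]
    rw [Matrix.trace_mul_comm (A * D * D * D * A) D]
    simp only [← Matrix.mul_assoc]
    rw [Matrix.trace_mul_comm (D * A * D * D * D) A]
    simp only [← Matrix.mul_assoc]
  rw [h2] at h1
  exact Complex.conj_eq_iff_im.1 h1

theorem im_ADDADD (hA : Aᴴ = A) (hD : Dᴴ = D) : (trace (A * D * D * A * D * D)).im = 0 := by
  have h1 : star (trace (A * D * D * A * D * D)) = trace (D * D * A * D * D * A) := by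
    rw [← trace_conjTranspose]
    simp only [conjTranspose_mul, hA, hD, ← Matrix.mul_assoc]
  have h2 : trace (D * D * A * D * D * A) = trace (A * D * D * A * D * D) := by
    rw [Matrix.trace_mul_comm (D * D * A * D * D) A]
    simp only [← Matrix.mul_assoc]
  rw [h2] at h1
  exact Complex.conj_eq_iff_im.1 h1

theorem im_DDDDDD (hA : Aᴴ = A) (hD : Dᴴ = D) : (trace (D * D * D * D * D * D)).im = 0 := by
  have h1 : star (trace (D * D * D * D * D * D)) = trace (D * D * D * D * D * D) := by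
    rw [← trace_conjTranspose]
    simp only [conjTranspose_mul, hA, hD, ← Matrix.mul_assoc]
  have h2 : trace (D * D * D * D * D * D) = trace (D * D * D * D * D * D) := by
    rfl
  rw [h2] at h1
  exact Complex.conj_eq_iff_im.1 h1

theorem k4_xy (hA : A.PosSemidef) (hD : D.IsHermitian) (hP : (A + D).PosSemidef) (hQ : (A - D).PosSemidef) :
    rt (A * D * A * D) ≤ rt (A * A * D * D) := by
  have hA' : Aᴴ = A := hA.1
  have hD' : Dᴴ = D := hD
  have h := rt_mul_conj_nonneg (A * D - D * A)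
  simp only [conjTranspose_add, conjTranspose_sub, conjTranspose_mul, hA', hD', Matrix.mul_add, Matrix.add_mul, Matrix.mul_sub, Matrix.sub_mul, ← Matrix.mul_assoc, rt_add, rt_sub] at h
  simp only [cw_AADA, cw_ADAA, cw_ADDA, cw_DAAA, cw_DAAD, cw_DADA, cw_DADD, cw_DDAA, cw_DDAD, cw_DDDA] at h
  linarith

theorem k4_yz (hA : A.PosSemidef) (hD : D.IsHermitian) (hP : (A + D).PosSemidef) (hQ : (A - D).PosSemidef) :
    rt (D * D * D * D) ≤ rt (A * D * A * D) := by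
  have hA' : Aᴴ = A := hA.1
  have hD' : Dᴴ = D := hD
  have h := rt_mul_nonneg hQ (psd_conj hP D)
  simp only [conjTranspose_add, conjTranspose_sub, conjTranspose_mul, hA', hD', Matrix.mul_add, Matrix.add_mul, Matrix.mul_sub, Matrix.sub_mul, ← Matrix.mul_assoc, rt_add, rt_sub] at h
  simp only [cw_AADA, cw_ADAA, cw_ADDA, cw_DAAA, cw_DAAD, cw_DADA, cw_DADD, cw_DDAA, cw_DDAD, cw_DDDA] at h
  linarith

theorem k5_12 (hA : A.PosSemidef) (hD : D.IsHermitian) (hP : (A + D).PosSemidef) (hQ : (A - D).PosSemidef) :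
    rt (A * A * D * A * D) ≤ rt (A * A * A * D * D) := by
  have hA' : Aᴴ = A := hA.1
  have hD' : Dᴴ = D := hD
  have h := rt_mul_nonneg hA (posSemidef_self_mul_conjTranspose (A * D - D * A))
  simp only [conjTranspose_add, conjTranspose_sub, conjTranspose_mul, hA', hD', Matrix.mul_add, Matrix.add_mul, Matrix.mul_sub, Matrix.sub_mul, ← Matrix.mul_assoc, rt_add, rt_sub] at h
  simp only [cw_AAADA, cw_AADAA, cw_AADDA, cw_ADAAA, cw_ADAAD, cw_ADADA, cw_ADDAA, cw_ADDAD, cw_ADDDA, cw_DAAAA, cw_DAAAD, cw_DAADA, cw_DAADD, cw_DADAA, cw_DADAD, cw_DADDA, cw_DADDD, cw_DDAAA, cw_DDAAD, cw_DDADA, cw_DDADD, cw_DDDAA, cw_DDDAD, cw_DDDDA] at h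
  linarith

theorem k5_23 (hA : A.PosSemidef) (hD : D.IsHermitian) (hP : (A + D).PosSemidef) (hQ : (A - D).PosSemidef) :
    rt (A * D * D * D * D) ≤ rt (A * A * D * A * D) := by
  have hA' : Aᴴ = A := hA.1
  have hD' : Dᴴ = D := hD
  have h := rt_mul_nonneg (posSemidef_self_mul_conjTranspose (A + D)) (psd_conj hQ D)
  have h' := rt_mul_nonneg (posSemidef_self_mul_conjTranspose (A - D)) (psd_conj hP D)
  simp only [conjTranspose_add, conjTranspose_sub, conjTranspose_mul, hA', hD', Matrix.mul_add, Matrix.add_mul, Matrix.mul_sub, Matrix.sub_mul, ← Matrix.mul_assoc, rt_add, rt_sub] at h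
  simp only [cw_AAADA, cw_AADAA, cw_AADDA, cw_ADAAA, cw_ADAAD, cw_ADADA, cw_ADDAA, cw_ADDAD, cw_ADDDA, cw_DAAAA, cw_DAAAD, cw_DAADA, cw_DAADD, cw_DADAA, cw_DADAD, cw_DADDA, cw_DADDD, cw_DDAAA, cw_DDAAD, cw_DDADA, cw_DDADD, cw_DDDAA, cw_DDDAD, cw_DDDDA] at h
  simp only [conjTranspose_add, conjTranspose_sub, conjTranspose_mul, hA', hD', Matrix.mul_add, Matrix.add_mul, Matrix.mul_sub, Matrix.sub_mul, ← Matrix.mul_assoc, rt_add, rt_sub] at h'
  simp only [cw_AAADA, cw_AADAA, cw_AADDA, cw_ADAAA, cw_ADAAD, cw_ADADA, cw_ADDAA, cw_ADDAD, cw_ADDDA, cw_DAAAA, cw_DAAAD, cw_DAADA, cw_DAADD, cw_DADAA, cw_DADAD, cw_DADDA, cw_DADDD, cw_DDAAA, cw_DDAAD, cw_DDADA, cw_DDADD, cw_DDDAA, cw_DDDAD, cw_DDDDA] at h'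
  linarith

theorem k6_x23 (hA : A.PosSemidef) (hD : D.IsHermitian) (hP : (A + D).PosSemidef) (hQ : (A - D).PosSemidef) :
    rt (A * A * D * A * A * D) ≤ rt (A * A * A * D * A * D) := by
  have hA' : Aᴴ = A := hA.1
  have hD' : Dᴴ = D := hD
  have h := rt_mul_nonneg hA (psd_conj hA (A * D - D * A))
  simp only [conjTranspose_add, conjTranspose_sub, conjTranspose_mul, hA', hD', Matrix.mul_add, Matrix.add_mul, Matrix.mul_sub, Matrix.sub_mul, ← Matrix.mul_assoc, rt_add, rt_sub] at h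
  simp only [cw_AAAADA, cw_AAADAA, cw_AAADDA, cw_AADAAA, cw_AADADA, cw_AADDAA, cw_AADDDA, cw_ADAAAA, cw_ADAAAD, cw_ADAADA, cw_ADAADD, cw_ADADAA, cw_ADADDA, cw_ADDAAA, cw_ADDAAD, cw_ADDADA, cw_ADDDAA, cw_ADDDAD, cw_ADDDDA, cw_DAAAAA, cw_DAAAAD, cw_DAAADA, cw_DAAADD, cw_DAADAA, cw_DAADAD, cw_DAADDA, cw_DAADDD, cw_DADAAA, cw_DADAAD, cw_DADADA, cw_DADADD, cw_DADDAA, cw_DADDAD, cw_DADDDA, cw_DADDDD, cw_DDAAAA, cw_DDAAAD, cw_DDAADA, cw_DDAADD, cw_DDADAA, cw_DDADAD, cw_DDADDA, cw_DDADDD, cw_DDDAAA, cw_DDDAAD, cw_DDDADA, cw_DDDADD, cw_DDDDAA, cw_DDDDAD, cw_DDDDDA] at h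
  linarith

theorem k6_x12 (hA : A.PosSemidef) (hD : D.IsHermitian) (hP : (A + D).PosSemidef) (hQ : (A - D).PosSemidef) :
    rt (A * A * A * D * A * D) ≤ rt (A * A * A * A * D * D) := by
  have hA' : Aᴴ = A := hA.1
  have hD' : Dᴴ = D := hD
  have h := rt_mul_nonneg hA (psd_conj hA (A * D - D * A))
  have h' := rt_mul_conj_nonneg (A * (A * D - D * A))
  simp only [conjTranspose_add, conjTranspose_sub, conjTranspose_mul, hA', hD', Matrix.mul_add, Matrix.add_mul, Matrix.mul_sub, Matrix.sub_mul, ← Matrix.mul_assoc, rt_add, rt_sub] at h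
  simp only [cw_AAAADA, cw_AAADAA, cw_AAADDA, cw_AADAAA, cw_AADADA, cw_AADDAA, cw_AADDDA, cw_ADAAAA, cw_ADAAAD, cw_ADAADA, cw_ADAADD, cw_ADADAA, cw_ADADDA, cw_ADDAAA, cw_ADDAAD, cw_ADDADA, cw_ADDDAA, cw_ADDDAD, cw_ADDDDA, cw_DAAAAA, cw_DAAAAD, cw_DAAADA, cw_DAAADD, cw_DAADAA, cw_DAADAD, cw_DAADDA, cw_DAADDD, cw_DADAAA, cw_DADAAD, cw_DADADA, cw_DADADD, cw_DADDAA, cw_DADDAD, cw_DADDDA, cw_DADDDD, cw_DDAAAA, cw_DDAAAD, cw_DDAADA, cw_DDAADD, cw_DDADAA, cw_DDADAD, cw_DDADDA, cw_DDADDD, cw_DDDAAA, cw_DDDAAD, cw_DDDADA, cw_DDDADD, cw_DDDDAA, cw_DDDDAD, cw_DDDDDA] at h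
  simp only [conjTranspose_add, conjTranspose_sub, conjTranspose_mul, hA', hD', Matrix.mul_add, Matrix.add_mul, Matrix.mul_sub, Matrix.sub_mul, ← Matrix.mul_assoc, rt_add, rt_sub] at h'
  simp only [cw_AAAADA, cw_AAADAA, cw_AAADDA, cw_AADAAA, cw_AADADA, cw_AADDAA, cw_AADDDA, cw_ADAAAA, cw_ADAAAD, cw_ADAADA, cw_ADAADD, cw_ADADAA, cw_ADADDA, cw_ADDAAA, cw_ADDAAD, cw_ADDADA, cw_ADDDAA, cw_ADDDAD, cw_ADDDDA, cw_DAAAAA, cw_DAAAAD, cw_DAAADA, cw_DAAADD, cw_DAADAA, cw_DAADAD, cw_DAADDA, cw_DAADDD, cw_DADAAA, cw_DADAAD, cw_DADADA, cw_DADADD, cw_DADDAA, cw_DADDAD, cw_DADDDA, cw_DADDDD, cw_DDAAAA, cw_DDAAAD, cw_DDAADA, cw_DDAADD, cw_DDADAA, cw_DDADAD, cw_DDADDA, cw_DDADDD, cw_DDDAAA, cw_DDDAAD, cw_DDDADA, cw_DDDADD, cw_DDDDAA, cw_DDDDAD, cw_DDDDDA] at h'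
  linarith

theorem k6_y13 (hA : A.PosSemidef) (hD : D.IsHermitian) (hP : (A + D).PosSemidef) (hQ : (A - D).PosSemidef) :
    rt (A * D * D * A * D * D) ≤ rt (A * A * D * D * D * D) := by
  have hA' : Aᴴ = A := hA.1
  have hD' : Dᴴ = D := hD
  have h := rt_mul_conj_nonneg (A * D * D - D * D * A)
  simp only [conjTranspose_add, conjTranspose_sub, conjTranspose_mul, hA', hD', Matrix.mul_add, Matrix.add_mul, Matrix.mul_sub, Matrix.sub_mul, ← Matrix.mul_assoc, rt_add, rt_sub] at h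
  simp only [cw_AAAADA, cw_AAADAA, cw_AAADDA, cw_AADAAA, cw_AADADA, cw_AADDAA, cw_AADDDA, cw_ADAAAA, cw_ADAAAD, cw_ADAADA, cw_ADAADD, cw_ADADAA, cw_ADADDA, cw_ADDAAA, cw_ADDAAD, cw_ADDADA, cw_ADDDAA, cw_ADDDAD, cw_ADDDDA, cw_DAAAAA, cw_DAAAAD, cw_DAAADA, cw_DAAADD, cw_DAADAA, cw_DAADAD, cw_DAADDA, cw_DAADDD, cw_DADAAA, cw_DADAAD, cw_DADADA, cw_DADADD, cw_DADDAA, cw_DADDAD, cw_DADDDA, cw_DADDDD, cw_DDAAAA, cw_DDAAAD, cw_DDAADA, cw_DDAADD, cw_DDADAA, cw_DDADAD, cw_DDADDA, cw_DDADDD, cw_DDDAAA, cw_DDDAAD, cw_DDDADA, cw_DDDADD, cw_DDDDAA, cw_DDDDAD, cw_DDDDDA] at h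
  linarith

theorem k6_E (hA : A.PosSemidef) (hD : D.IsHermitian) (hP : (A + D).PosSemidef) (hQ : (A - D).PosSemidef) :
    0 ≤ 2 * rt (A * A * D * D * D * D) - 8 * rt (A * D * A * D * D * D) + 6 * rt (A * D * D * A * D * D) := by
  have hA' : Aᴴ = A := hA.1
  have hD' : Dᴴ = D := hD
  have h := rt_mul_conj_nonneg (D * D * A - (D * A * D + D * A * D) + A * D * D)
  simp only [conjTranspose_add, conjTranspose_sub, conjTranspose_mul, hA', hD', Matrix.mul_add, Matrix.add_mul, Matrix.mul_sub, Matrix.sub_mul, ← Matrix.mul_assoc, rt_add, rt_sub] at h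
  simp only [cw_AAAADA, cw_AAADAA, cw_AAADDA, cw_AADAAA, cw_AADADA, cw_AADDAA, cw_AADDDA, cw_ADAAAA, cw_ADAAAD, cw_ADAADA, cw_ADAADD, cw_ADADAA, cw_ADADDA, cw_ADDAAA, cw_ADDAAD, cw_ADDADA, cw_ADDDAA, cw_ADDDAD, cw_ADDDDA, cw_DAAAAA, cw_DAAAAD, cw_DAAADA, cw_DAAADD, cw_DAADAA, cw_DAADAD, cw_DAADDA, cw_DAADDD, cw_DADAAA, cw_DADAAD, cw_DADADA, cw_DADADD, cw_DADDAA, cw_DADDAD, cw_DADDDA, cw_DADDDD, cw_DDAAAA, cw_DDAAAD, cw_DDAADA, cw_DDAADD, cw_DDADAA, cw_DDADAD, cw_DDADDA, cw_DDADDD, cw_DDDAAA, cw_DDDAAD, cw_DDDADA, cw_DDDADD, cw_DDDDAA, cw_DDDDAD, cw_DDDDDA] at h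
  linarith

theorem k6_c1 (hA : A.PosSemidef) (hD : D.IsHermitian) (hP : (A + D).PosSemidef) (hQ : (A - D).PosSemidef) :
    rt (A * D * A * D * D * D) ≤ rt (A * A * A * D * A * D) := by
  have hA' : Aᴴ = A := hA.1
  have hD' : Dᴴ = D := hD
  have h := rt_mul_nonneg hP (psd_conj hQ (A * D))
  have h' := rt_mul_nonneg hQ (psd_conj hP (A * D))
  simp only [conjTranspose_add, conjTranspose_sub, conjTranspose_mul, hA', hD', Matrix.mul_add, Matrix.add_mul, Matrix.mul_sub, Matrix.sub_mul, ← Matrix.mul_assoc, rt_add, rt_sub] at h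
  simp only [cw_AAAADA, cw_AAADAA, cw_AAADDA, cw_AADAAA, cw_AADADA, cw_AADDAA, cw_AADDDA, cw_ADAAAA, cw_ADAAAD, cw_ADAADA, cw_ADAADD, cw_ADADAA, cw_ADADDA, cw_ADDAAA, cw_ADDAAD, cw_ADDADA, cw_ADDDAA, cw_ADDDAD, cw_ADDDDA, cw_DAAAAA, cw_DAAAAD, cw_DAAADA, cw_DAAADD, cw_DAADAA, cw_DAADAD, cw_DAADDA, cw_DAADDD, cw_DADAAA, cw_DADAAD, cw_DADADA, cw_DADADD, cw_DADDAA, cw_DADDAD, cw_DADDDA, cw_DADDDD, cw_DDAAAA, cw_DDAAAD, cw_DDAADA, cw_DDAADD, cw_DDADAA, cw_DDADAD, cw_DDADDA, cw_DDADDD, cw_DDDAAA, cw_DDDAAD, cw_DDDADA, cw_DDDADD, cw_DDDDAA, cw_DDDDAD, cw_DDDDDA] at h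
  simp only [conjTranspose_add, conjTranspose_sub, conjTranspose_mul, hA', hD', Matrix.mul_add, Matrix.add_mul, Matrix.mul_sub, Matrix.sub_mul, ← Matrix.mul_assoc, rt_add, rt_sub] at h'
  simp only [cw_AAAADA, cw_AAADAA, cw_AAADDA, cw_AADAAA, cw_AADADA, cw_AADDAA, cw_AADDDA, cw_ADAAAA, cw_ADAAAD, cw_ADAADA, cw_ADAADD, cw_ADADAA, cw_ADADDA, cw_ADDAAA, cw_ADDAAD, cw_ADDADA, cw_ADDDAA, cw_ADDDAD, cw_ADDDDA, cw_DAAAAA, cw_DAAAAD, cw_DAAADA, cw_DAAADD, cw_DAADAA, cw_DAADAD, cw_DAADDA, cw_DAADDD, cw_DADAAA, cw_DADAAD, cw_DADADA, cw_DADADD, cw_DADDAA, cw_DADDAD, cw_DADDDA, cw_DADDDD, cw_DDAAAA, cw_DDAAAD, cw_DDAADA, cw_DDAADD, cw_DDADAA, cw_DDADAD, cw_DDADDA, cw_DDADDD, cw_DDDAAA, cw_DDDAAD, cw_DDDADA, cw_DDDADD, cw_DDDDAA, cw_DDDDAD, cw_DDDDDA] at h'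
  linarith

theorem k6_c2 (hA : A.PosSemidef) (hD : D.IsHermitian) (hP : (A + D).PosSemidef) (hQ : (A - D).PosSemidef) :
    0 ≤ 2 * rt (A * A * A * D * A * D) + rt (A * A * D * A * A * D) - 2 * rt (A * A * D * D * D * D) - rt (D * D * D * D * D * D) := by
  have hA' : Aᴴ = A := hA.1
  have hD' : Dᴴ = D := hD
  have h := rt_mul_nonneg (psd_conj hP (A + D)) (psd_conj hQ D)
  have h' := rt_mul_nonneg (psd_conj hQ (A - D)) (psd_conj hP D)
  have h'' := rt_mul_conj_nonneg ((A + D) * D * (A - D))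
  simp only [conjTranspose_add, conjTranspose_sub, conjTranspose_mul, hA', hD', Matrix.mul_add, Matrix.add_mul, Matrix.mul_sub, Matrix.sub_mul, ← Matrix.mul_assoc, rt_add, rt_sub] at h
  simp only [cw_AAAADA, cw_AAADAA, cw_AAADDA, cw_AADAAA, cw_AADADA, cw_AADDAA, cw_AADDDA, cw_ADAAAA, cw_ADAAAD, cw_ADAADA, cw_ADAADD, cw_ADADAA, cw_ADADDA, cw_ADDAAA, cw_ADDAAD, cw_ADDADA, cw_ADDDAA, cw_ADDDAD, cw_ADDDDA, cw_DAAAAA, cw_DAAAAD, cw_DAAADA, cw_DAAADD, cw_DAADAA, cw_DAADAD, cw_DAADDA, cw_DAADDD, cw_DADAAA, cw_DADAAD, cw_DADADA, cw_DADADD, cw_DADDAA, cw_DADDAD, cw_DADDDA, cw_DADDDD, cw_DDAAAA, cw_DDAAAD, cw_DDAADA, cw_DDAADD, cw_DDADAA, cw_DDADAD, cw_DDADDA, cw_DDADDD, cw_DDDAAA, cw_DDDAAD, cw_DDDADA, cw_DDDADD, cw_DDDDAA, cw_DDDDAD, cw_DDDDDA] at h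
  simp only [conjTranspose_add, conjTranspose_sub, conjTranspose_mul, hA', hD', Matrix.mul_add, Matrix.add_mul, Matrix.mul_sub, Matrix.sub_mul, ← Matrix.mul_assoc, rt_add, rt_sub] at h'
  simp only [cw_AAAADA, cw_AAADAA, cw_AAADDA, cw_AADAAA, cw_AADADA, cw_AADDAA, cw_AADDDA, cw_ADAAAA, cw_ADAAAD, cw_ADAADA, cw_ADAADD, cw_ADADAA, cw_ADADDA, cw_ADDAAA, cw_ADDAAD, cw_ADDADA, cw_ADDDAA, cw_ADDDAD, cw_ADDDDA, cw_DAAAAA, cw_DAAAAD, cw_DAAADA, cw_DAAADD, cw_DAADAA, cw_DAADAD, cw_DAADDA, cw_DAADDD, cw_DADAAA, cw_DADAAD, cw_DADADA, cw_DADADD, cw_DADDAA, cw_DADDAD, cw_DADDDA, cw_DADDDD, cw_DDAAAA, cw_DDAAAD, cw_DDAADA, cw_DDAADD, cw_DDADAA, cw_DDADAD, cw_DDADDA, cw_DDADDD, cw_DDDAAA, cw_DDDAAD, cw_DDDADA, cw_DDDADD, cw_DDDDAA, cw_DDDDAD, cw_DDDDDA] at h'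
  simp only [conjTranspose_add, conjTranspose_sub, conjTranspose_mul, hA', hD', Matrix.mul_add, Matrix.add_mul, Matrix.mul_sub, Matrix.sub_mul, ← Matrix.mul_assoc, rt_add, rt_sub] at h''
  simp only [cw_AAAADA, cw_AAADAA, cw_AAADDA, cw_AADAAA, cw_AADADA, cw_AADDAA, cw_AADDDA, cw_ADAAAA, cw_ADAAAD, cw_ADAADA, cw_ADAADD, cw_ADADAA, cw_ADADDA, cw_ADDAAA, cw_ADDAAD, cw_ADDADA, cw_ADDDAA, cw_ADDDAD, cw_ADDDDA, cw_DAAAAA, cw_DAAAAD, cw_DAAADA, cw_DAAADD, cw_DAADAA, cw_DAADAD, cw_DAADDA, cw_DAADDD, cw_DADAAA, cw_DADAAD, cw_DADADA, cw_DADADD, cw_DADDAA, cw_DADDAD, cw_DADDDA, cw_DADDDD, cw_DDAAAA, cw_DDAAAD, cw_DDAADA, cw_DDAADD, cw_DDADAA, cw_DDADAD, cw_DDADDA, cw_DDADDD, cw_DDDAAA, cw_DDDAAD, cw_DDDADA, cw_DDDADD, cw_DDDDAA, cw_DDDDAD, cw_DDDDDA] at h''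
  linarith

theorem k6_c5 (hA : A.PosSemidef) (hD : D.IsHermitian) (hP : (A + D).PosSemidef) (hQ : (A - D).PosSemidef) :
    0 ≤ 2 * rt (A * A * A * A * D * D) - 4 * rt (A * A * A * D * A * D) + 3 * rt (A * A * D * A * A * D) - 4 * rt (A * A * D * D * D * D) + 2 * rt (A * D * A * D * D * D) + rt (D * D * D * D * D * D) := by
  have hA' : Aᴴ = A := hA.1
  have hD' : Dᴴ = D := hD
  have h := rt_mul_conj_nonneg (A * A * D - A * D * A + D * A * A - D * D * D)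
  simp only [conjTranspose_add, conjTranspose_sub, conjTranspose_mul, hA', hD', Matrix.mul_add, Matrix.add_mul, Matrix.mul_sub, Matrix.sub_mul, ← Matrix.mul_assoc, rt_add, rt_sub] at h
  simp only [cw_AAAADA, cw_AAADAA, cw_AAADDA, cw_AADAAA, cw_AADADA, cw_AADDAA, cw_AADDDA, cw_ADAAAA, cw_ADAAAD, cw_ADAADA, cw_ADAADD, cw_ADADAA, cw_ADADDA, cw_ADDAAA, cw_ADDAAD, cw_ADDADA, cw_ADDDAA, cw_ADDDAD, cw_ADDDDA, cw_DAAAAA, cw_DAAAAD, cw_DAAADA, cw_DAAADD, cw_DAADAA, cw_DAADAD, cw_DAADDA, cw_DAADDD, cw_DADAAA, cw_DADAAD, cw_DADADA, cw_DADADD, cw_DADDAA, cw_DADDAD, cw_DADDDA, cw_DADDDD, cw_DDAAAA, cw_DDAAAD, cw_DDAADA, cw_DDAADD, cw_DDADAA, cw_DDADAD, cw_DDADDA, cw_DDADDD, cw_DDDAAA, cw_DDDAAD, cw_DDDADA, cw_DDDADD, cw_DDDDAA, cw_DDDDAD, cw_DDDDDA] at h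
  linarith

end

end Pool.Agent.Lib_helper98.Renyi
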