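import Mathlib
import Pool.Agent.Lib_helper98.RenyiInt2

/-!
# Integer `α`: conclusion
-/

set_option autoImplicit false
set_option linter.unusedSectionVars false
set_option linter.unusedSimpArgs false
set_option linter.unusedVariables false

open scoped Kronecker ComplexOrder

namespace Pool.Agent.Lib_helper98.Renyi

open Matrix

section eigen

variable {n : Type*} [Fintype n] [DecidableEq n] {A D : Matrix n n ℂ}

theorem rt_two_body (hA : Aᴴ = A) (V : Matrix n n ℂ) (f g : n → ℝ) :
    rt (A * (V * diagonal (fun i => (f i : ℂ)) * Vᴴ) * A *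
      (V * diagonal (fun i => (g i : ℂ)) * Vᴴ)) =
      ∑ i, ∑ j, Complex.normSq ((Vᴴ * A * V) i j) * (f j * g i) := by
  set B := Vᴴ * A * V with hB
  have hBH : Bᴴ = B := by
    rw [hB, conjTranspose_mul, conjTranspose_mul, conjTranspose_conjTranspose, hA,
      Matrix.mul_assoc]
  have h1 : rt (A * (V * diagonal (fun i => (f i : ℂ)) * Vᴴ) * A *
      (V * diagonal (fun i => (g i : ℂ)) * Vᴴ)) =
      rt (B * diagonal (fun i => (f i : ℂ)) * (B * diagonal (fun i => (g i : ℂ)))) := by
    rw [show A * (V * diagonal (fun i => (f i : ℂ)) * Vᴴ) * A *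
      (V * diagonal (fun i => (g i : ℂ)) * Vᴴ) =
      (A * V * diagonal (fun i => (f i : ℂ)) * Vᴴ * A * V * diagonal (fun i => (g i : ℂ))) * Vᴴ
      by simp only [Matrix.mul_assoc], rt_comm]
    congr 1
    rw [hB]
    simp only [Matrix.mul_assoc]
  rw [h1, rt, trace, Complex.re_sum]
  refine Finset.sum_congr rfl fun i _ => ?_
  rw [diag_apply, Matrix.mul_apply, Complex.re_sum]
  refine Finset.sum_congr rfl fun j _ => ?_
  rw [mul_diagonal, mul_diagonal]
  have hji : B j i = star (B i j) := by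
    conv_lhs => rw [← hBH]
    rw [conjTranspose_apply]
  rw [hji]
  have e : B i j * (f j : ℂ) * (star (B i j) * (g i : ℂ)) =
      ((Complex.normSq (B i j) * (f j * g i) : ℝ) : ℂ) := by
    push_cast
    rw [Complex.normSq_eq_conj_mul_self]
    simp only [Complex.star_def]
    ring
  rw [e, Complex.ofReal_re]

theorem diag_conj_re_nonneg {M : Matrix n n ℂ} (hM : M.PosSemidef) (V : Matrix n n ℂ) (i : n) :
    0 ≤ ((Vᴴ * M * V) i i).re := by
  have h := hM.conjTranspose_mul_mul_same V
  exact (Complex.le_def.1 h.diag_nonneg).1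

theorem k6_T46 (hA : A.PosSemidef) (hD : D.IsHermitian) (hP : (A + D).PosSemidef)
    (hQ : (A - D).PosSemidef) :
    5 * rt (D * D * D * D * D * D) ≤ 2 * rt (A * A * D * D * D * D) +
      2 * rt (A * D * A * D * D * D) + rt (A * D * D * A * D * D) := by
  obtain ⟨V, d, hV, hV', hDd⟩ := exists_spectral hD
  have hmul : ∀ f g : n → ℝ, (V * diagonal (fun i => (f i : ℂ)) * Vᴴ) *
      (V * diagonal (fun i => (g i : ℂ)) * Vᴴ) =
      V * diagonal (fun i => ((f i * g i : ℝ) : ℂ)) * Vᴴ := fun f g => by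
    have : (V * diagonal (fun i => (f i : ℂ)) * Vᴴ) * (V * diagonal (fun i => (g i : ℂ)) * Vᴴ) =
        V * (diagonal (fun i => (f i : ℂ)) * (Vᴴ * V) * diagonal (fun i => (g i : ℂ))) * Vᴴ := by
      simp only [Matrix.mul_assoc]
    rw [this, hV, Matrix.mul_one, diagonal_mul_diagonal]
    push_cast
    rfl
  have h1 : (1 : Matrix n n ℂ) = V * diagonal (fun _ => ((1 : ℝ) : ℂ)) * Vᴴ := by
    simp [hV']
  have hD2 : D * D = V * diagonal (fun i => ((d i * d i : ℝ) : ℂ)) * Vᴴ := by
    conv_lhs => rw [hDd]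
    exact hmul d d
  have hD3 : D * D * D = V * diagonal (fun i => ((d i * d i * d i : ℝ) : ℂ)) * Vᴴ := by
    rw [hD2]
    conv_lhs => rw [hDd]
    exact hmul _ _
  have hD4 : D * D * D * D = V * diagonal (fun i => ((d i * d i * d i * d i : ℝ) : ℂ)) * Vᴴ := by
    rw [hD3]
    conv_lhs => rw [hDd]
    exact hmul _ _
  have hD6 : D * D * D * D * D * D =
      V * diagonal (fun i => ((d i * d i * d i * d i * d i * d i : ℝ) : ℂ)) * Vᴴ := by
    rw [hD4]
    conv_lhs => rw [hDd]
    rw [hmul, hmul]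
  set B := Vᴴ * A * V with hB
  have hBH : Bᴴ = B := by
    rw [hB, conjTranspose_mul, conjTranspose_mul, conjTranspose_conjTranspose, hA.1.eq,
      Matrix.mul_assoc]
  have y1 : rt (A * A * D * D * D * D) =
      ∑ i, ∑ j, Complex.normSq (B i j) * (1 * (d i * d i * d i * d i)) := by
    have := rt_two_body (A := A) hA.1 V (fun _ => 1) (fun i => d i * d i * d i * d i)
    rw [← h1, ← hD4, Matrix.mul_one] at this
    rw [← this]
    simp only [Matrix.mul_assoc]
  have y2 : rt (A * D * A * D * D * D) =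
      ∑ i, ∑ j, Complex.normSq (B i j) * (d j * (d i * d i * d i)) := by
    have := rt_two_body (A := A) hA.1 V d (fun i => d i * d i * d i)
    rw [← hDd, ← hD3] at this
    rw [← this]
    simp only [Matrix.mul_assoc]
  have y3 : rt (A * D * D * A * D * D) =
      ∑ i, ∑ j, Complex.normSq (B i j) * ((d j * d j) * (d i * d i)) := by
    have := rt_two_body (A := A) hA.1 V (fun i => d i * d i) (fun i => d i * d i)
    rw [← hD2] at this
    rw [← this]
    simp only [Matrix.mul_assoc]
  have z : rt (D * D * D * D * D * D) = ∑ i, (d i) ^ 6 := by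
    rw [hD6, rt, trace_conj _ _ hV, trace_diagonal]
    simp only [Complex.re_sum, Complex.ofReal_re]
    refine Finset.sum_congr rfl fun i _ => by ring
  -- symmetric form of the sums
  have hsymm : ∀ i j, Complex.normSq (B i j) = Complex.normSq (B j i) := fun i j => by
    conv_lhs => rw [← hBH]
    rw [conjTranspose_apply, Complex.star_def, Complex.normSq_conj]
  have swap : ∀ F : n → n → ℝ, ∑ i, ∑ j, Complex.normSq (B i j) * F i j =
      ∑ i, ∑ j, Complex.normSq (B i j) * ((F i j + F j i) / 2) := fun F => by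
    have e : ∑ i, ∑ j, Complex.normSq (B i j) * F i j =
        ∑ i, ∑ j, Complex.normSq (B i j) * F j i := by
      rw [Finset.sum_comm]
      refine Finset.sum_congr rfl fun i _ => Finset.sum_congr rfl fun j _ => ?_
      rw [hsymm]
    have e2 : ∑ i, ∑ j, Complex.normSq (B i j) * ((F i j + F j i) / 2) =
        (∑ i, ∑ j, Complex.normSq (B i j) * F i j + ∑ i, ∑ j, Complex.normSq (B i j) * F j i) /
          2 := by
      rw [← Finset.sum_add_distrib, Finset.sum_div]
      refine Finset.sum_congr rfl fun i _ => ?_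
      rw [← Finset.sum_add_distrib, Finset.sum_div]
      refine Finset.sum_congr rfl fun j _ => ?_
      ring
    rw [e2, ← e]
    ring
  have hdiag : ∀ i, (d i) ^ 2 ≤ Complex.normSq (B i i) := fun i => by
    have hDi : (Vᴴ * D * V) i i = (d i : ℂ) := by
      have : Vᴴ * D * V = diagonal (fun i => (d i : ℂ)) := by
        rw [hDd]
        have : Vᴴ * (V * diagonal (fun i => (d i : ℂ)) * Vᴴ) * V =
            (Vᴴ * V) * diagonal (fun i => (d i : ℂ)) * (Vᴴ * V) := by
          simp only [Matrix.mul_assoc]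
        rw [this, hV, Matrix.one_mul, Matrix.mul_one]
      rw [this, diagonal_apply_eq]
    have h3 := diag_conj_re_nonneg hP V i
    have h4 := diag_conj_re_nonneg hQ V i
    have e3 : Vᴴ * (A + D) * V = B + Vᴴ * D * V := by
      rw [Matrix.mul_add, Matrix.add_mul]
    have e4 : Vᴴ * (A - D) * V = B - Vᴴ * D * V := by
      rw [Matrix.mul_sub, Matrix.sub_mul]
    rw [e3, Matrix.add_apply, hDi, Complex.add_re, Complex.ofReal_re] at h3
    rw [e4, Matrix.sub_apply, hDi, Complex.sub_re, Complex.ofReal_re] at h4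
    have h5 : (B i i).re * (B i i).re ≤ Complex.normSq (B i i) := by
      rw [Complex.normSq_apply]
      nlinarith [mul_self_nonneg (B i i).im]
    nlinarith [mul_nonneg h3 h4]
  have hsum : 2 * rt (A * A * D * D * D * D) + 2 * rt (A * D * A * D * D * D) +
      rt (A * D * D * A * D * D) = ∑ i, ∑ j, Complex.normSq (B i j) *
        (d i ^ 4 + d i ^ 3 * d j + d i ^ 2 * d j ^ 2 + d i * d j ^ 3 + d j ^ 4) := by
    rw [y1, y2, y3, swap (fun i j => 1 * (d i * d i * d i * d i)),
      swap (fun i j => d j * (d i * d i * d i)), Finset.mul_sum, Finset.mul_sum,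
      ← Finset.sum_add_distrib, ← Finset.sum_add_distrib]
    refine Finset.sum_congr rfl fun i _ => ?_
    rw [Finset.mul_sum, Finset.mul_sum, ← Finset.sum_add_distrib, ← Finset.sum_add_distrib]
    refine Finset.sum_congr rfl fun j _ => ?_
    ring
  have hq : ∀ s t : ℝ, 0 ≤ s ^ 4 + s ^ 3 * t + s ^ 2 * t ^ 2 + s * t ^ 3 + t ^ 4 := fun s t => by
    nlinarith [sq_nonneg (s ^ 2 + s * t / 2), sq_nonneg (t ^ 2 + s * t / 2),
      sq_nonneg (s * t), sq_nonneg (s ^ 2), sq_nonneg (t ^ 2)]
  rw [hsum, z, Finset.mul_sum]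
  refine Finset.sum_le_sum fun i _ => ?_
  have h6 : Complex.normSq (B i i) *
      (d i ^ 4 + d i ^ 3 * d i + d i ^ 2 * d i ^ 2 + d i * d i ^ 3 + d i ^ 4) ≤
      ∑ j, Complex.normSq (B i j) *
        (d i ^ 4 + d i ^ 3 * d j + d i ^ 2 * d j ^ 2 + d i * d j ^ 3 + d j ^ 4) :=
    Finset.single_le_sum (f := fun j => Complex.normSq (B i j) *
        (d i ^ 4 + d i ^ 3 * d j + d i ^ 2 * d j ^ 2 + d i * d j ^ 3 + d j ^ 4))
      (fun j _ => mul_nonneg (Complex.normSq_nonneg _) (hq _ _)) (Finset.mem_univ i)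
  refine le_trans ?_ h6
  have h7 := hdiag i
  have h8 : 0 ≤ d i ^ 4 := by positivity
  nlinarith [mul_le_mul_of_nonneg_right h7 h8]

end eigen

section kron

variable {n m : Type*} [Fintype n] [DecidableEq n] [Fintype m] [DecidableEq m]

theorem rt_kron {M : Matrix n n ℂ} {N : Matrix m m ℂ} (hM : (trace M).im = 0) :
    rt (M ⊗ₖ N) = rt M * rt N := by
  rw [rt, trace_kronecker, Complex.mul_re, hM, rt, rt]
  ring

end kron

end Pool.Agent.Lib_helper98.Renyi
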