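import Mathlib
import Pool.Agent.Lib_helper98.RenyiInt3

/-!
# Integer `α`: the key inequalities and the theorem
-/

set_option autoImplicit false
set_option linter.unusedSectionVars false
set_option linter.unusedSimpArgs false
set_option linter.unusedVariables false
set_option maxHeartbeats 4000000

open scoped Kronecker ComplexOrder

namespace Pool.Agent.Lib_helper98.Renyi

open Matrix

section key

variable {n m : Type*} [Fintype n] [DecidableEq n] [Fintype m] [DecidableEq m]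
variable {A D : Matrix n n ℂ} {A' D' : Matrix m m ℂ}

/-- An admissible pair: `A ≥ 0`, `-A ≤ D ≤ A`. -/
structure Adm {n : Type*} [Fintype n] [DecidableEq n] (A D : Matrix n n ℂ) : Prop where
  psd : A.PosSemidef
  herm : D.IsHermitian
  add : (A + D).PosSemidef
  sub : (A - D).PosSemidef

theorem Adm.kron (h : Adm A D) (h' : Adm A' D') : Adm (A ⊗ₖ A') (D ⊗ₖ D') := by
  have hh : (2 : ℂ) • (A ⊗ₖ A' + D ⊗ₖ D') = (A + D) ⊗ₖ (A' + D') + (A - D) ⊗ₖ (A' - D') := by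
    ext ⟨i, j⟩ ⟨k, l⟩
    simp [kronecker_apply]
    ring
  have hh' : (2 : ℂ) • (A ⊗ₖ A' - D ⊗ₖ D') = (A + D) ⊗ₖ (A' - D') + (A - D) ⊗ₖ (A' + D') := by
    ext ⟨i, j⟩ ⟨k, l⟩
    simp [kronecker_apply]
    ring
  have half : ∀ M : Matrix (n × m) (n × m) ℂ, ((2 : ℂ) • M).PosSemidef → M.PosSemidef := by
    intro M hM
    have := posSemidef_half_smul hM
    rwa [smul_smul, show (1 / 2 : ℂ) * 2 = 1 by norm_num, one_smul] at this
  refine ⟨h.psd.kronecker h'.psd, ?_, half _ ?_, half _ ?_⟩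
  · rw [Matrix.IsHermitian, conjTranspose_kronecker, h.herm.eq, h'.herm.eq]
  · rw [hh]; exact (h.add.kronecker h'.add).add (h.sub.kronecker h'.sub)
  · rw [hh']; exact (h.add.kronecker h'.sub).add (h.sub.kronecker h'.add)

theorem key_three (h : Adm A D) (h' : Adm A' D') :
    Gfun 3 A D * Gfun 3 A' D' = (2 ^ ((3 : ℝ) - 1) - 1) * Gfun 3 (A ⊗ₖ A') (D ⊗ₖ D') := by
  have hk := h.kron h'
  rw [Gfun_three h.psd h.add h.sub, Gfun_three h'.psd h'.add h'.sub,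
    Gfun_three hk.psd hk.add hk.sub, ← mul_kronecker_mul, ← mul_kronecker_mul,
    rt_kron (im_ADD h.psd.1 h.herm)]
  have : (2 : ℝ) ^ ((3 : ℝ) - 1) = 4 := by
    rw [show (3 : ℝ) - 1 = ((2 : ℕ) : ℝ) by norm_num, Real.rpow_natCast]; norm_num
  rw [this]
  ring

theorem key_four (h : Adm A D) (h' : Adm A' D') :
    Gfun 4 A D * Gfun 4 A' D' ≤ (2 ^ ((4 : ℝ) - 1) - 1) * Gfun 4 (A ⊗ₖ A') (D ⊗ₖ D') := by
  have hk := h.kron h'
  rw [Gfun_four h.psd h.add h.sub, Gfun_four h'.psd h'.add h'.sub,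
    Gfun_four hk.psd hk.add hk.sub]
  simp only [← mul_kronecker_mul]
  rw [rt_kron (im_AADD h.psd.1 h.herm), rt_kron (im_ADAD h.psd.1 h.herm),
    rt_kron (im_DDDD h.psd.1 h.herm)]
  have : (2 : ℝ) ^ ((4 : ℝ) - 1) = 8 := by
    rw [show (4 : ℝ) - 1 = ((3 : ℕ) : ℝ) by norm_num, Real.rpow_natCast]; norm_num
  rw [this]
  have a1 := k4_xy h.psd h.herm h.add h.sub
  have a2 := k4_yz h.psd h.herm h.add h.sub
  have b1 := k4_xy h'.psd h'.herm h'.add h'.sub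
  have b2 := k4_yz h'.psd h'.herm h'.add h'.sub
  generalize rt (A * A * D * D) = x at *
  generalize rt (A * D * A * D) = y at *
  generalize rt (D * D * D * D) = z at *
  generalize rt (A' * A' * D' * D') = x' at *
  generalize rt (A' * D' * A' * D') = y' at *
  generalize rt (D' * D' * D' * D') = z' at *
  nlinarith [mul_nonneg (sub_nonneg.2 a1) (sub_nonneg.2 b1),
    mul_nonneg (sub_nonneg.2 a2) (sub_nonneg.2 b2),
    mul_nonneg (sub_nonneg.2 (a2.trans a1)) (sub_nonneg.2 (b2.trans b1))]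

theorem key_five (h : Adm A D) (h' : Adm A' D') :
    Gfun 5 A D * Gfun 5 A' D' ≤ (2 ^ ((5 : ℝ) - 1) - 1) * Gfun 5 (A ⊗ₖ A') (D ⊗ₖ D') := by
  have hk := h.kron h'
  rw [Gfun_five h.psd h.add h.sub, Gfun_five h'.psd h'.add h'.sub,
    Gfun_five hk.psd hk.add hk.sub]
  simp only [← mul_kronecker_mul]
  rw [rt_kron (im_AAADD h.psd.1 h.herm), rt_kron (im_AADAD h.psd.1 h.herm),
    rt_kron (im_ADDDD h.psd.1 h.herm)]
  have : (2 : ℝ) ^ ((5 : ℝ) - 1) = 16 := by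
    rw [show (5 : ℝ) - 1 = ((4 : ℕ) : ℝ) by norm_num, Real.rpow_natCast]; norm_num
  rw [this]
  have a1 := k5_12 h.psd h.herm h.add h.sub
  have a2 := k5_23 h.psd h.herm h.add h.sub
  have b1 := k5_12 h'.psd h'.herm h'.add h'.sub
  have b2 := k5_23 h'.psd h'.herm h'.add h'.sub
  generalize rt (A * A * A * D * D) = x at *
  generalize rt (A * A * D * A * D) = y at *
  generalize rt (A * D * D * D * D) = z at *
  generalize rt (A' * A' * A' * D' * D') = x' at *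
  generalize rt (A' * A' * D' * A' * D') = y' at *
  generalize rt (A' * D' * D' * D' * D') = z' at *
  nlinarith [mul_nonneg (sub_nonneg.2 a1) (sub_nonneg.2 b1),
    mul_nonneg (sub_nonneg.2 a2) (sub_nonneg.2 b2),
    mul_nonneg (sub_nonneg.2 (a2.trans a1)) (sub_nonneg.2 (b2.trans b1))]

/-- The scalar inequality behind `α = 6`. -/
theorem scalar_six {x1 x2 x3 y1 y2 y3 z x1' x2' x3' y1' y2' y3' z' : ℝ}
    (a1 : x2 ≤ x1) (a2 : x3 ≤ x2) (a3 : y3 ≤ y1) (a4 : 0 ≤ 2 * y1 - 8 * y2 + 6 * y3)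
    (a5 : 2 * y1 + 2 * y2 + y3 ≤ 2 * x1 + 2 * x2 + x3) (a6 : 5 * z ≤ 2 * y1 + 2 * y2 + y3)
    (b1 : x2' ≤ x1') (b2 : x3' ≤ x2') (b3 : y3' ≤ y1') (b4 : 0 ≤ 2 * y1' - 8 * y2' + 6 * y3')
    (b5 : 2 * y1' + 2 * y2' + y3' ≤ 2 * x1' + 2 * x2' + x3')
    (b6 : 5 * z' ≤ 2 * y1' + 2 * y2' + y3') :
    (6 * x1 + 6 * x2 + 3 * x3 + 6 * y1 + 6 * y2 + 3 * y3 + z) *
      (6 * x1' + 6 * x2' + 3 * x3' + 6 * y1' + 6 * y2' + 3 * y3' + z') ≤
    31 * (6 * (x1 * x1') + 6 * (x2 * x2') + 3 * (x3 * x3') + 6 * (y1 * y1') + 6 * (y2 * y2') +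
      3 * (y3 * y3') + z * z') := by
  -- within the block of two `D`s
  have s1 : (2 * x1 + 2 * x2 + x3) * (2 * x1' + 2 * x2' + x3') ≤
      5 * (2 * (x1 * x1') + 2 * (x2 * x2') + x3 * x3') := by
    nlinarith [mul_nonneg (sub_nonneg.2 a1) (sub_nonneg.2 b1),
      mul_nonneg (sub_nonneg.2 a2) (sub_nonneg.2 b2),
      mul_nonneg (sub_nonneg.2 (a2.trans a1)) (sub_nonneg.2 (b2.trans b1))]
  -- within the block of four `D`s
  have s2 : (2 * y1 + 2 * y2 + y3) * (2 * y1' + 2 * y2' + y3') ≤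
      5 * (2 * (y1 * y1') + 2 * (y2 * y2') + y3 * y3') := by
    have u : 0 ≤ y1 - y3 := sub_nonneg.2 a3
    have u' : 0 ≤ y1' - y3' := sub_nonneg.2 b3
    nlinarith [mul_nonneg u u', mul_nonneg u b4, mul_nonneg a4 u', mul_nonneg a4 b4]
  -- between the blocks
  have s3 : (15 * (2 * x1 + 2 * x2 + x3) / 5 + 15 * (2 * y1 + 2 * y2 + y3) / 5 + z) *
      (15 * (2 * x1' + 2 * x2' + x3') / 5 + 15 * (2 * y1' + 2 * y2' + y3') / 5 + z') ≤
      31 * (15 * ((2 * x1 + 2 * x2 + x3) / 5 * ((2 * x1' + 2 * x2' + x3') / 5)) +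
        15 * ((2 * y1 + 2 * y2 + y3) / 5 * ((2 * y1' + 2 * y2' + y3') / 5)) + z * z') := by
    generalize 2 * x1 + 2 * x2 + x3 = X at *
    generalize 2 * y1 + 2 * y2 + y3 = Y at *
    generalize 2 * x1' + 2 * x2' + x3' = X' at *
    generalize 2 * y1' + 2 * y2' + y3' = Y' at *
    nlinarith [mul_nonneg (sub_nonneg.2 a5) (sub_nonneg.2 b5),
      mul_nonneg (sub_nonneg.2 a6) (sub_nonneg.2 b6),
      mul_nonneg (sub_nonneg.2 (a6.trans a5)) (sub_nonneg.2 (b6.trans b5))]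
  nlinarith [s1, s2, s3]

theorem k6_T24 (h : Adm A D) :
    2 * rt (A * A * D * D * D * D) + 2 * rt (A * D * A * D * D * D) +
        rt (A * D * D * A * D * D) ≤
      2 * rt (A * A * A * A * D * D) + 2 * rt (A * A * A * D * A * D) +
        rt (A * A * D * A * A * D) := by
  have c1 := k6_c1 h.psd h.herm h.add h.sub
  have c2 := k6_c2 h.psd h.herm h.add h.sub
  have c3 := k6_x12 h.psd h.herm h.add h.sub
  have c3' := k6_x23 h.psd h.herm h.add h.sub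
  have c4 := k6_y13 h.psd h.herm h.add h.sub
  have c5 := k6_c5 h.psd h.herm h.add h.sub
  linarith

theorem key_six (h : Adm A D) (h' : Adm A' D') :
    Gfun 6 A D * Gfun 6 A' D' ≤ (2 ^ ((6 : ℝ) - 1) - 1) * Gfun 6 (A ⊗ₖ A') (D ⊗ₖ D') := by
  have hk := h.kron h'
  rw [Gfun_six h.psd h.add h.sub, Gfun_six h'.psd h'.add h'.sub,
    Gfun_six hk.psd hk.add hk.sub]
  simp only [← mul_kronecker_mul]
  rw [rt_kron (im_AAAADD h.psd.1 h.herm), rt_kron (im_AAADAD h.psd.1 h.herm),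
    rt_kron (im_AADAAD h.psd.1 h.herm), rt_kron (im_AADDDD h.psd.1 h.herm),
    rt_kron (im_ADADDD h.psd.1 h.herm), rt_kron (im_ADDADD h.psd.1 h.herm),
    rt_kron (im_DDDDDD h.psd.1 h.herm)]
  have : (2 : ℝ) ^ ((6 : ℝ) - 1) = 32 := by
    rw [show (6 : ℝ) - 1 = ((5 : ℕ) : ℝ) by norm_num, Real.rpow_natCast]; norm_num
  rw [this]
  have := scalar_six (k6_x12 h.psd h.herm h.add h.sub) (k6_x23 h.psd h.herm h.add h.sub)
    (k6_y13 h.psd h.herm h.add h.sub) (k6_E h.psd h.herm h.add h.sub) (k6_T24 h)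
    (k6_T46 h.psd h.herm h.add h.sub)
    (k6_x12 h'.psd h'.herm h'.add h'.sub) (k6_x23 h'.psd h'.herm h'.add h'.sub)
    (k6_y13 h'.psd h'.herm h'.add h'.sub) (k6_E h'.psd h'.herm h'.add h'.sub) (k6_T24 h')
    (k6_T46 h'.psd h'.herm h'.add h'.sub)
  linarith

end key

section final

variable {b : Type*} [Fintype b] [DecidableEq b]

theorem adm_of_density {σ : Fin 2 → Matrix b b ℂ} (h : ∀ x, IsDensity (σ x)) {α : ℝ}
    (hα : 0 < α) : Adm (Aop α σ) (Dop α σ) :=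
  ⟨Aop_posSemidef h α, Dop_isHermitian h α, A_add_D_posSemidef h hα, A_sub_D_posSemidef h hα⟩

variable {b₁ b₂ : Type*} [Fintype b₁] [DecidableEq b₁] [Fintype b₂] [DecidableEq b₂]

/-- **Theorem.** For `α = 3` equality, for `α = 4, 5, 6` the inequality `H ≤ F`, for all pairs of
quantum states. -/
theorem integer_alpha (σ₁ : Fin 2 → Matrix b₁ b₁ ℂ) (σ₂ : Fin 2 → Matrix b₂ b₂ ℂ)
    (h₁ : ∀ x, IsDensity (σ₁ x)) (h₂ : ∀ x, IsDensity (σ₂ x)) :
    Hsum 3 σ₁ σ₂ = Fval 3 σ₁ σ₂ ∧ Hsum 4 σ₁ σ₂ ≤ Fval 4 σ₁ σ₂ ∧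
      Hsum 5 σ₁ σ₂ ≤ Fval 5 σ₁ σ₂ ∧ Hsum 6 σ₁ σ₂ ≤ Fval 6 σ₁ σ₂ := by
  refine ⟨le_antisymm ?_ ?_, ?_, ?_, ?_⟩
  · exact Hsum_le_Fval h₁ h₂ (by norm_num) (by norm_num)
      (key_three (adm_of_density h₁ (by norm_num)) (adm_of_density h₂ (by norm_num))).le
  · exact Fval_le_Hsum_of_one_lt h₁ h₂ (by norm_num)
      (key_three (adm_of_density h₁ (by norm_num)) (adm_of_density h₂ (by norm_num))).ge
  · exact Hsum_le_Fval h₁ h₂ (by norm_num) (by norm_num)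
      (key_four (adm_of_density h₁ (by norm_num)) (adm_of_density h₂ (by norm_num)))
  · exact Hsum_le_Fval h₁ h₂ (by norm_num) (by norm_num)
      (key_five (adm_of_density h₁ (by norm_num)) (adm_of_density h₂ (by norm_num)))
  · exact Hsum_le_Fval h₁ h₂ (by norm_num) (by norm_num)
      (key_six (adm_of_density h₁ (by norm_num)) (adm_of_density h₂ (by norm_num)))

end final

end Pool.Agent.Lib_helper98.Renyi
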