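import Pool.Agent.Lib_helper73.LRXSQ

/-!
Block MV: the move graph.
-/

set_option autoImplicit false

namespace Pool.Agent.Lib_helper67.LR

open Finset Pool.Agent.Lib_helper78.LR
open scoped BigOperators

namespace MV98

section

variable {A M : Type} [Fintype A] [DecidableEq A] [Fintype M]

/-- total weight of the moves with given end pair -/
noncomputable def hsum (p p' : M → A) (ω : M → ℝ) (a b : A) : ℝ :=
  ∑ m with p m = a ∧ p' m = b, ω m

theorem hsum_right (p p' : M → A) (ω : M → ℝ) (a : A) :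
    ∑ b, hsum p p' ω a b = ∑ m with p m = a, ω m := by
  unfold hsum
  simp_rw [Finset.sum_filter]
  rw [Finset.sum_comm]
  apply Finset.sum_congr rfl
  intro m _
  by_cases h : p m = a
  · simp [h]
  · simp [h]

theorem hsum_left (p p' : M → A) (ω : M → ℝ) (b : A) :
    ∑ a, hsum p p' ω a b = ∑ m with p' m = b, ω m := by
  unfold hsum
  simp_rw [Finset.sum_filter]
  rw [Finset.sum_comm]
  apply Finset.sum_congr rfl
  intro m _
  by_cases h : p' m = b
  · simp [h]
  · simp [h]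

theorem hsum_total (p p' : M → A) (ω : M → ℝ) :
    ∑ a, ∑ b, hsum p p' ω a b = ∑ m, ω m := by
  simp_rw [hsum_right]
  simp_rw [Finset.sum_filter]
  rw [Finset.sum_comm]
  apply Finset.sum_congr rfl
  intro m _
  simp

theorem hsum_eq {τ : ℕ} (p p' : M → A) (ω : M → ℝ) (x : (Fin τ → A) × (Fin τ → A)) :
    ∑ i, ∑ j, hsum p p' ω (x.1 i) (x.2 j)
      = ∑ m, ∑ i, ∑ j, (if x.1 i = p m ∧ x.2 j = p' m then ω m else 0) := by
  unfold hsum
  simp_rw [Finset.sum_filter]
  have h1 : ∀ i : Fin τ, ∑ j : Fin τ, ∑ m, (if p m = x.1 i ∧ p' m = x.2 j then ω m else 0)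
      = ∑ m, ∑ j : Fin τ, (if p m = x.1 i ∧ p' m = x.2 j then ω m else 0) :=
    fun i => Finset.sum_comm
  simp_rw [h1]
  rw [Finset.sum_comm]
  apply Finset.sum_congr rfl
  intro m _
  apply Finset.sum_congr rfl
  intro i _
  apply Finset.sum_congr rfl
  intro j _
  congr 1
  rw [eq_comm (a := p m), eq_comm (a := p' m)]

theorem first [Nonempty A] (p p' : M → A) (ω : M → ℝ) (τ : ℕ) :
    (𝔼 x : (Fin τ → A) × (Fin τ → A), ∑ i, ∑ j, hsum p p' ω (x.1 i) (x.2 j))
      = (τ : ℝ) ^ 2 * (∑ m, ω m) / (Fintype.card A : ℝ) ^ 2 := by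
  have h1 : ∀ i j : Fin τ, (𝔼 x : (Fin τ → A) × (Fin τ → A), hsum p p' ω (x.1 i) (x.2 j))
      = (∑ m, ω m) / (Fintype.card A : ℝ) ^ 2 := by
    intro i j
    rw [← Finset.univ_product_univ, Finset.expect_product]
    have h2 : ∀ u : Fin τ → A, (𝔼 v : Fin τ → A, hsum p p' ω (u i) (v j))
        = 𝔼 b, hsum p p' ω (u i) b := fun u => sq_marg τ j (fun b => hsum p p' ω (u i) b)
    simp only [h2]
    rw [sq_marg τ i (fun a => 𝔼 b, hsum p p' ω a b)]
    simp only [Fintype.expect_eq_sum_div_card]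
    rw [← Finset.sum_div, hsum_total, div_div, sq]
  rw [Finset.expect_sum_comm]
  have h3 : ∀ i : Fin τ, (𝔼 x : (Fin τ → A) × (Fin τ → A), ∑ j, hsum p p' ω (x.1 i) (x.2 j))
      = (τ : ℝ) * ((∑ m, ω m) / (Fintype.card A : ℝ) ^ 2) := by
    intro i
    rw [Finset.expect_sum_comm]
    simp only [h1]
    rw [Finset.sum_const, Finset.card_univ, Fintype.card_fin, nsmul_eq_mul]
  simp only [h3]
  rw [Finset.sum_const, Finset.card_univ, Fintype.card_fin, nsmul_eq_mul]
  ring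

theorem second [Nonempty A] (p p' : M → A) (ω : M → ℝ) (τ : ℕ) :
    (𝔼 x : (Fin τ → A) × (Fin τ → A), (∑ i, ∑ j, hsum p p' ω (x.1 i) (x.2 j)) ^ 2)
      ≤ (τ : ℝ) ^ 2 / (Fintype.card A : ℝ) ^ 2 * (∑ a, ∑ b, hsum p p' ω a b ^ 2)
        + (τ : ℝ) ^ 3 / (Fintype.card A : ℝ) ^ 3 * (∑ a, (∑ m with p m = a, ω m) ^ 2)
        + (τ : ℝ) ^ 3 / (Fintype.card A : ℝ) ^ 3 * (∑ a, (∑ m with p' m = a, ω m) ^ 2)
        + ((τ : ℝ) ^ 2 * (∑ m, ω m) / (Fintype.card A : ℝ) ^ 2) ^ 2 := by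
  refine (sq_two τ (hsum p p' ω)).trans (le_of_eq ?_)
  have hs : (Fintype.card A : ℝ) ≠ 0 := by
    have : 0 < Fintype.card A := Fintype.card_pos
    positivity
  simp only [Fintype.expect_eq_sum_div_card]
  simp only [hsum_right, hsum_left, div_pow, ← Finset.sum_div]
  have ht : ∑ a, ∑ m with p m = a, ω m = ∑ m, ω m := by
    rw [← hsum_total p p' ω]
    simp only [hsum_right]
  rw [ht]
  field_simp

end

end MV98

open MV98

theorem move_graph {A M : Type} [Fintype A] [DecidableEq A] [Nonempty A] [Fintype M]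
    (p p' g g' : M → A) (ω : M → ℝ) (hω : ∀ m, 0 ≤ ω m) (τ : ℕ) :
    ∃ W : ((Fin τ → A) × (Fin τ → A)) → ((Fin τ → A) × (Fin τ → A)) → ℝ,
      (∀ x y, 0 ≤ W x y) ∧
      (∀ x y, W x y ≠ 0 → ∃ (m : M) (i j : Fin τ), ω m ≠ 0 ∧ x.1 i = p m ∧ x.2 j = p' m ∧
        y = (Function.update x.1 i (g m), Function.update x.2 j (g' m))) ∧
      (𝔼 x, ∑ y, W x y) = (τ : ℝ) ^ 2 * (∑ m, ω m) / (Fintype.card A : ℝ) ^ 2 ∧
      (𝔼 x, (∑ y, (W x y + W y x)) ^ 2) ≤
        4 * ((τ : ℝ) ^ 2 * (∑ m, ω m) / (Fintype.card A : ℝ) ^ 2) ^ 2 +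
        2 * (τ : ℝ) ^ 3 / (Fintype.card A : ℝ) ^ 3 *
          ((∑ a, (∑ m with p m = a, ω m) ^ 2) + (∑ a, (∑ m with p' m = a, ω m) ^ 2) +
            (∑ a, (∑ m with g m = a, ω m) ^ 2) + (∑ a, (∑ m with g' m = a, ω m) ^ 2)) +
        2 * (τ : ℝ) ^ 2 / (Fintype.card A : ℝ) ^ 2 *
          ((∑ a, ∑ b, (∑ m with p m = a ∧ p' m = b, ω m) ^ 2) +
            (∑ a, ∑ b, (∑ m with g m = a ∧ g' m = b, ω m) ^ 2)) := by
  classical
  set W : ((Fin τ → A) × (Fin τ → A)) → ((Fin τ → A) × (Fin τ → A)) → ℝ := fun x y =>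
    ∑ m, ∑ i, ∑ j, (if (x.1 i = p m ∧ x.2 j = p' m) ∧
      y = (Function.update x.1 i (g m), Function.update x.2 j (g' m)) then ω m else 0) with hW
  have hout : ∀ x, ∑ y, W x y = ∑ i, ∑ j, hsum p p' ω (x.1 i) (x.2 j) := by
    intro x
    rw [hsum_eq]
    simp only [hW]
    rw [Finset.sum_comm]
    apply Finset.sum_congr rfl
    intro m _
    rw [Finset.sum_comm]
    apply Finset.sum_congr rfl
    intro i _
    rw [Finset.sum_comm]
    apply Finset.sum_congr rfl
    intro j _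
    by_cases h : x.1 i = p m ∧ x.2 j = p' m
    · simp [h]
    · simp [h]
  have hin : ∀ x, ∑ y, W y x = ∑ i, ∑ j, hsum g g' ω (x.1 i) (x.2 j) := by
    intro x
    rw [hsum_eq]
    simp only [hW]
    rw [Finset.sum_comm]
    apply Finset.sum_congr rfl
    intro m _
    rw [Finset.sum_comm]
    apply Finset.sum_congr rfl
    intro i _
    rw [Finset.sum_comm]
    apply Finset.sum_congr rfl
    intro j _
    have hiff : ∀ y : (Fin τ → A) × (Fin τ → A), ((y.1 i = p m ∧ y.2 j = p' m) ∧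
        x = (Function.update y.1 i (g m), Function.update y.2 j (g' m))) ↔
        ((x.1 i = g m ∧ x.2 j = g' m) ∧
        y = (Function.update x.1 i (p m), Function.update x.2 j (p' m))) := by
      intro y
      constructor
      · rintro ⟨⟨h1, h2⟩, h3⟩
        rw [h3]
        refine ⟨⟨by simp, by simp⟩, ?_⟩
        rw [Function.update_idem, Function.update_idem, ← h1, ← h2, Function.update_eq_self,
          Function.update_eq_self]
      · rintro ⟨⟨h1, h2⟩, h3⟩
        rw [h3]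
        refine ⟨⟨by simp, by simp⟩, ?_⟩
        rw [Function.update_idem, Function.update_idem, ← h1, ← h2, Function.update_eq_self,
          Function.update_eq_self]
    simp only [hiff]
    by_cases h : x.1 i = g m ∧ x.2 j = g' m
    · simp [h]
    · simp [h]
  refine ⟨W, ?_, ?_, ?_, ?_⟩
  · intro x y
    simp only [hW]
    refine Finset.sum_nonneg fun m _ => Finset.sum_nonneg fun i _ => Finset.sum_nonneg fun j _ => ?_
    split_ifs
    · exact hω m
    · exact le_refl _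
  · intro x y hxy
    simp only [hW] at hxy
    obtain ⟨m, _, hm⟩ := Finset.exists_ne_zero_of_sum_ne_zero hxy
    obtain ⟨i, _, hi⟩ := Finset.exists_ne_zero_of_sum_ne_zero hm
    obtain ⟨j, _, hj⟩ := Finset.exists_ne_zero_of_sum_ne_zero hi
    by_cases h : (x.1 i = p m ∧ x.2 j = p' m) ∧
      y = (Function.update x.1 i (g m), Function.update x.2 j (g' m))
    · rw [if_pos h] at hj
      exact ⟨m, i, j, hj, h.1.1, h.1.2, h.2⟩
    · rw [if_neg h] at hj
      exact absurd rfl hj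
  · simp only [hout]
    exact first p p' ω τ
  · have h1 : ∀ x, (∑ y, (W x y + W y x)) ^ 2 ≤
        2 * (∑ i, ∑ j, hsum p p' ω (x.1 i) (x.2 j)) ^ 2
          + 2 * (∑ i, ∑ j, hsum g g' ω (x.1 i) (x.2 j)) ^ 2 := by
      intro x
      rw [Finset.sum_add_distrib, hout, hin]
      nlinarith [sq_nonneg ((∑ i, ∑ j, hsum p p' ω (x.1 i) (x.2 j))
        - (∑ i, ∑ j, hsum g g' ω (x.1 i) (x.2 j)))]
    refine (Finset.expect_le_expect fun x _ => h1 x).trans ?_
    rw [Finset.expect_add_distrib, ← Finset.mul_expect, ← Finset.mul_expect]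
    have h2 := second p p' ω τ
    have h3 := second g g' ω τ
    unfold hsum at h2 h3
    unfold hsum
    refine (add_le_add (mul_le_mul_of_nonneg_left h2 (by norm_num : (0:ℝ) ≤ 2))
      (mul_le_mul_of_nonneg_left h3 (by norm_num : (0:ℝ) ≤ 2))).trans (le_of_eq ?_)
    ring

end Pool.Agent.Lib_helper67.LR
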