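import Mathlib

set_option autoImplicit false

open Polynomial

namespace Pool.Agent.Lib_helper98

/-- The cubic `X³ + 1`. -/
noncomputable def cub : ℚ[X] := X ^ 3 + 1

/-- The coordinate ring `ℚ[x, y]/(y² = x³ + 1)` of an affine elliptic curve. -/
abbrev EC : Type := QuadraticAlgebra ℚ[X] cub 0

theorem derivative_cub : derivative cub = 3 * X ^ 2 := by
  have h : derivative cub = C 3 * X ^ 2 := by
    simp only [cub, derivative_add, derivative_X_pow, derivative_one, add_zero]
    norm_num
  rw [h, map_ofNat]

theorem natDegree_cub : cub.natDegree = 3 := by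
  unfold cub
  compute_degree!

theorem cub_ne_zero : cub ≠ 0 := by
  intro h
  have := natDegree_cub
  rw [h] at this
  simp at this

/-- The regular vector field `2y ∂/∂x + 3x² ∂/∂y` on the affine elliptic curve. -/
noncomputable def tau : Derivation ℚ EC EC :=
  Derivation.mk'
    { toFun := fun f => ⟨derivative cub * f.im + 2 * cub * derivative f.im, 2 * derivative f.re⟩
      map_add' := by
        intro f g
        ext1
        · simp only [QuadraticAlgebra.im_add, QuadraticAlgebra.re_add, derivative_add]; ring
        · simp only [QuadraticAlgebra.im_add, QuadraticAlgebra.re_add, derivative_add]; ring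
      map_smul' := by
        intro r f
        ext1
        · simp only [QuadraticAlgebra.im_smul, QuadraticAlgebra.re_smul,
            RingHom.id_apply, smul_eq_C_mul, derivative_C_mul]; ring
        · simp only [QuadraticAlgebra.im_smul, QuadraticAlgebra.re_smul,
            RingHom.id_apply, smul_eq_C_mul, derivative_C_mul]; ring }
    (by
      intro f g
      ext1
      · simp only [LinearMap.coe_mk, AddHom.coe_mk, QuadraticAlgebra.im_mul,
          QuadraticAlgebra.re_mul, QuadraticAlgebra.re_add, smul_eq_mul,
          derivative_add, derivative_mul, derivative_zero]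
        ring
      · simp only [LinearMap.coe_mk, AddHom.coe_mk, QuadraticAlgebra.im_mul,
          QuadraticAlgebra.re_mul, smul_eq_mul,
          QuadraticAlgebra.im_add, derivative_add, derivative_mul]
        ring)

theorem tau_re (f : EC) : (tau f).re = derivative cub * f.im + 2 * cub * derivative f.im := rfl

theorem tau_im (f : EC) : (tau f).im = 2 * derivative f.re := rfl

/-- A sum of a square and `-cub` times a square vanishes only trivially. -/
theorem sq_eq_cub_mul_sq {a b : ℚ[X]} (h : a ^ 2 = cub * b ^ 2) : a = 0 ∧ b = 0 := by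
  by_cases hb : b = 0
  · subst hb
    simp at h
    exact ⟨h, rfl⟩
  · exfalso
    have ha : a ≠ 0 := by
      rintro rfl
      have : cub * b ^ 2 ≠ 0 := mul_ne_zero cub_ne_zero (pow_ne_zero _ hb)
      exact this (by rw [← h]; simp)
    have h1 := congrArg natDegree h
    rw [natDegree_mul cub_ne_zero (pow_ne_zero _ hb), natDegree_pow, natDegree_pow,
      natDegree_cub] at h1
    omega

instance : NoZeroDivisors EC where
  eq_zero_or_eq_zero_of_mul_eq_zero := by
    intro f g h
    by_cases hf : f = 0
    · exact Or.inl hf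
    right
    -- the norm
    have h1 : (f.re ^ 2 - cub * f.im ^ 2) ≠ 0 := by
      intro h0
      have := sq_eq_cub_mul_sq (sub_eq_zero.mp h0)
      exact hf (QuadraticAlgebra.ext this.1 this.2)
    have hre := congrArg QuadraticAlgebra.re h
    have him := congrArg QuadraticAlgebra.im h
    simp only [QuadraticAlgebra.re_mul, QuadraticAlgebra.im_mul, QuadraticAlgebra.re_zero,
      QuadraticAlgebra.im_zero] at hre him
    ext1
    · have : (f.re ^ 2 - cub * f.im ^ 2) * g.re = 0 := by
        linear_combination f.re * hre - cub * f.im * him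
      simpa using (mul_eq_zero.mp this).resolve_left h1
    · have : (f.re ^ 2 - cub * f.im ^ 2) * g.im = 0 := by
        linear_combination f.re * him - f.im * hre
      simpa using (mul_eq_zero.mp this).resolve_left h1

instance : IsDomain EC := NoZeroDivisors.to_isDomain EC

theorem key (g : ℚ[X]) (hg : g ≠ 0) (h1 : g ∣ cub * derivative g)
    (h2 : g ∣ derivative cub * derivative g + 2 * cub * derivative (derivative g)) :
    IsUnit g := by
  by_contra hu
  obtain ⟨q, hq, hqg⟩ := WfDvdMonoid.exists_irreducible_factor hu hg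
  have hqp : Prime q := hq.prime
  have hfin : FiniteMultiplicity q g := FiniteMultiplicity.of_prime_left hqp hg
  obtain ⟨u, hgu, hqu⟩ := hfin.exists_eq_pow_mul_and_not_dvd
  obtain ⟨j, hj⟩ : ∃ j, multiplicity q g = j + 1 := by
    have : multiplicity q g ≠ 0 := by
      intro h0
      rw [h0, pow_zero, one_mul] at hgu
      exact hqu (hgu ▸ hqg)
    exact Nat.exists_eq_succ_of_ne_zero this
  rw [hj] at hgu
  have hq0 : q ≠ 0 := hq.ne_zero
  have hqd : ¬ q ∣ derivative q := by
    intro hdvd
    have hdeg : 0 < q.natDegree := hq.natDegree_pos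
    have hne : derivative q ≠ 0 := by
      intro h0
      have := derivative_eq_zero.mp h0
      omega
    have h3 := natDegree_le_of_dvd hdvd hne
    have h4 := natDegree_derivative_lt (p := q) (by omega)
    omega
  have hconst : ∀ c : ℚ, c ≠ 0 → ¬ q ∣ C c := by
    intro c hc hdvd
    exact hq.not_isUnit (isUnit_of_dvd_unit hdvd (isUnit_C.mpr (isUnit_iff_ne_zero.mpr hc)))
  set w : ℚ[X] := C ((j : ℚ) + 1) * derivative q * u + q * derivative u with hw
  have hg' : derivative g = q ^ j * w := by
    rw [hgu, derivative_mul, derivative_pow]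
    simp only [Nat.cast_add, Nat.cast_one, Nat.add_sub_cancel, hw]
    ring
  have hqw : ¬ q ∣ w := by
    intro hdvd
    rw [hw] at hdvd
    have h3 : q ∣ C ((j : ℚ) + 1) * derivative q * u :=
      (dvd_add_left (Dvd.intro _ rfl)).mp hdvd
    rcases hqp.dvd_or_dvd h3 with h4 | h4
    · rcases hqp.dvd_or_dvd h4 with h5 | h5
      · exact hconst _ (by positivity) h5
      · exact hqd h5
    · exact hqu h4
  have hqj : q ^ j ≠ 0 := pow_ne_zero _ hq0
  -- first condition
  have hqc : q ∣ cub := by
    have h3 : q ^ j * q ∣ q ^ j * (cub * w) := by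
      have : q ^ (j + 1) ∣ cub * derivative g := (Dvd.intro _ hgu.symm).trans h1
      rw [hg'] at this
      rw [← pow_succ]
      convert this using 1
      ring
    have h4 : q ∣ cub * w := (mul_dvd_mul_iff_left hqj).mp h3
    exact (hqp.dvd_or_dvd h4).resolve_right hqw
  obtain ⟨r, hr⟩ := hqc
  have hcub' : derivative cub = derivative q * r + q * derivative r := by
    rw [hr, derivative_mul]
  -- second condition
  have hg'' : q * derivative (derivative g) = q ^ j * (C (j : ℚ) * derivative q * w
      + q * derivative w) := by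
    rw [hg', derivative_mul, derivative_pow]
    rcases j with _ | i
    · simp
    · simp only [Nat.cast_add, Nat.cast_one, Nat.add_sub_cancel]
      ring
  have hqr : q ∣ r := by
    have h3 : q ^ j * q ∣ q ^ j * (derivative cub * w + 2 * r * (C (j : ℚ) * derivative q * w
      + q * derivative w)) := by
      have : q ^ (j + 1) ∣ derivative cub * derivative g + 2 * cub * derivative (derivative g) :=
        (Dvd.intro _ hgu.symm).trans h2
      rw [← pow_succ]
      convert this using 1
      have : 2 * cub * derivative (derivative g)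
          = 2 * r * (q * derivative (derivative g)) := by rw [hr]; ring
      rw [this, hg'', hg']
      ring
    have h4 := (mul_dvd_mul_iff_left hqj).mp h3
    have h5 : q ∣ C (2 * (j : ℚ) + 1) * derivative q * r * w := by
      have h6 : derivative cub * w + 2 * r * (C (j : ℚ) * derivative q * w
          + q * derivative w) = C (2 * (j : ℚ) + 1) * derivative q * r * w
          + q * (derivative r * w + 2 * r * derivative w) := by
        rw [hcub']
        simp only [map_add, map_mul, map_one, map_ofNat]
        ring
      rw [h6] at h4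
      exact (dvd_add_left (Dvd.intro _ rfl)).mp h4
    rcases hqp.dvd_or_dvd h5 with h6 | h6
    · rcases hqp.dvd_or_dvd h6 with h7 | h7
      · rcases hqp.dvd_or_dvd h7 with h8 | h8
        · exact absurd h8 (hconst _ (by positivity))
        · exact absurd h8 hqd
      · exact h7
    · exact absurd h6 hqw
  have hqc' : q ∣ derivative cub := by
    rw [hcub']
    exact dvd_add (hqr.mul_left _) (Dvd.intro _ rfl)
  have hq1 : q ∣ 1 := by
    have h3 : (1 : ℚ[X]) = cub - C (1 / 3) * X * derivative cub := by
      rw [derivative_cub, cub]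
      have : (C (1 / 3) : ℚ[X]) * X * (3 * X ^ 2) = C (1 / 3 * 3) * X ^ 3 := by
        rw [map_mul]
        simp only [map_ofNat]
        ring
      rw [this]
      norm_num
    rw [h3]
    exact dvd_sub ⟨r, hr⟩ (hqc'.mul_left _)
  exact hq.not_isUnit (isUnit_of_dvd_one hq1)

/-- The coordinate ring has no nontrivial `tau`-stable ideals. -/
theorem tau_simple (J : Ideal EC) (hJ : ∀ x ∈ J, tau x ∈ J) (hJ0 : J ≠ ⊥) : J = ⊤ := by
  let J' : Ideal ℚ[X] := J.comap (algebraMap ℚ[X] EC)
  obtain ⟨g, hg⟩ := (IsPrincipalIdealRing.principal J').principal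
  have hmemJ' : ∀ a : ℚ[X], (⟨a, 0⟩ : EC) ∈ J ↔ g ∣ a := by
    intro a
    have : (⟨a, 0⟩ : EC) ∈ J ↔ a ∈ J' := Iff.rfl
    rw [this, hg, Ideal.submodule_span_eq, Ideal.mem_span_singleton]
  obtain ⟨f, hfJ, hf0⟩ := Submodule.exists_mem_ne_zero_of_ne_bot hJ0
  have hg0 : g ≠ 0 := by
    rintro rfl
    have h1 : (⟨f.re ^ 2 - cub * f.im ^ 2, 0⟩ : EC) ∈ J := by
      have := J.mul_mem_left (⟨f.re, - f.im⟩ : EC) hfJ
      convert this using 1
      ext1
      · simp only [QuadraticAlgebra.re_mul]; ring
      · simp only [QuadraticAlgebra.im_mul]; ring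
    rw [hmemJ', zero_dvd_iff, sub_eq_zero] at h1
    have := sq_eq_cub_mul_sq h1
    exact hf0 (QuadraticAlgebra.ext this.1 this.2)
  have hgJ : (⟨g, 0⟩ : EC) ∈ J := (hmemJ' g).mpr dvd_rfl
  have h1 := hJ _ hgJ
  have h2 := hJ _ h1
  have h3 : (⟨2 * (cub * derivative g), 0⟩ : EC) ∈ J := by
    have := J.mul_mem_left (⟨0, 1⟩ : EC) h1
    convert this using 1
    ext1
    · simp only [QuadraticAlgebra.re_mul, tau_re, tau_im]; ring
    · simp only [QuadraticAlgebra.im_mul, tau_re, tau_im, derivative_zero]; ring
  have h4 : (⟨2 * (derivative cub * derivative g + 2 * cub * derivative (derivative g)), 0⟩ : EC)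
      ∈ J := by
    convert h2 using 1
    ext1
    · simp only [tau_re, tau_im, derivative_mul, derivative_ofNat]; ring
    · simp only [tau_im, tau_re, derivative_zero, mul_zero, add_zero]
  have hunit2 : IsUnit (2 : ℚ[X]) := by
    have : (2 : ℚ[X]) = C 2 := (map_ofNat C 2).symm
    rw [this, isUnit_C]
    norm_num
  rw [hmemJ'] at h3 h4
  have h5 := key g hg0 (hunit2.dvd_mul_left.mp h3) (hunit2.dvd_mul_left.mp h4)
  rw [Ideal.eq_top_iff_one]
  have : (⟨1, 0⟩ : EC) ∈ J := (hmemJ' 1).mpr h5.dvd
  exact this

end Pool.Agent.Lib_helper98
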