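import Mathlib

set_option autoImplicit false

namespace Pool.Agent.Lib_helper98

/-- A Lie algebra over a field of characteristic zero with an exhaustive filtration `F n` by
subspaces, with one-dimensional pieces detected by functionals `ℓ n`, such that the bracket is
`(n - m) ℓ m x ℓ n y` in leading order `m + n + 1`: every element is ad-pure. -/
theorem adPure_of_filtration {K L : Type} [Field K] [CharZero K] [LieRing L] [LieAlgebra K L]
    (F : ℕ → Submodule K L) (ℓ : ℕ → L →ₗ[K] K) (hmono : Monotone F)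
    (hex : ∀ x, ∃ n, x ∈ F n)
    (hlead : ∀ x n, x ∈ F n → x ≠ 0 → ∃ m ≤ n, x ∈ F m ∧ ℓ m x ≠ 0)
    (hzero : ∀ x m n, x ∈ F m → m < n → ℓ n x = 0)
    (hF : ∀ x y m n, x ∈ F m → y ∈ F n → ⁅x, y⁆ ∈ F (m + n + 1))
    (hℓ : ∀ x y m n, x ∈ F m → y ∈ F n →
      ℓ (m + n + 1) ⁅x, y⁆ = ((n : K) - m) * ℓ m x * ℓ n y)
    (a : L) (V : Submodule K L) (hV : FiniteDimensional K V) (hinv : ∀ v ∈ V, ⁅a, v⁆ ∈ V) :
    ∀ v ∈ V, ⁅a, v⁆ = 0 := by
  intro v hv
  by_contra hav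
  have ha0 : a ≠ 0 := by
    rintro rfl
    exact hav (zero_lie v)
  have hv0 : v ≠ 0 := by
    rintro rfl
    exact hav (lie_zero a)
  obtain ⟨m₀, hm₀⟩ := hex a
  obtain ⟨m, -, ham, hlam⟩ := hlead a m₀ hm₀ ha0
  obtain ⟨w, hw, n, hnm, hwn, hlwn⟩ : ∃ w : L, ⁅a, w⁆ = ⁅a, v⁆ ∧ ∃ n, n ≠ m ∧ w ∈ F n ∧
      ℓ n w ≠ 0 := by
    obtain ⟨n₀, hn₀⟩ := hex v
    obtain ⟨n, -, hvn, hlvn⟩ := hlead v n₀ hn₀ hv0
    by_cases hnm : n = m
    · subst hnm
      have hbr : ⁅a, v - (ℓ n v / ℓ n a) • a⁆ = ⁅a, v⁆ := by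
        rw [lie_sub, lie_smul, lie_self, smul_zero, sub_zero]
      have hw0 : v - (ℓ n v / ℓ n a) • a ≠ 0 := by
        intro h
        rw [h, lie_zero] at hbr
        exact hav hbr.symm
      have hwF : v - (ℓ n v / ℓ n a) • a ∈ F n :=
        (F n).sub_mem hvn ((F n).smul_mem _ ham)
      obtain ⟨n', hn', hwn', hlw⟩ := hlead _ n hwF hw0
      refine ⟨_, hbr, n', ?_, hwn', hlw⟩
      rintro rfl
      apply hlw
      simp only [map_sub, map_smul, smul_eq_mul]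
      field_simp
      ring
    · exact ⟨v, rfl, n, hnm, hvn, hlvn⟩
  -- iterates
  have hiter : ∀ k : ℕ, ∃ u ∈ V, ∃ r, m + 1 + k ≤ r ∧ u ∈ F r ∧ ℓ r u ≠ 0 := by
    intro k
    induction k with
    | zero =>
      refine ⟨⁅a, w⁆, ?_, m + n + 1, by omega, hF _ _ _ _ ham hwn, ?_⟩
      · rw [hw]; exact hinv v hv
      · rw [hℓ _ _ _ _ ham hwn]
        refine mul_ne_zero (mul_ne_zero ?_ hlam) hlwn
        rw [sub_ne_zero]
        exact_mod_cast hnm
    | succ k ih =>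
      obtain ⟨u, huV, r, hr, hur, hlu⟩ := ih
      refine ⟨⁅a, u⁆, hinv u huV, m + r + 1, by omega, hF _ _ _ _ ham hur, ?_⟩
      rw [hℓ _ _ _ _ ham hur]
      refine mul_ne_zero (mul_ne_zero ?_ hlam) hlu
      rw [sub_ne_zero]
      have : r ≠ m := by omega
      exact_mod_cast this
  obtain ⟨N, hN⟩ : ∃ N, V ≤ F N := by
    have hfg : V.FG := (Submodule.fg_iff_finiteDimensional V).mpr hV
    obtain ⟨S, hS⟩ := hfg
    choose d hd using hex
    refine ⟨S.sup d, ?_⟩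
    rw [← hS, Submodule.span_le]
    intro x hx
    exact hmono (Finset.le_sup (f := d) hx) (hd x)
  obtain ⟨u, huV, r, hr, -, hlu⟩ := hiter N
  exact hlu (hzero u N r (hN huV) (by omega))

end Pool.Agent.Lib_helper98
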