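import Mathlib

set_option autoImplicit false

namespace Pool.Agent.Lib_helper98

/-- The rank one `A`-module `A·τ` of multiples of a derivation `τ` of a commutative algebra `A`,
as a type synonym of `A`: the element `f` stands for `f·τ`. -/
def VF {K A : Type} [Field K] [CommRing A] [Algebra K A] (_τ : Derivation K A A) : Type := A

section VF

variable {K A : Type} [Field K] [CommRing A] [Algebra K A] (τ : Derivation K A A)

instance : AddCommGroup (VF τ) := inferInstanceAs (AddCommGroup A)

instance : Module K (VF τ) := inferInstanceAs (Module K A)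

/-- The vector field `f·τ`. -/
def VF.of : A ≃ₗ[K] VF τ := LinearEquiv.refl K A

/-- The bracket `[fτ, gτ] = (f τ(g) - g τ(f)) τ`. -/
instance : Bracket (VF τ) (VF τ) :=
  ⟨fun f g => VF.of τ ((VF.of τ).symm f * τ ((VF.of τ).symm g)
    - (VF.of τ).symm g * τ ((VF.of τ).symm f))⟩

theorem VF.lie_def (f g : VF τ) : ⁅f, g⁆ = VF.of τ ((VF.of τ).symm f * τ ((VF.of τ).symm g)
    - (VF.of τ).symm g * τ ((VF.of τ).symm f)) := rfl

theorem VF.of_lie_of (f g : A) :
    ⁅VF.of τ f, VF.of τ g⁆ = VF.of τ (f * τ g - g * τ f) := by
  simp [VF.lie_def]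

theorem VF.symm_lie (f g : VF τ) : (VF.of τ).symm ⁅f, g⁆ = ((VF.of τ).symm f * τ ((VF.of τ).symm g)
    - (VF.of τ).symm g * τ ((VF.of τ).symm f)) := by
  simp [VF.lie_def]

instance : LieRing (VF τ) where
  add_lie x y z := by
    apply (VF.of τ).symm.injective
    simp only [VF.symm_lie, map_add]
    ring
  lie_add x y z := by
    apply (VF.of τ).symm.injective
    simp only [VF.symm_lie, map_add]
    ring
  lie_self x := by
    apply (VF.of τ).symm.injective
    simp only [VF.symm_lie, map_zero]
    ring
  leibniz_lie x y z := by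
    apply (VF.of τ).symm.injective
    simp only [VF.symm_lie, map_add, map_sub, Derivation.leibniz, smul_eq_mul]
    ring

instance : LieAlgebra K (VF τ) where
  lie_smul t x y := by
    apply (VF.of τ).symm.injective
    simp only [VF.symm_lie, map_smul, Derivation.map_smul, smul_sub, mul_smul_comm, smul_mul_assoc]

/-- Jordan's theorem in rank one: if `A` is a domain of characteristic not two, `τ` is a nonzero
derivation and the only `τ`-stable ideals of `A` are `0` and `A`, then the Lie algebra `A·τ` is
simple. -/
theorem VF.isSimple [IsDomain A] (h2 : (2 : K) ≠ 0) (hτ : τ ≠ 0)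
    (hsimple : ∀ J : Ideal A, (∀ x ∈ J, τ x ∈ J) → J ≠ ⊥ → J = ⊤) :
    LieAlgebra.IsSimple K (VF τ) := by
  obtain ⟨a, ha⟩ : ∃ a, τ a ≠ 0 := by
    by_contra h
    push Not at h
    exact hτ (by ext x; simpa using h x)
  refine ⟨?_, ?_⟩
  · intro I
    by_cases hI : I = ⊥
    · exact Or.inl hI
    right
    -- the subspace of `A`
    have hmem : ∀ f : A, VF.of τ f ∈ I → ∀ g : A, VF.of τ (f * τ g - g * τ f) ∈ I := by
      intro f hf g
      rw [← VF.of_lie_of, ← lie_skew]
      exact I.neg_mem (I.lie_mem hf)
    have hder : ∀ f : A, VF.of τ f ∈ I → VF.of τ (τ f) ∈ I := by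
      intro f hf
      have := hmem f hf 1
      simp only [Derivation.map_one_eq_zero, mul_zero, one_mul, zero_sub, map_neg] at this
      exact neg_mem_iff.mp this
    have hadd : ∀ f g : A, VF.of τ f ∈ I → VF.of τ g ∈ I → VF.of τ (f + g) ∈ I := by
      intro f g hf hg
      rw [map_add]
      exact I.add_mem hf hg
    have hsub : ∀ f g : A, VF.of τ f ∈ I → VF.of τ g ∈ I → VF.of τ (f - g) ∈ I := by
      intro f g hf hg
      rw [map_sub]
      exact I.sub_mem hf hg
    -- `4 f a' b' ∈ I`
    have h4 : ∀ f : A, VF.of τ f ∈ I → ∀ a b : A, VF.of τ (f * τ a * τ b) ∈ I := by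
      intro f hf a b
      have e1 := hmem _ (hmem f hf a) b
      have e2 := hmem _ (hmem f hf b) a
      have e3 := hder _ (hmem f hf (a * b))
      have e4 := hmem _ (hder f hf) (a * b)
      have e5 := hadd _ _ (hadd _ _ e1 e2) (hadd _ _ e3 e4)
      have e6 : VF.of τ ((4 : K) • (f * τ a * τ b)) ∈ I := by
        convert e5 using 2
        simp only [Derivation.leibniz, smul_eq_mul, map_add, map_sub, Algebra.smul_def,
          map_ofNat]
        ring
      rw [map_smul] at e6
      have h40 : (4 : K) ≠ 0 := by
        have : (4 : K) = 2 * 2 := by norm_num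
        rw [this]
        exact mul_ne_zero h2 h2
      exact (Submodule.smul_mem_iff (I : Submodule K (VF τ)) h40).mp e6
    have hP : ∀ f : A, VF.of τ f ∈ I → ∀ a b c : A, VF.of τ (f * τ a * τ b * c) ∈ I := by
      intro f hf a b c
      have e1 := h4 f hf (a * c) b
      have e2 := h4 f hf (b * a) c
      have e3 := h4 f hf (c * b) a
      have e5 := hadd _ _ (hsub _ _ e1 e2) e3
      have e6 : VF.of τ ((2 : K) • (f * τ a * τ b * c)) ∈ I := by
        convert e5 using 2
        simp only [Derivation.leibniz, smul_eq_mul, Algebra.smul_def, map_ofNat]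
        ring
      rw [map_smul] at e6
      exact (Submodule.smul_mem_iff (I : Submodule K (VF τ)) h2).mp e6
    -- the largest ideal of `A` inside `I`
    let J : Ideal A :=
      { carrier := {h | ∀ c, VF.of τ (h * c) ∈ I}
        add_mem' := by
          intro x y hx hy c
          rw [add_mul]
          exact hadd _ _ (hx c) (hy c)
        zero_mem' := by
          intro c
          rw [zero_mul, map_zero]
          exact I.zero_mem
        smul_mem' := by
          intro r x hx c
          have := hx (r * c)
          rwa [smul_eq_mul, mul_comm r x, mul_assoc] }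
    have hJ : ∀ x ∈ J, τ x ∈ J := by
      intro x hx c
      have e1 := hder _ (hx c)
      have e2 := hx (τ c)
      have e3 := hsub _ _ e1 e2
      convert e3 using 2
      simp only [Derivation.leibniz, smul_eq_mul]
      ring
    have hJ0 : J ≠ ⊥ := by
      obtain ⟨f, hf, hf0⟩ : ∃ f, f ∈ I ∧ f ≠ 0 := by
        by_contra hcon
        push Not at hcon
        exact hI ((LieSubmodule.eq_bot_iff I).mpr hcon)
      have hmemJ : (VF.of τ).symm f * τ a * τ a ∈ J := by
        intro c
        exact hP _ (by simpa using hf) a a c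
      intro h
      rw [h] at hmemJ
      have : (VF.of τ).symm f * τ a * τ a = 0 := by simpa using hmemJ
      have hf1 : (VF.of τ).symm f ≠ 0 := by simpa using hf0
      exact mul_ne_zero (mul_ne_zero hf1 ha) ha this
    have hJT := hsimple J hJ hJ0
    rw [eq_top_iff]
    intro x _
    have h1 : (1 : A) ∈ J := by rw [hJT]; trivial
    have := h1 ((VF.of τ).symm x)
    simpa using this
  · intro h
    have := h.trivial (VF.of τ 1) (VF.of τ a)
    rw [VF.of_lie_of] at this
    simp only [one_mul, Derivation.map_one_eq_zero, mul_zero, sub_zero] at this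
    exact ha ((VF.of τ).injective (by simpa using this))

end VF

end Pool.Agent.Lib_helper98
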