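import Mathlib
import Pool.Agent.Lib_helper98.VF
import Pool.Agent.Lib_helper98.Pure
import Pool.Agent.Lib_helper98.Curve

set_option autoImplicit false

open Polynomial

namespace Pool.Agent.Lib_helper98

/-- The polynomial in one variable `t` obtained by `x ↦ t²`, `y ↦ t³` on the standard basis: its
degree is the pole order at infinity. -/
noncomputable def pol : EC →ₗ[ℚ] ℚ[X] where
  toFun f := expand ℚ 2 f.re + X ^ 3 * expand ℚ 2 f.im
  map_add' f g := by
    simp only [QuadraticAlgebra.re_add, QuadraticAlgebra.im_add, map_add]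
    ring
  map_smul' r f := by
    simp only [QuadraticAlgebra.re_smul, QuadraticAlgebra.im_smul, map_smul, RingHom.id_apply,
      smul_add, mul_smul_comm]

theorem pol_apply (f : EC) : pol f = expand ℚ 2 f.re + X ^ 3 * expand ℚ 2 f.im := rfl

theorem natDegree_expand_two (a : ℚ[X]) : (expand ℚ 2 a).natDegree = 2 * a.natDegree := by
  rw [natDegree_expand, mul_comm]

theorem natDegree_X3_expand {b : ℚ[X]} (hb : b ≠ 0) :
    (X ^ 3 * expand ℚ 2 b).natDegree = 2 * b.natDegree + 3 := by
  have h1 : expand ℚ 2 b ≠ 0 := by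
    rwa [Ne, expand_eq_zero (by norm_num)]
  rw [natDegree_mul (pow_ne_zero _ X_ne_zero) h1, natDegree_X_pow, natDegree_expand_two]
  ring

theorem pol_natDegree_aux (f : EC) :
    (expand ℚ 2 f.re).natDegree ≤ (pol f).natDegree ∧
    (X ^ 3 * expand ℚ 2 f.im).natDegree ≤ (pol f).natDegree ∧
    (expand ℚ 2 f.im).natDegree ≤ (pol f).natDegree := by
  rw [pol_apply]
  by_cases hb : f.im = 0
  · simp [hb]
  · have h3 := natDegree_X3_expand hb
    have h2 := natDegree_expand_two f.re
    have h4 := natDegree_expand_two f.im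
    rcases lt_or_gt_of_ne (show (expand ℚ 2 f.re).natDegree ≠
      (X ^ 3 * expand ℚ 2 f.im).natDegree by rw [h2, h3]; omega) with h | h
    · rw [natDegree_add_eq_right_of_natDegree_lt h]
      omega
    · rw [natDegree_add_eq_left_of_natDegree_lt h]
      omega

theorem pol_eq_zero {f : EC} (h : pol f = 0) : f = 0 := by
  have h1 := pol_natDegree_aux f
  have him : f.im = 0 := by
    by_contra hb
    have h3 := natDegree_X3_expand hb
    rw [h] at h1
    simp only [natDegree_zero] at h1
    omega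
  rw [pol_apply, him] at h
  simp only [map_zero, mul_zero, add_zero] at h
  rw [expand_eq_zero (by norm_num)] at h
  exact QuadraticAlgebra.ext h him

theorem coeff_X2_derivative (p : ℚ[X]) (n : ℕ) :
    (X ^ 2 * derivative p).coeff (n + 1) = n * p.coeff n := by
  rw [coeff_X_pow_mul']
  rcases n with _ | n
  · simp
  · rw [if_pos (by omega), show n + 1 + 1 - 2 = n by omega, coeff_derivative]
    push_cast
    ring

theorem natDegree_X2_derivative {p : ℚ[X]} {n : ℕ} (h : p.natDegree ≤ n) :
    (X ^ 2 * derivative p).natDegree ≤ n + 1 := by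
  rw [natDegree_le_iff_coeff_eq_zero]
  intro N hN
  obtain ⟨k, rfl⟩ : ∃ k, N = k + 1 := ⟨N - 1, by omega⟩
  rw [coeff_X2_derivative, coeff_eq_zero_of_natDegree_lt (by omega), mul_zero]

/-- The correction term. -/
theorem pol_bracket (f g : EC) :
    pol (f * tau g - g * tau f) =
      (pol f * (X ^ 2 * derivative (pol g)) - pol g * (X ^ 2 * derivative (pol f))) +
      (2 * (expand ℚ 2 f.re * expand ℚ 2 (derivative g.im)
        + expand ℚ 2 f.im * expand ℚ 2 (derivative g.re)
        - expand ℚ 2 g.re * expand ℚ 2 (derivative f.im)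
        - expand ℚ 2 g.im * expand ℚ 2 (derivative f.re))
      + 2 * (X ^ 3 * expand ℚ 2 f.im * expand ℚ 2 (derivative g.im)
        - X ^ 3 * expand ℚ 2 g.im * expand ℚ 2 (derivative f.im))) := by
  have hc : expand ℚ 2 cub = X ^ 6 + 1 := by
    simp only [cub, map_add, map_pow, expand_X, map_one]
    ring
  have hc' : expand ℚ 2 (derivative cub) = 3 * X ^ 4 := by
    rw [derivative_cub]
    simp only [map_mul, map_pow, expand_X, map_ofNat]
    ring
  simp only [pol_apply, derivative_add, derivative_mul, derivative_expand, derivative_X_pow,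
    QuadraticAlgebra.re_mul, QuadraticAlgebra.im_mul, QuadraticAlgebra.re_sub,
    QuadraticAlgebra.im_sub, tau_re, tau_im, map_add, map_sub, map_mul, hc, hc', map_ofNat,
    map_zero, zero_mul, add_zero, Nat.cast_ofNat]
  ring

theorem natDegree_expand_derivative_le (a : ℚ[X]) :
    (expand ℚ 2 (derivative a)).natDegree ≤ (expand ℚ 2 a).natDegree := by
  rw [natDegree_expand_two, natDegree_expand_two]
  have := natDegree_derivative_le a
  omega

theorem natDegree_corr {f g : EC} {m n : ℕ} (hf : (pol f).natDegree ≤ m)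
    (hg : (pol g).natDegree ≤ n) :
    (2 * (expand ℚ 2 f.re * expand ℚ 2 (derivative g.im)
        + expand ℚ 2 f.im * expand ℚ 2 (derivative g.re)
        - expand ℚ 2 g.re * expand ℚ 2 (derivative f.im)
        - expand ℚ 2 g.im * expand ℚ 2 (derivative f.re))
      + 2 * (X ^ 3 * expand ℚ 2 f.im * expand ℚ 2 (derivative g.im)
        - X ^ 3 * expand ℚ 2 g.im * expand ℚ 2 (derivative f.im))).natDegree ≤ m + n := by
  obtain ⟨f1, f2, f3⟩ := pol_natDegree_aux f
  obtain ⟨g1, g2, g3⟩ := pol_natDegree_aux g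
  have f4 := natDegree_expand_derivative_le f.re
  have f5 := natDegree_expand_derivative_le f.im
  have g4 := natDegree_expand_derivative_le g.re
  have g5 := natDegree_expand_derivative_le g.im
  have h2 : ∀ q : ℚ[X], q.natDegree ≤ m + n → (2 * q).natDegree ≤ m + n := by
    intro q hq
    have : (2 : ℚ[X]) * q = C 2 * q := by rw [map_ofNat]
    rw [this]
    exact (natDegree_C_mul_le _ _).trans hq
  have hmul : ∀ p q : ℚ[X], p.natDegree ≤ m → q.natDegree ≤ n → (p * q).natDegree ≤ m + n :=
    fun p q hp hq => natDegree_mul_le.trans (by omega)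
  have hmul' : ∀ p q : ℚ[X], p.natDegree ≤ n → q.natDegree ≤ m → (p * q).natDegree ≤ m + n :=
    fun p q hp hq => natDegree_mul_le.trans (by omega)
  have hsub : ∀ p q : ℚ[X], p.natDegree ≤ m + n → q.natDegree ≤ m + n →
      (p - q).natDegree ≤ m + n :=
    fun p q hp hq => (natDegree_sub_le p q).trans (by omega)
  have hadd : ∀ p q : ℚ[X], p.natDegree ≤ m + n → q.natDegree ≤ m + n →
      (p + q).natDegree ≤ m + n :=
    fun p q hp hq => (natDegree_add_le p q).trans (by omega)
  refine hadd _ _ (h2 _ (hsub _ _ (hsub _ _ (hadd _ _ (hmul _ _ ?_ ?_) (hmul _ _ ?_ ?_))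
    (hmul' _ _ ?_ ?_)) (hmul' _ _ ?_ ?_))) (h2 _ (hsub _ _ (hmul _ _ ?_ ?_) (hmul' _ _ ?_ ?_)))
  all_goals omega

theorem pol_bracket_natDegree {f g : EC} {m n : ℕ} (hf : (pol f).natDegree ≤ m)
    (hg : (pol g).natDegree ≤ n) :
    (pol (f * tau g - g * tau f)).natDegree ≤ m + n + 1 := by
  rw [pol_bracket]
  have h1 := natDegree_corr hf hg
  have h2 := natDegree_X2_derivative hf
  have h3 := natDegree_X2_derivative hg
  have h4 : (pol f * (X ^ 2 * derivative (pol g))).natDegree ≤ m + n + 1 :=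
    natDegree_mul_le.trans (by omega)
  have h5 : (pol g * (X ^ 2 * derivative (pol f))).natDegree ≤ m + n + 1 :=
    natDegree_mul_le.trans (by omega)
  refine (natDegree_add_le _ _).trans (max_le ((natDegree_sub_le _ _).trans (max_le h4 h5)) ?_)
  omega

theorem pol_bracket_coeff {f g : EC} {m n : ℕ} (hf : (pol f).natDegree ≤ m)
    (hg : (pol g).natDegree ≤ n) :
    (pol (f * tau g - g * tau f)).coeff (m + n + 1) =
      ((n : ℚ) - m) * (pol f).coeff m * (pol g).coeff n := by
  rw [pol_bracket, coeff_add, coeff_sub,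
    coeff_eq_zero_of_natDegree_lt (Nat.lt_succ_of_le (natDegree_corr hf hg)), add_zero]
  have h1 : (pol f * (X ^ 2 * derivative (pol g))).coeff (m + n + 1) =
      (pol f).coeff m * (n * (pol g).coeff n) := by
    rw [← coeff_X2_derivative, add_assoc]
    exact coeff_mul_add_eq_of_natDegree_le hf (natDegree_X2_derivative hg)
  have h2 : (pol g * (X ^ 2 * derivative (pol f))).coeff (m + n + 1) =
      (pol g).coeff n * (m * (pol f).coeff m) := by
    rw [← coeff_X2_derivative, show m + n + 1 = n + (m + 1) by ring]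
    exact coeff_mul_add_eq_of_natDegree_le hg (natDegree_X2_derivative hf)
  rw [h1, h2]
  ring

/-- The filtration by pole order at infinity. -/
noncomputable def Fil (n : ℕ) : Submodule ℚ (VF tau) :=
  (degreeLE ℚ (n : WithBot ℕ)).comap (pol ∘ₗ ((VF.of tau).symm : VF tau →ₗ[ℚ] EC))

theorem mem_Fil {n : ℕ} {x : VF tau} : x ∈ Fil n ↔ (pol ((VF.of tau).symm x)).natDegree ≤ n := by
  rw [Fil, Submodule.mem_comap, mem_degreeLE, natDegree_le_iff_degree_le]
  rfl

/-- The leading coefficient functional. -/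
noncomputable def lead (n : ℕ) : VF tau →ₗ[ℚ] ℚ :=
  (lcoeff ℚ n) ∘ₗ pol ∘ₗ ((VF.of tau).symm : VF tau →ₗ[ℚ] EC)

theorem lead_apply (n : ℕ) (x : VF tau) : lead n x = (pol ((VF.of tau).symm x)).coeff n := rfl

theorem vf_adPure (a : VF tau) (V : Submodule ℚ (VF tau)) (hV : FiniteDimensional ℚ V)
    (hinv : ∀ v ∈ V, ⁅a, v⁆ ∈ V) : ∀ v ∈ V, ⁅a, v⁆ = 0 := by
  refine adPure_of_filtration Fil lead ?_ ?_ ?_ ?_ ?_ ?_ a V hV hinv
  · intro m n hmn x hx
    rw [mem_Fil] at hx ⊢
    exact hx.trans hmn
  · intro x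
    exact ⟨_, mem_Fil.mpr le_rfl⟩
  · intro x n hx hx0
    refine ⟨_, mem_Fil.mp hx, mem_Fil.mpr le_rfl, ?_⟩
    rw [lead_apply]
    intro h
    have h1 : pol ((VF.of tau).symm x) = 0 := leadingCoeff_eq_zero.mp h
    have h2 := pol_eq_zero h1
    exact hx0 (by simpa using h2)
  · intro x m n hx hmn
    rw [mem_Fil] at hx
    rw [lead_apply]
    exact coeff_eq_zero_of_natDegree_lt (lt_of_le_of_lt hx hmn)
  · intro x y m n hx hy
    rw [mem_Fil] at hx hy ⊢
    rw [VF.symm_lie]
    exact pol_bracket_natDegree hx hy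
  · intro x y m n hx hy
    rw [mem_Fil] at hx hy
    rw [lead_apply, lead_apply, lead_apply, VF.symm_lie]
    exact pol_bracket_coeff hx hy

theorem tau_ne_zero : tau ≠ 0 := by
  intro h
  have h1 : (tau ⟨X, 0⟩).im = 0 := by rw [h]; rfl
  rw [tau_im] at h1
  simp at h1

theorem vf_isSimple : LieAlgebra.IsSimple ℚ (VF tau) :=
  VF.isSimple tau (by norm_num) tau_ne_zero tau_simple

end Pool.Agent.Lib_helper98
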