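import Mathlib

set_option autoImplicit false

open Polynomial

namespace Pool.Agent.Lib_helper98

universe u

/-- The three-dimensional twisted cross product algebra over `C`:
`[e₀, e₁] = γ e₂`, `[e₁, e₂] = α e₀`, `[e₂, e₀] = β e₁`. -/
def Tw {C : Type u} (_α _β _γ : C) : Type u := Fin 3 → C

section Tw

variable {C : Type u} [Field C] (α β γ : C)

instance : AddCommGroup (Tw α β γ) := inferInstanceAs (AddCommGroup (Fin 3 → C))

instance {K : Type u} [Field K] [Algebra K C] : Module K (Tw α β γ) :=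
  inferInstanceAs (Module K (Fin 3 → C))

variable {α β γ}

theorem Tw.add_apply (x y : Tw α β γ) (i : Fin 3) : (x + y) i = x i + y i := rfl

theorem Tw.zero_apply (i : Fin 3) : (0 : Tw α β γ) i = 0 := rfl

theorem Tw.smul_apply {K : Type u} [Field K] [Algebra K C] (c : K) (x : Tw α β γ) (i : Fin 3) :
    (c • x) i = c • x i := rfl

omit [Field C] in
@[ext]
theorem Tw.ext {x y : Tw α β γ} (h0 : x 0 = y 0) (h1 : x 1 = y 1) (h2 : x 2 = y 2) : x = y := by
  refine _root_.funext fun i => ?_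
  fin_cases i
  · exact h0
  · exact h1
  · exact h2

instance : Bracket (Tw α β γ) (Tw α β γ) :=
  ⟨fun x y => (![α * (x 1 * y 2 - x 2 * y 1), β * (x 2 * y 0 - x 0 * y 2),
    γ * (x 0 * y 1 - x 1 * y 0)] : Fin 3 → C)⟩

theorem Tw.lie0 (x y : Tw α β γ) : ⁅x, y⁆ 0 = α * (x 1 * y 2 - x 2 * y 1) := rfl
theorem Tw.lie1 (x y : Tw α β γ) : ⁅x, y⁆ 1 = β * (x 2 * y 0 - x 0 * y 2) := rfl
theorem Tw.lie2 (x y : Tw α β γ) : ⁅x, y⁆ 2 = γ * (x 0 * y 1 - x 1 * y 0) := rfl

instance : LieRing (Tw α β γ) where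
  add_lie x y z := by
    ext1 <;> simp only [Tw.lie0, Tw.lie1, Tw.lie2, Tw.add_apply] <;> ring
  lie_add x y z := by
    ext1 <;> simp only [Tw.lie0, Tw.lie1, Tw.lie2, Tw.add_apply] <;> ring
  lie_self x := by
    ext1 <;> simp only [Tw.lie0, Tw.lie1, Tw.lie2, Tw.zero_apply] <;> ring
  leibniz_lie x y z := by
    ext1 <;> simp only [Tw.lie0, Tw.lie1, Tw.lie2, Tw.add_apply] <;> ring

instance {K : Type u} [Field K] [Algebra K C] : LieAlgebra K (Tw α β γ) where
  lie_smul t x y := by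
    ext1 <;> simp only [Tw.lie0, Tw.lie1, Tw.lie2, Tw.smul_apply, Algebra.smul_def] <;> ring

/-- The quadratic form `q` with `(ad x)³ = -q(x) ad x`. -/
def Tw.q (x : Tw α β γ) : C := β * γ * (x 0) ^ 2 + α * γ * (x 1) ^ 2 + α * β * (x 2) ^ 2

theorem Tw.lie_lie_lie (x y : Tw α β γ) : ⁅x, ⁅x, ⁅x, y⁆⁆⁆ = -(Tw.q x • ⁅x, y⁆) := by
  rw [← neg_smul]
  ext1 <;> simp only [Tw.lie0, Tw.lie1, Tw.lie2, Tw.smul_apply, Tw.q, smul_eq_mul] <;> ring

/-- If `q` takes only values transcendental over `K` (outside `0`), every element is ad-pure. -/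
theorem Tw.adPure {K : Type u} [Field K] [Algebra K C]
    (hq : ∀ x : Tw α β γ, x ≠ 0 → Transcendental K (Tw.q x)) (a : Tw α β γ)
    (V : Submodule K (Tw α β γ)) (hV : FiniteDimensional K V) (hinv : ∀ v ∈ V, ⁅a, v⁆ ∈ V) :
    ∀ v ∈ V, ⁅a, v⁆ = 0 := by
  intro v hv
  by_contra hav
  have ha0 : a ≠ 0 := by
    rintro rfl
    exact hav (zero_lie v)
  have hqa := hq a ha0
  have hpow : ∀ n : ℕ, (Tw.q a ^ n) • ⁅a, v⁆ ∈ V ∧
      ∃ u : Tw α β γ, (Tw.q a ^ n) • ⁅a, v⁆ = ⁅a, u⁆ := by
    intro n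
    induction n with
    | zero => exact ⟨by simpa using hinv v hv, v, by simp⟩
    | succ n ih =>
      obtain ⟨h1, w, hw⟩ := ih
      have h2 : (Tw.q a ^ (n + 1)) • ⁅a, v⁆ = -⁅a, ⁅a, ⁅a, w⁆⁆⁆ := by
        rw [Tw.lie_lie_lie, neg_neg, ← hw, smul_smul, ← pow_succ']
      refine ⟨?_, -⁅a, ⁅a, w⁆⁆, ?_⟩
      · rw [h2, ← hw]
        exact V.neg_mem (hinv _ (hinv _ h1))
      · rw [h2, lie_neg]
  -- the map `p ↦ p(q) • [a, v]`
  let φ : K[X] →ₗ[K] Tw α β γ :=
    { toFun := fun p => (aeval (Tw.q a) p) • ⁅a, v⁆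
      map_add' := fun p r => by rw [map_add, add_smul]
      map_smul' := fun c p => by
        rw [map_smul]
        ext1 <;> simp only [Tw.smul_apply, smul_eq_mul, Algebra.smul_def,
          RingHom.id_apply] <;> ring }
  have hφV : ∀ p, φ p ∈ V := by
    intro p
    induction p using Polynomial.induction_on' with
    | add p r hp hr => rw [map_add]; exact V.add_mem hp hr
    | monomial n c =>
      have : φ (monomial n c) = c • ((Tw.q a ^ n) • ⁅a, v⁆) := by
        change (aeval (Tw.q a) (monomial n c)) • ⁅a, v⁆ = _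
        rw [aeval_monomial]
        ext1 <;> simp only [Tw.smul_apply, smul_eq_mul, Algebra.smul_def] <;> ring
      rw [this]
      exact V.smul_mem c (hpow n).1
  have hφinj : Function.Injective φ := by
    rw [injective_iff_map_eq_zero]
    intro p hp
    have hp' : (aeval (Tw.q a) p) • ⁅a, v⁆ = 0 := hp
    rcases smul_eq_zero.mp hp' with h | h
    · exact (transcendental_iff.mp hqa) p h
    · exact absurd h hav
  have hψ : Function.Injective (φ.codRestrict V hφV) := by
    intro p r hpr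
    exact hφinj (congrArg Subtype.val hpr)
  have hfin : Module.Finite K K[X] := Module.Finite.of_injective _ hψ
  exact Polynomial.not_finite hfin

/-- The twisted cross product algebra with nonzero parameters is simple over every subfield. -/
theorem Tw.isSimple {K : Type u} [Field K] [Algebra K C] (hα : α ≠ 0) (hβ : β ≠ 0) (hγ : γ ≠ 0) :
    LieAlgebra.IsSimple K (Tw α β γ) := by
  let e (z0 z1 z2 : C) : Tw α β γ := (![z0, z1, z2] : Fin 3 → C)
  have e0 : ∀ z0 z1 z2, e z0 z1 z2 0 = z0 := fun _ _ _ => rfl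
  have e1 : ∀ z0 z1 z2, e z0 z1 z2 1 = z1 := fun _ _ _ => rfl
  have e2 : ∀ z0 z1 z2, e z0 z1 z2 2 = z2 := fun _ _ _ => rfl
  refine ⟨?_, ?_⟩
  · intro I
    by_cases hI : I = ⊥
    · exact Or.inl hI
    right
    have hlie : ∀ x ∈ I, ∀ y : Tw α β γ, ⁅x, y⁆ ∈ I := by
      intro x hx y
      rw [← lie_skew]
      exact I.neg_mem (I.lie_mem hx)
    -- each axis generates everything
    have hax1 : (∀ z, e 0 z 0 ∈ I) → I = ⊤ := by
      intro h
      have h0 : ∀ z, e z 0 0 ∈ I := by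
        intro z
        have := hlie _ (h (z / α)) (e 0 0 1)
        convert this using 1
        ext1 <;> simp only [Tw.lie0, Tw.lie1, Tw.lie2, e0, e1, e2] <;> field_simp <;> ring
      have h2 : ∀ z, e 0 0 z ∈ I := by
        intro z
        have := hlie _ (h0 (z / γ)) (e 0 1 0)
        convert this using 1
        ext1 <;> simp only [Tw.lie0, Tw.lie1, Tw.lie2, e0, e1, e2] <;> field_simp <;> ring
      rw [eq_top_iff]
      intro x _
      have : x = e (x 0) 0 0 + e 0 (x 1) 0 + e 0 0 (x 2) := by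
        ext1 <;> simp only [Tw.add_apply, e0, e1, e2] <;> ring
      rw [this]
      exact I.add_mem (I.add_mem (h0 _) (h _)) (h2 _)
    have hax0 : (∀ z, e z 0 0 ∈ I) → I = ⊤ := by
      intro h
      apply hax1
      intro z
      have := hlie _ (h (-z / β)) (e 0 0 1)
      convert this using 1
      ext1 <;> simp only [Tw.lie0, Tw.lie1, Tw.lie2, e0, e1, e2] <;> field_simp <;> ring
    have hax2 : (∀ z, e 0 0 z ∈ I) → I = ⊤ := by
      intro h
      apply hax0
      intro z
      have := hlie _ (h (-z / α)) (e 0 1 0)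
      convert this using 1
      ext1 <;> simp only [Tw.lie0, Tw.lie1, Tw.lie2, e0, e1, e2] <;> field_simp <;> ring
    obtain ⟨a, haI, ha0⟩ : ∃ a, a ∈ I ∧ a ≠ 0 := by
      by_contra hcon
      push Not at hcon
      exact hI ((LieSubmodule.eq_bot_iff I).mpr hcon)
    by_cases h0 : a 0 = 0
    · by_cases h1 : a 1 = 0
      · have h2 : a 2 ≠ 0 := by
          intro h2
          exact ha0 (Tw.ext h0 h1 h2)
        apply hax1
        intro z
        have := hlie _ haI (e (z / (β * a 2)) 0 0)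
        convert this using 1
        ext1 <;> simp only [Tw.lie0, Tw.lie1, Tw.lie2, e0, e1, e2, h0, h1] <;> field_simp <;> ring
      · apply hax2
        intro z
        have := hlie _ (hlie _ (hlie _ haI (e 0 0 1)) (e 0 0 1)) (e (z / (α * β * γ * a 1)) 0 0)
        convert this using 1
        ext1 <;> simp only [Tw.lie0, Tw.lie1, Tw.lie2, e0, e1, e2, h0] <;> field_simp <;> ring
    · apply hax1
      intro z
      have := hlie _ (hlie _ (hlie _ haI (e 0 1 0)) (e 0 1 0)) (e 0 0 (z / (α * β * γ * a 0)))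
      convert this using 1
      ext1 <;> simp only [Tw.lie0, Tw.lie1, Tw.lie2, e0, e1, e2] <;> field_simp <;> ring
  · intro h
    have h1 := h.trivial (e 1 0 0) (e 0 1 0)
    have h2 : ⁅e 1 0 0, e 0 1 0⁆ 2 = (0 : C) := by rw [h1]; rfl
    rw [Tw.lie2] at h2
    simp only [e0, e1] at h2
    exact hγ (by linear_combination h2)

end Tw

end Pool.Agent.Lib_helper98
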