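import Mathlib
import Pool.Agent.Lib_helper98.Twist

set_option autoImplicit false

open Polynomial

namespace Pool.Agent.Lib_helper98

universe u

/-- The value group `ℤ × ℤ`, ordered lexicographically. -/
abbrev Gam : Type := Lex (ℤ × ℤ)

variable {K : Type u} [Field K]

theorem transcendental_of_order_pos {q : HahnSeries Gam K} (hpos : 0 < q.order) :
    Transcendental K q := by
  intro halg
  have hq0 : q ≠ 0 := by
    rintro rfl
    simp at hpos
  have hint : IsIntegral K q := halg.isIntegral
  have hP0 := minpoly.coeff_zero_ne_zero hint hq0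
  have hae := minpoly.aeval K q
  rw [aeval_eq_sum_range] at hae
  have h0 := congrArg (fun z => HahnSeries.coeff z 0) hae
  simp only [HahnSeries.coeff_sum, HahnSeries.coeff_smul, HahnSeries.coeff_zero] at h0
  rw [Finset.sum_eq_single 0] at h0
  · simp only [pow_zero, HahnSeries.coeff_one, if_true, smul_eq_mul, mul_one] at h0
    exact hP0 h0
  · intro i _ hi
    have hlt : (0 : Gam) < (q ^ i).order := by
      rw [HahnSeries.order_pow]
      exact nsmul_pos hpos hi
    rw [HahnSeries.coeff_eq_zero_of_lt_order hlt, smul_zero]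
  · intro h
    simp at h

theorem transcendental_of_order_ne {q : HahnSeries Gam K} (hne : q.order ≠ 0) :
    Transcendental K q := by
  rcases lt_or_gt_of_ne hne with h | h
  · have hq0 : q ≠ 0 := by
      rintro rfl
      simp at hne
    have hinv : 0 < (q⁻¹).order := by
      have h1 := HahnSeries.order_mul hq0 (inv_ne_zero hq0)
      rw [mul_inv_cancel₀ hq0, HahnSeries.order_one] at h1
      by_contra hcon
      push Not at hcon
      have : q.order + (q⁻¹).order < 0 := add_neg_of_neg_of_nonpos h hcon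
      rw [← h1] at this
      exact lt_irrefl _ this
    intro halg
    exact transcendental_of_order_pos hinv halg.inv
  · exact transcendental_of_order_pos h

/-- The order of `z` (if `z ≠ 0`) has parities `(i, j)`. -/
def Cls (z : HahnSeries Gam K) (i j : ℤ) : Prop :=
  ∀ g : Gam, z.orderTop = (g : WithTop Gam) → (ofLex g).1 % 2 = i ∧ (ofLex g).2 % 2 = j

theorem cls_single_mul_sq (m n : ℤ) (x : HahnSeries Gam K) :
    Cls (HahnSeries.single (toLex (m, n)) (1 : K) * x ^ 2) (m % 2) (n % 2) := by
  intro g hg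
  have hx : x ≠ 0 := by
    rintro rfl
    simp at hg
  rw [HahnSeries.orderTop_mul, HahnSeries.orderTop_single one_ne_zero, pow_two,
    HahnSeries.orderTop_mul, ← HahnSeries.order_eq_orderTop_of_ne_zero hx,
    ← WithTop.coe_add, ← WithTop.coe_add, WithTop.coe_inj] at hg
  subst hg
  have h1 : (ofLex (toLex (m, n) + (x.order + x.order))).1
      = m + ((ofLex x.order).1 + (ofLex x.order).1) := rfl
  have h2 : (ofLex (toLex (m, n) + (x.order + x.order))).2
      = n + ((ofLex x.order).2 + (ofLex x.order).2) := rfl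
  rw [h1, h2]
  constructor <;> omega

theorem orderTop_add_of_cls {x y : HahnSeries Gam K} {i j i' j' : ℤ} (hx : Cls x i j)
    (hy : Cls y i' j') (h : ¬ (i = i' ∧ j = j')) :
    (x + y).orderTop = min x.orderTop y.orderTop := by
  rcases lt_trichotomy x.orderTop y.orderTop with h1 | h1 | h1
  · rw [HahnSeries.orderTop_add_eq_left h1, min_eq_left h1.le]
  · by_cases hx0 : x = 0
    · subst hx0
      rw [zero_add, HahnSeries.orderTop_zero, min_eq_right le_top]
    · exfalso
      have h2 := (HahnSeries.order_eq_orderTop_of_ne_zero hx0).symm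
      obtain ⟨a1, a2⟩ := hx _ h2
      obtain ⟨b1, b2⟩ := hy _ (h1 ▸ h2)
      exact h ⟨a1.symm.trans b1, a2.symm.trans b2⟩
  · rw [HahnSeries.orderTop_add_eq_right h1, min_eq_right h1.le]

/-- The parameters. -/
noncomputable def sPar (K : Type u) [Field K] : HahnSeries Gam K :=
  HahnSeries.single (toLex (1, 0)) 1

noncomputable def tPar (K : Type u) [Field K] : HahnSeries Gam K :=
  HahnSeries.single (toLex (0, 1)) 1

theorem tPar_mul_sPar : tPar K * sPar K = HahnSeries.single (toLex (1, 1)) 1 := by
  rw [tPar, sPar, HahnSeries.single_mul_single, one_mul]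
  rfl

/-- The value of the form is zero or has a value that is not twice an element. -/
theorem q_order (x : Tw (tPar K) (sPar K) (1 : HahnSeries Gam K)) (hx : x ≠ 0) :
    (Tw.q x).order ≠ 0 := by
  have hu0 := cls_single_mul_sq 1 0 (x 0)
  have hu1 := cls_single_mul_sq 0 1 (x 1)
  have hu2 := cls_single_mul_sq 1 1 (x 2)
  set u0 : HahnSeries Gam K := HahnSeries.single (toLex (1, 0)) (1 : K) * (x 0) ^ 2 with h0
  set u1 : HahnSeries Gam K := HahnSeries.single (toLex (0, 1)) (1 : K) * (x 1) ^ 2 with h1
  set u2 : HahnSeries Gam K := HahnSeries.single (toLex (1, 1)) (1 : K) * (x 2) ^ 2 with h2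
  have hq : Tw.q x = u0 + u1 + u2 := by
    rw [Tw.q, tPar_mul_sPar, mul_one, mul_one]
    rfl
  have h01 := orderTop_add_of_cls hu0 hu1 (by norm_num)
  -- the class of `u0 + u1`
  have h01c : ∀ g : Gam, (u0 + u1).orderTop = (g : WithTop Gam) →
      ((ofLex g).1 % 2 = 1 ∧ (ofLex g).2 % 2 = 0) ∨ ((ofLex g).1 % 2 = 0 ∧ (ofLex g).2 % 2 = 1) := by
    intro g hg
    rw [h01] at hg
    rcases min_choice u0.orderTop u1.orderTop with h | h
    · rw [h] at hg
      exact Or.inl (by simpa using hu0 g hg)
    · rw [h] at hg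
      exact Or.inr (by simpa using hu1 g hg)
  have h012 : (u0 + u1 + u2).orderTop = min (u0 + u1).orderTop u2.orderTop := by
    rcases lt_trichotomy (u0 + u1).orderTop u2.orderTop with h | h | h
    · rw [HahnSeries.orderTop_add_eq_left h, min_eq_left h.le]
    · by_cases hz : u2 = 0
      · rw [hz, add_zero, HahnSeries.orderTop_zero, min_eq_left le_top]
      · exfalso
        have h3 := (HahnSeries.order_eq_orderTop_of_ne_zero hz).symm
        have h4 := hu2 _ h3
        have h5 := h01c _ (h.trans h3)
        omega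
    · rw [HahnSeries.orderTop_add_eq_right h, min_eq_right h.le]
  have hqne : Tw.q x ≠ 0 := by
    intro hq0
    rw [hq] at hq0
    rw [hq0, HahnSeries.orderTop_zero, h01] at h012
    have h3 : u0.orderTop = ⊤ ∧ u1.orderTop = ⊤ ∧ u2.orderTop = ⊤ := by
      have h4 := h012.symm
      rw [min_eq_top, min_eq_top] at h4
      exact ⟨h4.1.1, h4.1.2, h4.2⟩
    rw [HahnSeries.orderTop_eq_top, HahnSeries.orderTop_eq_top, HahnSeries.orderTop_eq_top] at h3
    obtain ⟨z0, z1, z2⟩ := h3
    have hs : ∀ g : Gam, (HahnSeries.single g (1 : K)) ≠ 0 := by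
      intro g
      simp
    refine hx (Tw.ext ?_ ?_ ?_)
    · exact pow_eq_zero_iff (two_ne_zero) |>.mp ((mul_eq_zero.mp z0).resolve_left (hs _))
    · exact pow_eq_zero_iff (two_ne_zero) |>.mp ((mul_eq_zero.mp z1).resolve_left (hs _))
    · exact pow_eq_zero_iff (two_ne_zero) |>.mp ((mul_eq_zero.mp z2).resolve_left (hs _))
  intro hord
  have h3 : (u0 + u1 + u2).orderTop = ((0 : Gam) : WithTop Gam) := by
    rw [← hq, ← HahnSeries.order_eq_orderTop_of_ne_zero hqne, hord]
  have hz1 : (ofLex (0 : Gam)).1 = 0 := rfl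
  have hz2 : (ofLex (0 : Gam)).2 = 0 := rfl
  rcases min_choice (u0 + u1).orderTop u2.orderTop with h | h
  · rw [h012, h] at h3
    have h4 := h01c 0 h3
    rw [hz1, hz2] at h4
    omega
  · rw [h012, h] at h3
    have h4 := hu2 0 h3
    rw [hz1, hz2] at h4
    omega

/-- Over every field there is a simple Lie algebra all of whose elements are ad-pure. -/
theorem exists_simple_adPure (K : Type u) [Field K] :
    ∃ (L : Type u) (_ : LieRing L) (_ : LieAlgebra K L),
      LieAlgebra.IsSimple K L ∧
      ∀ a : L, ∀ V : Submodule K L, FiniteDimensional K V →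
        (∀ v ∈ V, ⁅a, v⁆ ∈ V) → ∀ v ∈ V, ⁅a, v⁆ = 0 := by
  refine ⟨Tw (tPar K) (sPar K) (1 : HahnSeries Gam K), inferInstance, inferInstance,
    Tw.isSimple ?_ ?_ one_ne_zero, ?_⟩
  · rw [tPar]; simp
  · rw [sPar]; simp
  · exact Tw.adPure (fun x hx => transcendental_of_order_ne (q_order x hx))

end Pool.Agent.Lib_helper98
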